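import Mathlib
import Pool.Agent.MP_d0c340_co.Defs

/-!
# Definitions for the non-inscribable neighborly 5-polytope (MP_d0c340_co)

Labels `(false, j)` (first curve, `y_j`) and `(true, j)` (second curve, `z_j`).
-/

open Set Matrix

namespace NI

open MPd0c340

/-- homogeneous coordinates of `ℝ^5` -/
abbrev V := Fin 6 → ℝ

/-- labels of the vertices -/
abbrev Lab := Bool × ℕ

/-- the labelled vectors of two sequences -/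
def pt (u w : ℕ → V) (a : Lab) : V := if a.1 then w a.2 else u a.2

@[simp] lemma pt_false (u w : ℕ → V) (j : ℕ) : pt u w (false, j) = u j := rfl

@[simp] lemma pt_true (u w : ℕ → V) (j : ℕ) : pt u w (true, j) = w j := rfl

/-- any five distinct labelled vectors with index at most `M` are linearly independent -/
def Ind5 (M : ℕ) (p : Lab → V) : Prop :=
  ∀ a b c d e : Lab, [a, b, c, d, e].Nodup → a.2 ≤ M → b.2 ≤ M → c.2 ≤ M → d.2 ≤ M → e.2 ≤ M →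
    ∀ x y z s t : ℝ, x • p a + y • p b + z • p c + s • p d + t • p e = 0 →
      x = 0 ∧ y = 0 ∧ z = 0 ∧ s = 0 ∧ t = 0

/-- six vectors are linearly dependent -/
def Dep6 (a b c d e f : V) : Prop :=
  ∃ x y z s t r : ℝ, ¬ (x = 0 ∧ y = 0 ∧ z = 0 ∧ s = 0 ∧ t = 0 ∧ r = 0) ∧
    x • a + y • b + z • c + s • d + t • e + r • f = 0

/-- A good block: the point `u 0` is the modified vertex. -/
structure Blk (M : ℕ) (u w : ℕ → V) (η ζ : V →ₗ[ℝ] ℝ) : Prop where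
  ηu : ∀ j, j ≤ M → η (u j) = 0
  ηw : ∀ j, j ≤ M → η (w j) = 1
  ζu : ∀ j, j ≤ M → ζ (u j) = 1
  ζw : ∀ j, j ≤ M → ζ (w j) = 0
  ind : Ind5 M (pt u w)
  a : ∀ i k, (i + 2 ≤ k ∨ k + 2 ≤ i) → i + 1 ≤ M → k + 1 ≤ M →
    Dep6 (u i) (u (i + 1)) (w (i + 1)) (u k) (u (k + 1)) (w k)
  b : ∀ i k, 1 ≤ i → (i + 2 ≤ k ∨ k + 2 ≤ i) → i + 1 ≤ M → k + 1 ≤ M →
    Dep6 (u i) (w i) (w (i + 1)) (w k) (w (k + 1)) (u (k + 1))
  fa : ∀ i k, i + 2 ≤ k → k + 1 ≤ M → ∃ h : V →ₗ[ℝ] ℝ,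
    h (u i) = 0 ∧ h (u (i + 1)) = 0 ∧ h (w (i + 1)) = 0 ∧ h (u k) = 0 ∧ h (u (k + 1)) = 0 ∧
    h (w k) = 0 ∧ (∀ j, j ≤ M → j ≠ i → j ≠ i + 1 → j ≠ k → j ≠ k + 1 → h (u j) ≠ 0) ∧
    (∀ j, j ≤ M → j ≠ i + 1 → j ≠ k → h (w j) ≠ 0)
  fb : ∀ i k, 1 ≤ i → i + 2 ≤ k → k + 1 ≤ M → ∃ h : V →ₗ[ℝ] ℝ,
    h (u i) = 0 ∧ h (w i) = 0 ∧ h (w (i + 1)) = 0 ∧ h (w k) = 0 ∧ h (w (k + 1)) = 0 ∧
    h (u (k + 1)) = 0 ∧ (∀ j, j ≤ M → j ≠ i → j ≠ k + 1 → h (u j) ≠ 0) ∧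
    (∀ j, j ≤ M → j ≠ i → j ≠ i + 1 → j ≠ k → j ≠ k + 1 → h (w j) ≠ 0)
  f0 : ∀ k, 2 ≤ k → k + 1 ≤ M → ∃ h : V →ₗ[ℝ] ℝ,
    h (w 0) = 0 ∧ h (w 1) = 0 ∧ h (w k) = 0 ∧ h (w (k + 1)) = 0 ∧ h (u (k + 1)) = 0 ∧ h (u 0) ≠ 0

/-- A full block: like `Blk`, but all relations hold also for the index `0`. -/
structure Full (M : ℕ) (u w : ℕ → V) (η ζ : V →ₗ[ℝ] ℝ) : Prop where
  ηu : ∀ j, j ≤ M → η (u j) = 0
  ηw : ∀ j, j ≤ M → η (w j) = 1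
  ζu : ∀ j, j ≤ M → ζ (u j) = 1
  ζw : ∀ j, j ≤ M → ζ (w j) = 0
  ind : Ind5 M (pt u w)
  a : ∀ i k, (i + 2 ≤ k ∨ k + 2 ≤ i) → i + 1 ≤ M → k + 1 ≤ M →
    Dep6 (u i) (u (i + 1)) (w (i + 1)) (u k) (u (k + 1)) (w k)
  b : ∀ i k, (i + 2 ≤ k ∨ k + 2 ≤ i) → i + 1 ≤ M → k + 1 ≤ M →
    Dep6 (u i) (w i) (w (i + 1)) (w k) (w (k + 1)) (u (k + 1))
  fa : ∀ i k, i + 2 ≤ k → k + 1 ≤ M → ∃ h : V →ₗ[ℝ] ℝ,
    h (u i) = 0 ∧ h (u (i + 1)) = 0 ∧ h (w (i + 1)) = 0 ∧ h (u k) = 0 ∧ h (u (k + 1)) = 0 ∧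
    h (w k) = 0 ∧ (∀ j, j ≤ M → j ≠ i → j ≠ i + 1 → j ≠ k → j ≠ k + 1 → h (u j) ≠ 0) ∧
    (∀ j, j ≤ M → j ≠ i + 1 → j ≠ k → h (w j) ≠ 0)
  fb : ∀ i k, i + 2 ≤ k → k + 1 ≤ M → ∃ h : V →ₗ[ℝ] ℝ,
    h (u i) = 0 ∧ h (w i) = 0 ∧ h (w (i + 1)) = 0 ∧ h (w k) = 0 ∧ h (w (k + 1)) = 0 ∧
    h (u (k + 1)) = 0 ∧ (∀ j, j ≤ M → j ≠ i → j ≠ k + 1 → h (u j) ≠ 0) ∧
    (∀ j, j ≤ M → j ≠ i → j ≠ i + 1 → j ≠ k → j ≠ k + 1 → h (w j) ≠ 0)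

/-- `L` is (the set of labels of) a face of the convex hull of the labelled points with index at most `N`. -/
def IsFace (N : ℕ) (x : Lab → E 5) (L : Set Lab) : Prop :=
  ∃ b : V, (∀ a : Lab, a.2 ≤ N → a ∈ L → b ⬝ᵥ hom (x a) = 0) ∧
    (∀ a : Lab, a.2 ≤ N → a ∉ L → 0 < b ⬝ᵥ hom (x a))

/-- the set of labels with index at most `N` -/
def labs (N : ℕ) : Set Lab := {a | a.2 ≤ N}

/-- the polytope spanned by the labelled points with index at most `N` -/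
def hull (N : ℕ) (x : Lab → E 5) : Set (E 5) := convexHull ℝ (x '' labs N)

/-- Veronese point -/
noncomputable def ver (x y : ℝ) : E 5 := WithLp.toLp 2 ![x, y, x ^ 2, x * y, y ^ 2]

/-- points on the first parabola -/
noncomputable def ypt (i : ℕ) : E 5 := ver i ((i : ℝ) ^ 2)

/-- points on the second parabola -/
noncomputable def zpt (i : ℕ) : E 5 := ver i ((i : ℝ) ^ 2 + 1 / 2)

/-- the vertices of the example: every 50-th point of the first curve is pushed along an edge -/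
noncomputable def vpt (ε : ℝ) (a : Lab) : E 5 :=
  if a.1 then zpt a.2
  else if 50 ∣ a.2 then (1 - ε) • ypt a.2 + ε • ypt (a.2 + 1) else ypt a.2

/-- the set of labels of the facet `(a_ik)` -/
def setA (i k : ℕ) : Set Lab :=
  {(false, i), (false, i + 1), (true, i + 1), (false, k), (false, k + 1), (true, k)}

/-- the set of labels of the facet `(b_ik)` -/
def setB (i k : ℕ) : Set Lab :=
  {(false, i), (true, i), (true, i + 1), (true, k), (true, k + 1), (false, k + 1)}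

/-- the set of labels of the simplex facet replacing `(b_ik)` when `y_i` was pushed -/
def set0 (i k : ℕ) : Set Lab :=
  {(true, i), (true, i + 1), (true, k), (true, k + 1), (false, k + 1)}

/-- the combinatorial facts about the example that are used -/
structure Typ (N : ℕ) (x : Lab → E 5) : Prop where
  fY : IsFace N x {a | a.1 = false}
  fZ : IsFace N x {a | a.1 = true}
  fa : ∀ i k, i + 2 ≤ k → k + 1 ≤ N → ¬ 50 ∣ i + 1 → ¬ 50 ∣ k + 1 → IsFace N x (setA i k)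
  fb : ∀ i k, i + 2 ≤ k → k + 1 ≤ N → ¬ 50 ∣ i → ¬ 50 ∣ k + 1 → IsFace N x (setB i k)
  f0 : ∀ i k, i + 2 ≤ k → k + 1 ≤ N → 50 ∣ i → ¬ 50 ∣ k + 1 → IsFace N x (set0 i k)
  pair : ∀ a b : Lab, a.2 ≤ N → b.2 ≤ N → a ≠ b → IsFace N x {a, b}

/-- the index bound of the example -/
def NN : ℕ := 22000

end NI
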