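import Mathlib
import Pool.Agent.NI.Defs

/-!
# Linear algebra helpers for `V = ℝ^6`
-/

open Set Matrix

namespace NI

/-- five vectors are linearly independent (coefficient form) -/
def I5 (a b c d e : V) : Prop :=
  ∀ x y z s t : ℝ, x • a + y • b + z • c + s • d + t • e = 0 →
    x = 0 ∧ y = 0 ∧ z = 0 ∧ s = 0 ∧ t = 0

/-- six vectors are linearly independent (coefficient form) -/
def I6 (a b c d e f : V) : Prop :=
  ∀ x y z s t r : ℝ, x • a + y • b + z • c + s • d + t • e + r • f = 0 →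
    x = 0 ∧ y = 0 ∧ z = 0 ∧ s = 0 ∧ t = 0 ∧ r = 0

lemma Ind5.get {M : ℕ} {p : Lab → V} (h : Ind5 M p) (a b c d e : Lab)
    (hn : [a, b, c, d, e].Nodup) (ha : a.2 ≤ M) (hb : b.2 ≤ M) (hc : c.2 ≤ M) (hd : d.2 ≤ M)
    (he : e.2 ≤ M) : I5 (p a) (p b) (p c) (p d) (p e) :=
  h a b c d e hn ha hb hc hd he

lemma I6.linearIndependent {a b c d e f : V} (h : I6 a b c d e f) :
    LinearIndependent ℝ ![a, b, c, d, e, f] := by
  rw [Fintype.linearIndependent_iff]
  intro g hg
  simp only [Fin.sum_univ_succ, Fin.sum_univ_zero, Matrix.cons_val_zero, Matrix.cons_val_succ,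
    add_zero] at hg
  have := h (g 0) (g 1) (g 2) (g 3) (g 4) (g 5) (by
    rw [← hg]
    simp only [← add_assoc]
    rfl)
  obtain ⟨h0, h1, h2, h3, h4, h5⟩ := this
  intro i
  fin_cases i <;> assumption

lemma I6_of_linearIndependent {a b c d e f : V} (h : LinearIndependent ℝ ![a, b, c, d, e, f]) :
    I6 a b c d e f := by
  intro x y z s t r hx
  rw [Fintype.linearIndependent_iff] at h
  have := h ![x, y, z, s, t, r] (by
    simp only [Fin.sum_univ_succ, Fin.sum_univ_zero, Matrix.cons_val_zero, Matrix.cons_val_succ,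
      add_zero]
    rw [← hx]
    simp only [← add_assoc])
  exact ⟨this 0, this 1, this 2, this 3, this 4, this 5⟩

lemma dep6_iff_not_I6 {a b c d e f : V} : Dep6 a b c d e f ↔ ¬ I6 a b c d e f := by
  unfold Dep6 I6
  push Not
  constructor
  · rintro ⟨x, y, z, s, t, r, h1, h2⟩
    exact ⟨x, y, z, s, t, r, h2, by tauto⟩
  · rintro ⟨x, y, z, s, t, r, h1, h2⟩
    exact ⟨x, y, z, s, t, r, by tauto, h1⟩

lemma dep6_iff_det {a b c d e f : V} :
    Dep6 a b c d e f ↔ Matrix.det (![a, b, c, d, e, f] : Matrix (Fin 6) (Fin 6) ℝ) = 0 := by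
  rw [dep6_iff_not_I6]
  constructor
  · intro h
    by_contra h2
    apply h
    apply I6_of_linearIndependent
    exact Matrix.linearIndependent_rows_of_det_ne_zero h2
  · intro h h2
    have h3 := h2.linearIndependent
    obtain ⟨v, hv, hv2⟩ := Matrix.exists_vecMul_eq_zero_iff.2 h
    apply hv
    rw [Fintype.linearIndependent_iff] at h3
    funext i
    refine h3 v ?_ i
    rw [← hv2]
    funext j
    simp [Matrix.vecMul, dotProduct, Finset.sum_apply]

/-- six independent vectors span -/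
lemma I6.span {a b c d e f : V} (h : I6 a b c d e f) (v : V) :
    ∃ x y z s t r : ℝ, v = x • a + y • b + z • c + s • d + t • e + r • f := by
  have hli := h.linearIndependent
  have hcard : Fintype.card (Fin 6) = Module.finrank ℝ V := by simp
  let B := basisOfLinearIndependentOfCardEqFinrank hli hcard
  have hB : ∀ i, B i = ![a, b, c, d, e, f] i := fun i => by
    simp [B]
  have hv := B.sum_repr v
  refine ⟨B.repr v 0, B.repr v 1, B.repr v 2, B.repr v 3, B.repr v 4, B.repr v 5, ?_⟩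
  conv_lhs => rw [← hv]
  simp only [Fin.sum_univ_succ, Fin.sum_univ_zero, add_zero, hB]
  simp only [← add_assoc]
  rfl

lemma I6.eq_zero {a b c d e f : V} (h : I6 a b c d e f) (g : V →ₗ[ℝ] ℝ) (ha : g a = 0)
    (hb : g b = 0) (hc : g c = 0) (hd : g d = 0) (he : g e = 0) (hf : g f = 0) : g = 0 := by
  ext1 v
  ext
  obtain ⟨x, y, z, s, t, r, hv⟩ := h.span (LinearMap.single ℝ (fun _ => ℝ) v 1)
  simp only [LinearMap.comp_apply, LinearMap.zero_apply]
  rw [hv]
  simp [ha, hb, hc, hd, he, hf]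

/-- five vectors are always killed by a nonzero functional -/
lemma exists_functional (a b c d e : V) : ∃ g : V →ₗ[ℝ] ℝ, g ≠ 0 ∧ g a = 0 ∧ g b = 0 ∧ g c = 0 ∧
    g d = 0 ∧ g e = 0 := by
  have hdet : Matrix.det (![a, b, c, d, e, 0] : Matrix (Fin 6) (Fin 6) ℝ) = 0 :=
    Matrix.det_eq_zero_of_row_eq_zero 5 (fun j => rfl)
  obtain ⟨v, hv, h⟩ := Matrix.exists_mulVec_eq_zero_iff.2 hdet
  let g : V →ₗ[ℝ] ℝ :=
    { toFun := fun x => x ⬝ᵥ v
      map_add' := fun x y => by simp [add_dotProduct]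
      map_smul' := fun r x => by simp [smul_dotProduct] }
  refine ⟨g, ?_, congrFun h 0, congrFun h 1, congrFun h 2, congrFun h 3, congrFun h 4⟩
  intro hg
  apply hv
  have h2 : v ⬝ᵥ v = 0 := LinearMap.congr_fun hg v
  exact dotProduct_self_eq_zero.1 h2

/-- six vectors killed by a nonzero functional are dependent -/
lemma dep6_of_functional {a b c d e f : V} (g : V →ₗ[ℝ] ℝ) (hg : g ≠ 0) (ha : g a = 0)
    (hb : g b = 0) (hc : g c = 0) (hd : g d = 0) (he : g e = 0) (hf : g f = 0) :
    Dep6 a b c d e f := by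
  rw [dep6_iff_not_I6]
  intro h
  exact hg (h.eq_zero g ha hb hc hd he hf)

/-- solve a dependency for its first vector -/
lemma Dep6.solve {a b c d e f : V} (h : Dep6 a b c d e f) (hi : I5 b c d e f) :
    ∃ x y z s t : ℝ, a = x • b + y • c + z • d + s • e + t • f := by
  obtain ⟨x, y, z, s, t, r, hne, h0⟩ := h
  have hx : x ≠ 0 := by
    rintro rfl
    have := hi y z s t r (by rw [← h0]; simp)
    tauto
  refine ⟨-(y / x), -(z / x), -(s / x), -(t / x), -(r / x), ?_⟩
  have h1 : x • a = -(y • b + z • c + s • d + t • e + r • f) := by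
    rw [eq_neg_iff_add_eq_zero, ← h0]; abel
  have h2 : a = x⁻¹ • (x • a) := by rw [smul_smul, inv_mul_cancel₀ hx, one_smul]
  rw [h2, h1]
  simp only [smul_neg, smul_add, smul_smul, neg_smul, div_eq_mul_inv, mul_comm]
  abel

lemma I6_of_functional {a b c d e f : V} (hi : I5 a b c d e) (g : V →ₗ[ℝ] ℝ) (ha : g a = 0)
    (hb : g b = 0) (hc : g c = 0) (hd : g d = 0) (he : g e = 0) (hf : g f ≠ 0) :
    I6 a b c d e f := by
  intro x y z s t r h0
  have h1 := congrArg g h0
  simp only [map_add, map_smul, ha, hb, hc, hd, he, map_zero, smul_eq_mul, mul_zero, zero_add] at h1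
  have hr : r = 0 := by
    rcases mul_eq_zero.1 h1 with h | h
    · exact h
    · exact absurd h hf
  subst hr
  have := hi x y z s t (by rw [← h0]; simp)
  tauto

end NI
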