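import Mathlib
import Pool.Agent.NI.Defs

/-!
# NI-H: a quadric through 36 consecutive points of a linear orbit contains the previous point

GENERAL LEMMA. X finite dimensional over ℝ, S : X ≃ₗ X, y : X, ℓ : X →ₗ ℝ with ℓ (S^j y) = 0 for 1 ≤ j ≤ finrank X. Then ℓ y = 0.
 Proof: the n+1 vectors y, S y, ..., S^n y (n = finrank X) are dependent: Σ_{j ≤ n} c_j S^j y = 0, c ≠ 0. Let i0 be the least
 index with c_{i0} ≠ 0. Apply S^{-i0}: c_{i0} y + Σ_{j ≥ 1} c_{i0+j} S^j y = 0; apply ℓ: c_{i0} ℓ y = 0.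
APPLY with X = (V →ₗ[ℝ] V →ₗ[ℝ] ℝ) (finrank = 6 * (6 * 1) = 36: Module.finrank_linearMap), S B := B.compl₁₂ T T
 (i.e. (S B) x y = B (T x) (T y); inverse with T.symm), y = B, ℓ B' = B' x0 x0 with x0 = T.symm (u 1):
 ℓ (S^j B) = B (T^j x0) (T^j x0) = B (u j) (u j) = 0 for 1 ≤ j ≤ 36 ≤ M, because T^j x0 = u j (induction, hu).
 (One may as well replace V →ₗ V →ₗ ℝ by Matrix (Fin 6) (Fin 6) ℝ.)
-/

open Set Matrix

namespace NI

open MPd0c340

private theorem nih_aux {X : Type} [AddCommGroup X] [Module ℝ X] (S : X →ₗ[ℝ] X)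
    (hS : Function.Injective S) (y : X) (l : X →ₗ[ℝ] ℝ) (n : ℕ)
    (hl : ∀ j, 1 ≤ j → j ≤ n → l (S^[j] y) = 0) :
    ∀ m, m ≤ n + 1 → ∀ g : ℕ → ℝ, (∑ i ∈ Finset.range m, g i • S^[i] y = 0) →
      (∃ i < m, g i ≠ 0) → l y = 0 := by
  intro m
  induction m with
  | zero =>
    rintro _ g _ ⟨i, hi, _⟩
    exact absurd hi (Nat.not_lt_zero i)
  | succ m ih =>
    rintro hm g hg ⟨i, hi, hgi⟩
    rw [Finset.sum_range_succ'] at hg
    by_cases h0 : g 0 = 0
    · rw [h0, zero_smul, add_zero] at hg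
      have h1 : S (∑ k ∈ Finset.range m, g (k + 1) • S^[k] y) = 0 := by
        rw [map_sum, ← hg]
        apply Finset.sum_congr rfl
        intro k _
        rw [map_smul, Function.iterate_succ_apply']
      have h2 : ∑ k ∈ Finset.range m, g (k + 1) • S^[k] y = 0 := by
        apply hS
        rw [h1, map_zero]
      have hi0 : i ≠ 0 := by
        rintro rfl
        exact hgi h0
      obtain ⟨i', rfl⟩ := Nat.exists_eq_succ_of_ne_zero hi0
      exact ih (by omega) (fun k => g (k + 1)) h2 ⟨i', by omega, hgi⟩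
    · have h1 := congrArg l hg
      rw [map_add, map_sum, map_zero, map_smul, Function.iterate_zero, id] at h1
      have h2 : ∑ k ∈ Finset.range m, l (g (k + 1) • S^[k + 1] y) = 0 := by
        apply Finset.sum_eq_zero
        intro k hk
        rw [Finset.mem_range] at hk
        rw [map_smul, hl (k + 1) (by omega) (by omega), smul_zero]
      rw [h2, zero_add, smul_eq_mul] at h1
      rcases mul_eq_zero.mp h1 with h | h
      · exact absurd h h0
      · exact h

private theorem nih_general {X : Type} [AddCommGroup X] [Module ℝ X] [FiniteDimensional ℝ X]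
    (S : X →ₗ[ℝ] X) (hS : Function.Injective S) (y : X) (l : X →ₗ[ℝ] ℝ)
    (hl : ∀ j, 1 ≤ j → j ≤ Module.finrank ℝ X → l (S^[j] y) = 0) : l y = 0 := by
  set n := Module.finrank ℝ X with hn
  have hdep : ¬ LinearIndependent ℝ (fun i : Fin (n + 1) => S^[(i : ℕ)] y) := by
    intro h
    have := h.fintype_card_le_finrank
    rw [Fintype.card_fin] at this
    omega
  rw [Fintype.not_linearIndependent_iff] at hdep
  obtain ⟨g, hg, i, hi⟩ := hdep
  refine nih_aux S hS y l n hl (n + 1) le_rfl (fun k => if h : k < n + 1 then g ⟨k, h⟩ else 0) ?_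
    ⟨i, i.2, ?_⟩
  · rw [Finset.sum_range, ← hg]
    apply Finset.sum_congr rfl
    intro k _
    simp only [k.2, dite_true]
  · simp only [i.2, dite_true]
    exact hi

theorem form_shift {M : ℕ} (hM : 36 ≤ M) (T : V ≃ₗ[ℝ] V) (u : ℕ → V)
    (hu : ∀ j, 1 ≤ j → j + 1 ≤ M → T (u j) = u (j + 1)) (B : V →ₗ[ℝ] V →ₗ[ℝ] ℝ)
    (hB : ∀ j, 1 ≤ j → j ≤ M → B (u j) (u j) = 0) :
    B (T.symm (u 1)) (T.symm (u 1)) = 0 := by
  let S : (V →ₗ[ℝ] V →ₗ[ℝ] ℝ) →ₗ[ℝ] (V →ₗ[ℝ] V →ₗ[ℝ] ℝ) :=
    { toFun := fun B => B.compl₁₂ (T : V →ₗ[ℝ] V) (T : V →ₗ[ℝ] V)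
      map_add' := by
        intro B B'
        refine LinearMap.ext fun x => LinearMap.ext fun y => ?_
        rfl
      map_smul' := by
        intro c B
        refine LinearMap.ext fun x => LinearMap.ext fun y => ?_
        rfl }
  have hSap : ∀ (B : V →ₗ[ℝ] V →ₗ[ℝ] ℝ) (x y : V), S B x y = B (T x) (T y) := fun B x y => rfl
  have hSit : ∀ (j : ℕ) (B : V →ₗ[ℝ] V →ₗ[ℝ] ℝ) (x y : V),
      (S^[j] B) x y = B (T^[j] x) (T^[j] y) := by
    intro j
    induction j with
    | zero => intro B x y; rfl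
    | succ j ih =>
      intro B x y
      rw [Function.iterate_succ_apply', hSap, ih, Function.iterate_succ_apply,
        Function.iterate_succ_apply]
  have hSinj : Function.Injective S := by
    intro B B' h
    refine LinearMap.ext fun x => LinearMap.ext fun y => ?_
    have h1 := LinearMap.congr_fun (LinearMap.congr_fun h (T.symm x)) (T.symm y)
    rw [hSap, hSap, LinearEquiv.apply_symm_apply, LinearEquiv.apply_symm_apply] at h1
    exact h1
  set x₀ := T.symm (u 1) with hx₀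
  have hT : ∀ j, 1 ≤ j → j ≤ M → T^[j] x₀ = u j := by
    intro j hj
    induction j, hj using Nat.le_induction with
    | base =>
      intro _
      rw [Function.iterate_one, hx₀, LinearEquiv.apply_symm_apply]
    | succ j hj ih =>
      intro hjM
      rw [Function.iterate_succ_apply', ih (by omega), hu j hj hjM]
  let l : (V →ₗ[ℝ] V →ₗ[ℝ] ℝ) →ₗ[ℝ] ℝ :=
    { toFun := fun B => B x₀ x₀
      map_add' := fun B B' => rfl
      map_smul' := fun c B => rfl }
  have hfin : Module.finrank ℝ (V →ₗ[ℝ] V →ₗ[ℝ] ℝ) = 36 := by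
    rw [Module.finrank_linearMap, Module.finrank_linearMap]
    simp
  refine nih_general S hSinj B l ?_
  intro j hj1 hj2
  rw [hfin] at hj2
  show (S^[j] B) x₀ x₀ = 0
  rw [hSit, hT j hj1 (by omega)]
  exact hB j hj1 (by omega)

end NI
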