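import Mathlib
import Pool.Agent.NI.Defs
import Pool.Agent.NI.Basic

/-!
# NI-C3

modified_c: let φ ≠ 0 kill u' 0, u' 1, u' 2, u' 3, w' 3 (exists_functional).
 * φ (w' 0) = 0: hF.a 2 0 : Dep6 (u' 2) (u' 3) (w' 3) (u' 0) (u' 1) (w' 0), the other five are independent.
 * φ (u 0) = 0 by h1.
 * φ (w 0) = 0: hB.a 2 0 : Dep6 (u 2) (u 3) (w 3) (u 0) (u 1) (w 0), where u 2, u 3, w 3, u 0, u 1 are independent (hB.ind)
   and killed by φ.
 So c φ (w' 1) = 0 by h2. Finally φ (w' 1) ≠ 0: the functional h of hF.fa 0 2 kills u'0, u'1, w'1, u'2, u'3 (independent)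
 and h (w' 3) ≠ 0 (3 ≠ 1, 3 ≠ 2), so u'0, u'1, w'1, u'2, u'3, w'3 are independent (I6_of_functional); if φ (w'1) = 0
 then φ = 0 by I6.eq_zero. Hence c = 0.
modified_β: let g be the functional of hB.f0 2: it kills w 0, w 1, w 2, w 3, u 3 and g (u 0) ≠ 0.
 * g (u' 0) = 0: hF.b 0 2 : Dep6 (u' 0) (w' 0) (w' 1) (w' 2) (w' 3) (u' 3), the last five are independent and killed by g
   (w' 0 = w 0 by h2).
 * if β = 0 then u 0 = α u' 0, so g (u 0) = 0, contradiction.
-/

open Set Matrix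

namespace NI

open MPd0c340

theorem nicc_last {a b c d e f : V} (h : Dep6 a b c d e f) (hi : I5 a b c d e)
    (φ : V →ₗ[ℝ] ℝ) (ha : φ a = 0) (hb : φ b = 0) (hc : φ c = 0) (hd : φ d = 0) (he : φ e = 0) :
    φ f = 0 := by
  obtain ⟨x, y, z, s, t, r, hne, h0⟩ := h
  have h1 := congrArg φ h0
  simp only [map_add, map_smul, ha, hb, hc, hd, he, map_zero, smul_eq_mul, mul_zero, zero_add] at h1
  rcases mul_eq_zero.1 h1 with hr | hr
  · exfalso
    subst hr
    have := hi x y z s t (by rw [← h0]; simp)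
    tauto
  · exact hr

theorem nicc_first {a b c d e f : V} (h : Dep6 a b c d e f) (hi : I5 b c d e f)
    (φ : V →ₗ[ℝ] ℝ) (hb : φ b = 0) (hc : φ c = 0) (hd : φ d = 0) (he : φ e = 0) (hf : φ f = 0) :
    φ a = 0 := by
  obtain ⟨x, y, z, s, t, e'⟩ := h.solve hi
  rw [e']
  simp only [map_add, map_smul, hb, hc, hd, he, hf, smul_zero, add_zero]

theorem modified_c {K : ℕ} {u w u' w' : ℕ → V} {η ζ : V →ₗ[ℝ] ℝ} (hK : 6 ≤ K)
    (hB : Blk K u w η ζ) (hF : Full K u' w' η ζ) (hu : ∀ j, 1 ≤ j → u' j = u j)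
    (hw : ∀ j, 1 ≤ j → w' j = w j) {α β b c : ℝ} (hα : α ≠ 0) (h1 : u 0 = α • u' 0 + β • u' 1)
    (hb : b ≠ 0) (h2 : w 0 = b • w' 0 + c • w' 1) : c = 0 := by
  obtain ⟨φ, hφ, p0, p1, p2, p3, p4⟩ := exists_functional (u' 0) (u' 1) (u' 2) (u' 3) (w' 3)
  have q1 : φ (w' 0) = 0 := by
    have hd : Dep6 (u' 2) (u' 3) (w' 3) (u' 0) (u' 1) (w' 0) :=
      hF.a 2 0 (Or.inr (by omega)) (by omega) (by omega)
    have hi : I5 (u' 2) (u' 3) (w' 3) (u' 0) (u' 1) :=
      hF.ind.get (false, 2) (false, 3) (true, 3) (false, 0) (false, 1) (by simp)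
        (by simp; omega) (by simp; omega) (by simp; omega) (by simp) (by simp; omega)
    exact nicc_last hd hi φ p2 p3 p4 p0 p1
  have q2 : φ (u 0) = 0 := by
    rw [h1]
    simp only [map_add, map_smul, p0, p1, smul_zero, add_zero]
  have q3 : φ (w 0) = 0 := by
    have hd : Dep6 (u 2) (u 3) (w 3) (u 0) (u 1) (w 0) :=
      hB.a 2 0 (Or.inr (by omega)) (by omega) (by omega)
    have hi : I5 (u 2) (u 3) (w 3) (u 0) (u 1) :=
      hB.ind.get (false, 2) (false, 3) (true, 3) (false, 0) (false, 1) (by simp)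
        (by simp; omega) (by simp; omega) (by simp; omega) (by simp) (by simp; omega)
    exact nicc_last hd hi φ (by rw [← hu 2 (by omega)]; exact p2)
      (by rw [← hu 3 (by omega)]; exact p3) (by rw [← hw 3 (by omega)]; exact p4) q2
      (by rw [← hu 1 (by omega)]; exact p1)
  have q4 : φ (w' 1) ≠ 0 := by
    intro hw1
    obtain ⟨h, a0, a1, a2, a3, a4, -, -, a7⟩ := hF.fa 0 2 (by omega) (by omega)
    simp only [zero_add, Nat.reduceAdd] at a0 a1 a2 a3 a4
    have a6 : h (w' 3) ≠ 0 := a7 3 (by omega) (by omega) (by omega)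
    have hi : I5 (u' 0) (u' 1) (w' 1) (u' 2) (u' 3) :=
      hF.ind.get (false, 0) (false, 1) (true, 1) (false, 2) (false, 3) (by simp)
        (by simp) (by simp; omega) (by simp; omega) (by simp; omega) (by simp; omega)
    have h6 := I6_of_functional hi h a0 a1 a2 a3 a4 a6
    exact hφ (h6.eq_zero φ p0 p1 hw1 p2 p3 p4)
  have h3 := congrArg φ h2
  rw [map_add, map_smul, map_smul, q1, q3, smul_zero, zero_add, smul_eq_mul] at h3
  exact (mul_eq_zero.1 h3.symm).resolve_right q4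

theorem modified_β {K : ℕ} {u w u' w' : ℕ → V} {η ζ : V →ₗ[ℝ] ℝ} (hK : 6 ≤ K)
    (hB : Blk K u w η ζ) (hF : Full K u' w' η ζ) (hu : ∀ j, 1 ≤ j → u' j = u j)
    (hw : ∀ j, 1 ≤ j → w' j = w j) {α β : ℝ} (h1 : u 0 = α • u' 0 + β • u' 1)
    (h2 : w 0 = w' 0) : β ≠ 0 := by
  obtain ⟨g, g0, g1, g2, g3, g4, g5⟩ := hB.f0 2 (by omega) (by omega)
  simp only [Nat.reduceAdd] at g3 g4
  have q1 : g (u' 0) = 0 := by
    have hd : Dep6 (u' 0) (w' 0) (w' 1) (w' 2) (w' 3) (u' 3) :=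
      hF.b 0 2 (Or.inl (by omega)) (by omega) (by omega)
    have hi : I5 (w' 0) (w' 1) (w' 2) (w' 3) (u' 3) :=
      hF.ind.get (true, 0) (true, 1) (true, 2) (true, 3) (false, 3) (by simp)
        (by simp) (by simp; omega) (by simp; omega) (by simp; omega) (by simp; omega)
    exact nicc_first hd hi g (by rw [← h2]; exact g0) (by rw [hw 1 (by omega)]; exact g1)
      (by rw [hw 2 (by omega)]; exact g2) (by rw [hw 3 (by omega)]; exact g3)
      (by rw [hu 3 (by omega)]; exact g4)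
  rintro rfl
  apply g5
  rw [h1]
  simp only [map_add, map_smul, q1, smul_zero, zero_smul, add_zero]

end NI
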