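import Mathlib
import Pool.Agent.NI.Defs
import Pool.Agent.NI.Basic

/-!
# NI-C1: the modified vertex lies on the line u'_0 u_1

PROOF. Let h_k (k = 2,3,4) be the functional of hF.fa 0 k: it kills u' 0, u' 1, w' 1, u' k, u' (k+1), w' k and is nonzero on
u' j (j ≠ 0,1,k,k+1) and w' j (j ≠ 1,k).
(1) h_k (u 0) = 0: hB.a 0 k : Dep6 (u 0) (u 1) (w 1) (u k) (u (k+1)) (w k), the last five are independent (hB.ind), so
    (Dep6.solve) u 0 is a combination of them, and h_k kills them (u j = u' j, w j = w' j for j ≥ 1).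
(2) u' 0, u' 1, w' 1, u' 3, w' 2, w' 3 are independent (I6): in a relation a u'0 + b u'1 + c w'1 + d u'3 + e w'2 + f w'3 = 0
    apply h_2: f h_2(w'3) = 0, h_2 (w'3) ≠ 0, so f = 0; apply h_3: e h_3 (w'2) = 0, so e = 0; the remaining four are
    independent (hF.ind with a fifth label and coefficient 0).
(3) By I6.span u 0 = a u'0 + b u'1 + c w'1 + d u'3 + e w'2 + f w'3. h_2 (u 0) = 0 gives f = 0, h_3 (u 0) = 0 gives e = 0,
    h_4 (u 0) = 0 gives d = 0 (h_4 (u' 3) ≠ 0). η (u 0) = 0 gives c = 0 (η (w' 1) = 1, η (u' j) = 0). ζ: a + b = 1.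
(4) a ≠ 0: otherwise u 0 = u 1, contradicting hB.ind (labels (false,0), (false,1)).
Result: α = a, β = b.
-/

open Set Matrix

namespace NI

open MPd0c340

theorem nicu_kill {K : ℕ} {u w : ℕ → V} {η ζ : V →ₗ[ℝ] ℝ} (hB : Blk K u w η ζ) (k : ℕ)
    (h2 : 2 ≤ k) (hk : k + 1 ≤ K) (h : V →ₗ[ℝ] ℝ) (a1 : h (u 1) = 0) (a2 : h (w 1) = 0)
    (a3 : h (u k) = 0) (a4 : h (u (k + 1)) = 0) (a5 : h (w k) = 0) : h (u 0) = 0 := by
  have hd : Dep6 (u 0) (u 1) (w 1) (u k) (u (k + 1)) (w k) :=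
    hB.a 0 k (Or.inl (by omega)) (by omega) hk
  have hi : I5 (u 1) (w 1) (u k) (u (k + 1)) (w k) :=
    hB.ind.get (false, 1) (true, 1) (false, k) (false, k + 1) (true, k)
      (by simp; omega) (by simp; omega) (by simp; omega) (by simp; omega) (by simp; omega)
      (by simp; omega)
  obtain ⟨x, y, z, s, t, e⟩ := hd.solve hi
  rw [e]
  simp only [map_add, map_smul, a1, a2, a3, a4, a5, smul_zero, add_zero]

/-- the six vectors used as a basis -/
theorem nicu_I6 {K : ℕ} {u' w' : ℕ → V} {η ζ : V →ₗ[ℝ] ℝ} (hK : 6 ≤ K)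
    (hF : Full K u' w' η ζ) {h2 h3 : V →ₗ[ℝ] ℝ} (a0 : h2 (u' 0) = 0) (a1 : h2 (u' 1) = 0)
    (a2 : h2 (w' 1) = 0) (a4 : h2 (u' 3) = 0) (a5 : h2 (w' 2) = 0) (a6 : h2 (w' 3) ≠ 0)
    (b0 : h3 (u' 0) = 0) (b1 : h3 (u' 1) = 0) (b2 : h3 (w' 1) = 0) (b4 : h3 (u' 3) = 0)
    (b5 : h3 (w' 3) = 0) (b6 : h3 (w' 2) ≠ 0) :
    I6 (u' 0) (u' 1) (w' 1) (u' 3) (w' 2) (w' 3) := by
  intro a b c d e f hrel
  have hf : f = 0 := by
    have h := congrArg h2 hrel
    simp only [map_add, map_smul, a0, a1, a2, a4, a5, smul_eq_mul, mul_zero, zero_add,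
      map_zero] at h
    exact (mul_eq_zero.1 h).resolve_right a6
  have he : e = 0 := by
    have h := congrArg h3 hrel
    simp only [map_add, map_smul, b0, b1, b2, b4, b5, smul_eq_mul, mul_zero, zero_add, add_zero,
      map_zero] at h
    exact (mul_eq_zero.1 h).resolve_right b6
  subst hf
  subst he
  have hi : I5 (u' 0) (u' 1) (w' 1) (u' 3) (u' 2) :=
    hF.ind.get (false, 0) (false, 1) (true, 1) (false, 3) (false, 2)
      (by simp) (by simp) (by simp; omega) (by simp; omega) (by simp; omega)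
      (by simp; omega)
  obtain ⟨g1, g2, g3, g4, -⟩ := hi a b c d 0 (by rw [← hrel]; simp)
  exact ⟨g1, g2, g3, g4, rfl, rfl⟩

theorem modified_u {K : ℕ} {u w u' w' : ℕ → V} {η ζ : V →ₗ[ℝ] ℝ} (hK : 6 ≤ K)
    (hB : Blk K u w η ζ) (hF : Full K u' w' η ζ) (hu : ∀ j, 1 ≤ j → u' j = u j)
    (hw : ∀ j, 1 ≤ j → w' j = w j) :
    ∃ α β : ℝ, α ≠ 0 ∧ α + β = 1 ∧ u 0 = α • u' 0 + β • u' 1 := by
  obtain ⟨h2, a0, a1, a2, a3, a4, a5, -, a7⟩ := hF.fa 0 2 (by omega) (by omega)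
  obtain ⟨h3, b0, b1, b2, b3, b4, b5, -, b7⟩ := hF.fa 0 3 (by omega) (by omega)
  obtain ⟨h4, c0, c1, c2, c3, c4, c5, c6, -⟩ := hF.fa 0 4 (by omega) (by omega)
  have a6 : h2 (w' 3) ≠ 0 := a7 3 (by omega) (by omega) (by omega)
  have b6 : h3 (w' 2) ≠ 0 := b7 2 (by omega) (by omega) (by omega)
  have c7 : h4 (u' 3) ≠ 0 := c6 3 (by omega) (by omega) (by omega) (by omega) (by omega)
  simp only [zero_add, Nat.reduceAdd] at a0 a1 a2 a3 a4 a5 b0 b1 b2 b3 b4 b5 c0 c1 c2 c3 c4 c5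
  have k2 : h2 (u 0) = 0 := nicu_kill hB 2 (by omega) (by omega) h2
    (by rw [← hu 1 (by omega)]; exact a1) (by rw [← hw 1 (by omega)]; exact a2)
    (by rw [← hu 2 (by omega)]; exact a3) (by rw [← hu (2 + 1) (by omega)]; exact a4)
    (by rw [← hw 2 (by omega)]; exact a5)
  have k3 : h3 (u 0) = 0 := nicu_kill hB 3 (by omega) (by omega) h3
    (by rw [← hu 1 (by omega)]; exact b1) (by rw [← hw 1 (by omega)]; exact b2)
    (by rw [← hu 3 (by omega)]; exact b3) (by rw [← hu (3 + 1) (by omega)]; exact b4)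
    (by rw [← hw 3 (by omega)]; exact b5)
  have k4 : h4 (u 0) = 0 := nicu_kill hB 4 (by omega) (by omega) h4
    (by rw [← hu 1 (by omega)]; exact c1) (by rw [← hw 1 (by omega)]; exact c2)
    (by rw [← hu 4 (by omega)]; exact c3) (by rw [← hu (4 + 1) (by omega)]; exact c4)
    (by rw [← hw 4 (by omega)]; exact c5)
  obtain ⟨a, b, c, d, e, f, hv⟩ :=
    (nicu_I6 hK hF a0 a1 a2 a4 a5 a6 b0 b1 b2 b3 b5 b6).span (u 0)
  have hf : f = 0 := by
    have h := congrArg h2 hv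
    simp only [map_add, map_smul, a0, a1, a2, a4, a5, smul_eq_mul, mul_zero, zero_add, k2] at h
    exact (mul_eq_zero.1 h.symm).resolve_right a6
  have he : e = 0 := by
    have h := congrArg h3 hv
    simp only [map_add, map_smul, b0, b1, b2, b3, b5, smul_eq_mul, mul_zero, zero_add, add_zero,
      k3] at h
    exact (mul_eq_zero.1 h.symm).resolve_right b6
  subst hf
  subst he
  have hd : d = 0 := by
    have h := congrArg h4 hv
    simp only [map_add, map_smul, c0, c1, c2, smul_eq_mul, mul_zero, zero_mul, zero_add, add_zero,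
      k4] at h
    exact (mul_eq_zero.1 h.symm).resolve_right c7
  subst hd
  have hc : c = 0 := by
    have h := congrArg η hv
    simp only [map_add, map_smul, hF.ηu 0 (by omega), hF.ηu 1 (by omega), hF.ηw 1 (by omega),
      hF.ηu 3 (by omega), hB.ηu 0 (by omega), smul_eq_mul, mul_zero, zero_mul, zero_add,
      add_zero, mul_one] at h
    exact h.symm
  subst hc
  have hab : a + b = 1 := by
    have h := congrArg ζ hv
    simp only [map_add, map_smul, hF.ζu 0 (by omega), hF.ζu 1 (by omega), hB.ζu 0 (by omega),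
      smul_eq_mul, zero_mul, add_zero, mul_one] at h
    exact h.symm
  have hv' : u 0 = a • u' 0 + b • u' 1 := by
    rw [hv]
    simp only [zero_smul, add_zero]
  refine ⟨a, b, ?_, hab, hv'⟩
  rintro rfl
  have hb : b = 1 := by linarith
  rw [hb, zero_smul, zero_add, one_smul, hu 1 (by omega)] at hv'
  have hi : I5 (u 0) (u 1) (u 2) (u 3) (u 4) :=
    hB.ind.get (false, 0) (false, 1) (false, 2) (false, 3) (false, 4)
      (by simp) (by simp) (by simp; omega) (by simp; omega) (by simp; omega)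
      (by simp; omega)
  obtain ⟨g1, -⟩ := hi 1 (-1) 0 0 0 (by rw [hv']; simp)
  exact one_ne_zero g1

end NI
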