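import Mathlib
import Pool.Agent.NI.Defs
import Pool.Agent.NI.Basic

/-!
# NI-C2: the vertex w 0 lies on the line w'_0 w_1

PROOF. Two bases: B2 = (u' 1, w' 0, w' 1, u' 3, w' 2, w' 3) and B3 = (u' 1, w' 0, w' 1, u' 4, w' 3, w' 4): the functional g of
hF.fb 0 k (k = 2 resp. 3) kills w' 0, w' 1, u' (k+1), w' k, w' (k+1), which are independent (hF.ind), and g (u' 1) ≠ 0
(1 ≠ 0, 1 ≠ k+1). So I6 (use I6_of_functional and permute).
For k = 2,3,4 let h_k ≠ 0 be a functional killing u 1, w 1, u k, w k, w (k+1) (exists_functional). Then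
 * h_k (w 0) = 0: hB.b k 0 : Dep6 (u k) (w k) (w (k+1)) (w 0) (w 1) (u 1); u k, w k, w (k+1), w 1, u 1 are independent, so
   w 0 is a combination of them.
 * h_k (w' 0) = 0: in the same way from hF.b k 0 (u' j = u j, w' j = w j for j ≥ 1).
Write w 0 = a u'1 + b w'0 + c w'1 + d u'3 + e w'2 + f w'3 (B2 spans: I6.span).
 * k = 2: h_2 kills u'1, w'0, w'1, w'2, w'3, hence h_2 (u'3) ≠ 0 (I6.eq_zero for B2), h_2 (w 0) = 0 gives d = 0.
 * k = 3: h_3 kills u'1, w'0, w'1, u'3, w'3, hence h_3 (w'2) ≠ 0 (B2), so e = 0.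
 * k = 4: h_4 kills u'1, w'0, w'1, u'4, w'4, hence h_4 (w'3) ≠ 0 (B3), and h_4 (w 0) = f h_4 (w'3) = 0, so f = 0.
So w 0 = a u'1 + b w'0 + c w'1. ζ: 0 = a. η: 1 = b + c. b ≠ 0: otherwise w 0 = w 1, contradiction with hB.ind.
-/

open Set Matrix

namespace NI

open MPd0c340

private lemma nicw_kill {a b c v d e : V} (h : Dep6 a b c v d e) (hi : I5 a b c d e)
    (g : V →ₗ[ℝ] ℝ) (ha : g a = 0) (hb : g b = 0) (hc : g c = 0) (hd : g d = 0) (he : g e = 0) :
    g v = 0 := by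
  obtain ⟨x, y, z, s, t, r, hne, h0⟩ := h
  have h1 := congrArg g h0
  simp only [map_add, map_smul, ha, hb, hc, hd, he, map_zero, smul_eq_mul, mul_zero, zero_add,
    add_zero] at h1
  rcases mul_eq_zero.1 h1 with hs | hv
  · exfalso
    subst hs
    have := hi x y z t r (by rw [← h0]; simp)
    tauto
  · exact hv

theorem modified_w {K : ℕ} {u w u' w' : ℕ → V} {η ζ : V →ₗ[ℝ] ℝ} (hK : 6 ≤ K)
    (hB : Blk K u w η ζ) (hF : Full K u' w' η ζ) (hu : ∀ j, 1 ≤ j → u' j = u j)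
    (hw : ∀ j, 1 ≤ j → w' j = w j) :
    ∃ b c : ℝ, b ≠ 0 ∧ b + c = 1 ∧ w 0 = b • w' 0 + c • w' 1 := by
  -- the two bases
  obtain ⟨g2, -, g2b, g2c, g2d, g2e, g2f, g2u, -⟩ := hF.fb 0 2 (by norm_num) (by omega)
  obtain ⟨g3, -, g3b, g3c, g3d, g3e, g3f, g3u, -⟩ := hF.fb 0 3 (by norm_num) (by omega)
  have B2 : I6 (w' 0) (w' 1) (u' 3) (w' 2) (w' 3) (u' 1) := by
    have h5 : I5 (w' 0) (w' 1) (u' 3) (w' 2) (w' 3) :=
      hF.ind.get (true, 0) (true, 1) (false, 3) (true, 2) (true, 3) (by decide)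
        (by simp) (by simp; omega) (by simp; omega) (by simp; omega) (by simp; omega)
    exact I6_of_functional h5 g2 g2b g2c g2f g2d g2e (g2u 1 (by omega) (by omega) (by omega))
  have B3 : I6 (w' 0) (w' 1) (u' 4) (w' 3) (w' 4) (u' 1) := by
    have h5 : I5 (w' 0) (w' 1) (u' 4) (w' 3) (w' 4) :=
      hF.ind.get (true, 0) (true, 1) (false, 4) (true, 3) (true, 4) (by decide)
        (by simp) (by simp; omega) (by simp; omega) (by simp; omega) (by simp; omega)
    exact I6_of_functional h5 g3 g3b g3c g3f g3d g3e (g3u 1 (by omega) (by omega) (by omega))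
  -- the functionals h_k
  have hk : ∀ k, 2 ≤ k → k ≤ 4 → ∃ h : V →ₗ[ℝ] ℝ, h ≠ 0 ∧ h (u' 1) = 0 ∧ h (w' 1) = 0 ∧
      h (u' k) = 0 ∧ h (w' k) = 0 ∧ h (w' (k + 1)) = 0 ∧ h (w 0) = 0 ∧ h (w' 0) = 0 := by
    intro k hk2 hk4
    obtain ⟨h, hne, h1, h2, h3, h4, h5⟩ := exists_functional (u 1) (w 1) (u k) (w k) (w (k + 1))
    have e1 := hu 1 le_rfl
    have e2 := hw 1 le_rfl
    have e3 := hu k (by omega)
    have e4 := hw k (by omega)
    have e5 := hw (k + 1) (by omega)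
    have hnd : [((false, k) : Lab), (true, k), (true, k + 1), (true, 1), (false, 1)].Nodup := by
      have hk1 : k ≠ 1 := by omega
      have hk3 : k ≠ k + 1 := by omega
      have hk0 : k ≠ 0 := by omega
      simp [hk1, hk0]
    refine ⟨h, hne, by rw [e1, h1], by rw [e2, h2], by rw [e3, h3], by rw [e4, h4],
      by rw [e5, h5], ?_, ?_⟩
    · have hi : I5 (u k) (w k) (w (k + 1)) (w 1) (u 1) :=
        hB.ind.get (false, k) (true, k) (true, k + 1) (true, 1) (false, 1) hnd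
          (by simp; omega) (by simp; omega) (by simp; omega) (by simp; omega) (by simp; omega)
      exact nicw_kill (hB.b k 0 (by omega) (by omega) (by omega) (by omega)) hi h h3 h4 h5 h2 h1
    · have hi : I5 (u' k) (w' k) (w' (k + 1)) (w' 1) (u' 1) :=
        hF.ind.get (false, k) (true, k) (true, k + 1) (true, 1) (false, 1) hnd
          (by simp; omega) (by simp; omega) (by simp; omega) (by simp; omega) (by simp; omega)
      exact nicw_kill (hF.b k 0 (by omega) (by omega) (by omega)) hi h (by rw [e3, h3])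
        (by rw [e4, h4]) (by rw [e5, h5]) (by rw [e2, h2]) (by rw [e1, h1])
  obtain ⟨p2, p2n, p2u1, p2w1, p2u2, p2w2, p2w3, p2w0, p2w0'⟩ := hk 2 (by norm_num) (by norm_num)
  obtain ⟨p3, p3n, p3u1, p3w1, p3u3, p3w3, p3w4, p3w0, p3w0'⟩ := hk 3 (by norm_num) (by norm_num)
  obtain ⟨p4, p4n, p4u1, p4w1, p4u4, p4w4, p4w5, p4w0, p4w0'⟩ := hk 4 (by norm_num) (by norm_num)
  norm_num at p2w3 p3w4 p4w5
  obtain ⟨x, y, z, s, t, r, hv⟩ := B2.span (w 0)
  have n2 : p2 (u' 3) ≠ 0 := fun h => p2n (B2.eq_zero p2 p2w0' p2w1 h p2w2 p2w3 p2u1)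
  have n3 : p3 (w' 2) ≠ 0 := fun h => p3n (B2.eq_zero p3 p3w0' p3w1 p3u3 h p3w3 p3u1)
  have n4 : p4 (w' 3) ≠ 0 := fun h => p4n (B3.eq_zero p4 p4w0' p4w1 p4u4 h p4w4 p4u1)
  have hz : z = 0 := by
    rw [hv] at p2w0
    simp only [map_add, map_smul, p2w0', p2w1, p2w2, p2w3, p2u1, smul_eq_mul, mul_zero, zero_add,
      add_zero] at p2w0
    exact (mul_eq_zero.1 p2w0).resolve_right n2
  have hs : s = 0 := by
    rw [hv] at p3w0
    simp only [map_add, map_smul, p3w0', p3w1, p3u3, p3w3, p3u1, smul_eq_mul, mul_zero, zero_add,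
      add_zero] at p3w0
    exact (mul_eq_zero.1 p3w0).resolve_right n3
  subst hz hs
  have ht : t = 0 := by
    rw [hv] at p4w0
    simp only [map_add, map_smul, p4w0', p4w1, p4u1, smul_eq_mul, mul_zero, zero_mul, zero_add,
      add_zero] at p4w0
    exact (mul_eq_zero.1 p4w0).resolve_right n4
  subst ht
  have hr : r = 0 := by
    have h1 := hB.ζw 0 (by omega)
    rw [hv] at h1
    simp only [map_add, map_smul, hF.ζw 0 (by omega), hF.ζw 1 (by omega), hF.ζu 1 (by omega),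
      smul_eq_mul, mul_zero, mul_one, zero_mul, zero_add, add_zero] at h1
    exact h1
  subst hr
  simp only [zero_smul, add_zero] at hv
  have hxy : x + y = 1 := by
    have h1 := hB.ηw 0 (by omega)
    rw [hv] at h1
    simpa only [map_add, map_smul, hF.ηw 0 (by omega : 0 ≤ K), hF.ηw 1 (by omega : 1 ≤ K),
      smul_eq_mul, mul_one] using h1
  refine ⟨x, y, ?_, hxy, hv⟩
  rintro rfl
  have hy : y = 1 := by linarith
  subst hy
  rw [hw 1 le_rfl, zero_smul, zero_add, one_smul] at hv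
  have hi : I5 (w 0) (w 1) (u 0) (u 1) (u 2) :=
    hB.ind.get (true, 0) (true, 1) (false, 0) (false, 1) (false, 2) (by decide)
      (by simp) (by simp; omega) (by simp) (by simp; omega) (by simp; omega)
  have := hi 1 (-1) 0 0 0 (by rw [hv]; simp)
  exact one_ne_zero this.1

end NI
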