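import Mathlib
import Pool.Agent.NI.Defs
import Pool.Agent.NI.Basic

/-!
# NI-P: the four differences lie in a plane

Write a=u i, b=u (i+1), c=u k, d=u (k+1), A=w i, B=w (i+1), C=w k, D=w (k+1); 1 ≤ i, i+2 ≤ k, k+1 ≤ M (8 distinct labels).

PROOF.
1. Relations (hB.a i k), (hB.a k i), (hB.b i k), (hB.b k i) [k ≥ 1, so both are available]:
   r1 = hB.a i k : Dep6 a b B c d C.      r2 = hB.a k i : Dep6 c d D a b A.
   r3 = hB.b i k : Dep6 a A B C D d.      r4 = hB.b k i : Dep6 c C D A B b.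
   Any five of the labelled vectors are independent (hB.ind.get).
2. Solve r1 for B (Dep6.solve, after permuting): B = x1 a + x2 b + x3 c + x4 d + x5 C; applying η: 1 = x5. So
   C - B = -(x1 a + x2 b + x3 c + x4 d).
   Solve r2 for A: A = y1 a + y2 b + y3 c + y4 d + 1 D.
3. a, b, c, d, C, D are INDEPENDENT (I6): take h from hB.fa i k: it kills a,b,c,d,C and h D = h (w (k+1)) ≠ 0
   (k+1 ≠ i+1, k+1 ≠ k): use I6_of_functional.
4. Solve r3 for a: a = z1 A + z2 B + z3 C + z4 D + z5 d; ζ gives 1 = z5; η gives z1+z2+z3+z4 = 0. Insert 2.: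
   a - d = z1 A + z2 B + z3 C + z4 D = (combination of a,b,c,d) + (z2+z3) C + (z1+z4) D.
   By 3. z3 = -z2, z4 = -z1. So  d - a = z1 (D - A) + z2 (C - B).
   In the same way (r4 solved for b, z5 = 1 for c)  c - b = t1 (D - A) + t2 (C - B).
5. d - a and c - b are linearly independent (a,b,c,d are independent), hence the 2x2 determinant z1 t2 - z2 t1 ≠ 0
   (if it is 0 then t2 (d-a) - z2 (c-b) = 0 and t1 (d-a) - z1 (c-b) = 0, so z1=z2=t1=t2=0, so d = a, contradiction)
   and one can solve: D - A, C - B are combinations of d - a, c - b: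
   D - A = (t2 (d-a) - z2 (c-b))/det, C - B = (-t1 (d-a) + z1 (c-b))/det.
-/

open Set Matrix

namespace NI

open MPd0c340

private lemma nip_coord {x y : V} (h : ∀ j, x j = y j) : x = y := funext h

private lemma nip_core {a b c d A B C D : V} (hind : I6 a b c d C D)
    {x1 x2 x3 x4 y1 y2 y3 y4 z1 z2 z3 z4 t1 t2 t3 t4 : ℝ}
    (hB : B = x1 • a + x2 • b + x3 • c + x4 • d + (1 : ℝ) • C)
    (hA : A = y1 • a + y2 • b + y3 • c + y4 • d + (1 : ℝ) • D)
    (ha : a = z1 • A + z2 • B + z3 • C + z4 • D + (1 : ℝ) • d)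
    (hc : c = t1 • C + t2 • D + t3 • A + t4 • B + (1 : ℝ) • b) :
    ∃ p1 p2 q1 q2 : ℝ,
      D - A = p1 • (d - a) + p2 • (c - b) ∧ C - B = q1 • (d - a) + q2 • (c - b) := by
  -- coordinates
  have eB : ∀ j, B j = x1 * a j + x2 * b j + x3 * c j + x4 * d j + C j := by
    intro j
    have := congrFun hB j
    simpa using this
  have eA : ∀ j, A j = y1 * a j + y2 * b j + y3 * c j + y4 * d j + D j := by
    intro j
    have := congrFun hA j
    simpa using this
  have ea : ∀ j, a j = z1 * A j + z2 * B j + z3 * C j + z4 * D j + d j := by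
    intro j
    have := congrFun ha j
    simpa using this
  have ec : ∀ j, c j = t1 * C j + t2 * D j + t3 * A j + t4 * B j + b j := by
    intro j
    have := congrFun hc j
    simpa using this
  -- the coefficients of `C`, `D`
  have h1 := hind (z1 * y1 + z2 * x1 - 1) (z1 * y2 + z2 * x2) (z1 * y3 + z2 * x3)
    (z1 * y4 + z2 * x4 + 1) (z2 + z3) (z1 + z4) (by
      refine nip_coord fun j => ?_
      simp only [Pi.add_apply, Pi.smul_apply, smul_eq_mul, Pi.zero_apply]
      have := ea j
      rw [eA j, eB j] at this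
      linear_combination -this)
  have h2 := hind (t3 * y1 + t4 * x1) (t3 * y2 + t4 * x2 + 1) (t3 * y3 + t4 * x3 - 1)
    (t3 * y4 + t4 * x4) (t1 + t4) (t2 + t3) (by
      refine nip_coord fun j => ?_
      simp only [Pi.add_apply, Pi.smul_apply, smul_eq_mul, Pi.zero_apply]
      have := ec j
      rw [eA j, eB j] at this
      linear_combination -this)
  obtain ⟨-, -, -, -, hz3, hz4⟩ := h1
  obtain ⟨-, -, -, -, ht1, ht2⟩ := h2
  -- `d - a = z1 (D - A) + z2 (C - B)`, `c - b = -(t3 (D - A)) - t4 (C - B)`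
  have e1 : ∀ j, d j - a j = z1 * (D j - A j) + z2 * (C j - B j) := by
    intro j
    have := ea j
    linear_combination -this - C j * hz3 - D j * hz4
  have e2 : ∀ j, c j - b j = -(t3 * (D j - A j)) - t4 * (C j - B j) := by
    intro j
    have := ec j
    linear_combination this + C j * ht1 + D j * ht2
  have hdet : z1 * t4 - z2 * t3 ≠ 0 := by
    intro h0
    have h3 := hind (-t4) (-z2) z2 t4 0 0 (by
      refine nip_coord fun j => ?_
      simp only [Pi.add_apply, Pi.smul_apply, smul_eq_mul, Pi.zero_apply]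
      linear_combination t4 * e1 j + z2 * e2 j + (D j - A j) * h0)
    have h4 := hind (-t3) (-z1) z1 t3 0 0 (by
      refine nip_coord fun j => ?_
      simp only [Pi.add_apply, Pi.smul_apply, smul_eq_mul, Pi.zero_apply]
      linear_combination t3 * e1 j + z1 * e2 j - (C j - B j) * h0)
    obtain ⟨-, -, hz2, -, -, -⟩ := h3
    obtain ⟨-, -, hz1, -, -, -⟩ := h4
    have h5 := hind (-1) 0 0 1 0 0 (by
      refine nip_coord fun j => ?_
      simp only [Pi.add_apply, Pi.smul_apply, smul_eq_mul, Pi.zero_apply]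
      have := e1 j
      rw [hz1, hz2] at this
      linear_combination this)
    exact one_ne_zero h5.2.2.2.1
  obtain ⟨e, he⟩ : ∃ e : ℝ, (z1 * t4 - z2 * t3) * e = 1 := ⟨_, mul_inv_cancel₀ hdet⟩
  refine ⟨t4 * e, z2 * e, -t3 * e, -z1 * e, nip_coord fun j => ?_, nip_coord fun j => ?_⟩
  · simp only [Pi.add_apply, Pi.sub_apply, Pi.smul_apply, smul_eq_mul]
    rw [e1 j, e2 j]
    linear_combination (-(D j - A j)) * he
  · simp only [Pi.add_apply, Pi.sub_apply, Pi.smul_apply, smul_eq_mul]
    rw [e1 j, e2 j]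
    linear_combination (-(C j - B j)) * he

private lemma nip_perm1 {a b B c d C : V} (h : Dep6 a b B c d C) : Dep6 B a b c d C := by
  obtain ⟨x, y, z, s, t, r, hne, h0⟩ := h
  refine ⟨z, x, y, s, t, r, by tauto, ?_⟩
  rw [← h0]
  abel

private lemma nip_perm2 {c d D a b A : V} (h : Dep6 c d D a b A) : Dep6 A a b c d D := by
  obtain ⟨x, y, z, s, t, r, hne, h0⟩ := h
  refine ⟨r, s, t, x, y, z, by tauto, ?_⟩
  rw [← h0]
  abel

theorem pair_span {M : ℕ} {u w : ℕ → V} {η ζ : V →ₗ[ℝ] ℝ} (hB : Blk M u w η ζ) (i k : ℕ)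
    (hi : 1 ≤ i) (hik : i + 2 ≤ k) (hk : k + 1 ≤ M) :
    ∃ x1 x2 y1 y2 : ℝ,
      w (k + 1) - w i = x1 • (u (k + 1) - u i) + x2 • (u k - u (i + 1)) ∧
      w k - w (i + 1) = y1 • (u (k + 1) - u i) + y2 • (u k - u (i + 1)) := by
  have r1 := nip_perm1 (hB.a i k (Or.inl hik) (by omega) hk)
  have r2 := nip_perm2 (hB.a k i (Or.inr hik) hk (by omega))
  have r3 := hB.b i k hi (Or.inl hik) (by omega) hk
  have r4 := hB.b k i (by omega) (Or.inr hik) hk (by omega)
  have i1 : I5 (u i) (u (i + 1)) (u k) (u (k + 1)) (w k) :=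
    hB.ind.get (false, i) (false, i + 1) (false, k) (false, k + 1) (true, k)
      (by simp; omega) (by simp; omega) (by simp; omega) (by simp; omega) (by simp; omega)
      (by simp; omega)
  have i2 : I5 (u i) (u (i + 1)) (u k) (u (k + 1)) (w (k + 1)) :=
    hB.ind.get (false, i) (false, i + 1) (false, k) (false, k + 1) (true, k + 1)
      (by simp; omega) (by simp; omega) (by simp; omega) (by simp; omega) (by simp; omega)
      (by simp; omega)
  have i3 : I5 (w i) (w (i + 1)) (w k) (w (k + 1)) (u (k + 1)) :=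
    hB.ind.get (true, i) (true, i + 1) (true, k) (true, k + 1) (false, k + 1)
      (by simp; omega) (by simp; omega) (by simp; omega) (by simp; omega) (by simp; omega)
      (by simp; omega)
  have i4 : I5 (w k) (w (k + 1)) (w i) (w (i + 1)) (u (i + 1)) :=
    hB.ind.get (true, k) (true, k + 1) (true, i) (true, i + 1) (false, i + 1)
      (by simp; omega) (by simp; omega) (by simp; omega) (by simp; omega) (by simp; omega)
      (by simp; omega)
  have ηu : ∀ j, j ≤ M → η (u j) = 0 := hB.ηu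
  have ηw : ∀ j, j ≤ M → η (w j) = 1 := hB.ηw
  have ζu : ∀ j, j ≤ M → ζ (u j) = 1 := hB.ζu
  have ζw : ∀ j, j ≤ M → ζ (w j) = 0 := hB.ζw
  obtain ⟨x1, x2, x3, x4, x5, e1⟩ := r1.solve i1
  obtain ⟨y1, y2, y3, y4, y5, e2⟩ := r2.solve i2
  obtain ⟨z1, z2, z3, z4, z5, e3⟩ := r3.solve i3
  obtain ⟨t1, t2, t3, t4, t5, e4⟩ := r4.solve i4
  have hx5 : x5 = 1 := by
    have h := congrArg η e1
    simp only [map_add, map_smul, smul_eq_mul] at h
    rw [ηu i (by omega), ηu (i + 1) (by omega), ηu k (by omega), ηu (k + 1) hk,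
      ηw k (by omega), ηw (i + 1) (by omega)] at h
    linarith
  have hy5 : y5 = 1 := by
    have h := congrArg η e2
    simp only [map_add, map_smul, smul_eq_mul] at h
    rw [ηu i (by omega), ηu (i + 1) (by omega), ηu k (by omega), ηu (k + 1) hk,
      ηw (k + 1) hk, ηw i (by omega)] at h
    linarith
  have hz5 : z5 = 1 := by
    have h := congrArg ζ e3
    simp only [map_add, map_smul, smul_eq_mul] at h
    rw [ζu i (by omega), ζw i (by omega), ζw (i + 1) (by omega), ζw k (by omega), ζw (k + 1) hk,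
      ζu (k + 1) hk] at h
    linarith
  have ht5 : t5 = 1 := by
    have h := congrArg ζ e4
    simp only [map_add, map_smul, smul_eq_mul] at h
    rw [ζu k (by omega), ζw k (by omega), ζw (k + 1) hk, ζw i (by omega), ζw (i + 1) (by omega),
      ζu (i + 1) (by omega)] at h
    linarith
  subst hx5 hy5 hz5 ht5
  obtain ⟨h, h1, h2, h3, h4, h5, h6, -, h8⟩ := hB.fa i k hik hk
  have hind : I6 (u i) (u (i + 1)) (u k) (u (k + 1)) (w k) (w (k + 1)) :=
    I6_of_functional i1 h h1 h2 h4 h5 h6 (h8 (k + 1) hk (by omega) (by omega))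
  exact nip_core hind e1 e2 e3 e4

end NI
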