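import Mathlib
import Pool.Agent.NI.Defs
import Pool.Agent.NI.Basic
import Pool.Agent.NI.Pair

/-!
# Constant recurrences in a good block
-/

open Set Matrix

namespace NI

open MPd0c340

/-- five consecutive vectors of the first sequence are independent -/
private lemma ind_u {M : ℕ} {u w : ℕ → V} {η ζ : V →ₗ[ℝ] ℝ} (hB : Blk M u w η ζ) (j : ℕ)
    (hj : j + 4 ≤ M) : I5 (u j) (u (j + 1)) (u (j + 2)) (u (j + 3)) (u (j + 4)) :=
  hB.ind.get (false, j) (false, j + 1) (false, j + 2) (false, j + 3) (false, j + 4)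
    (by simp) (by show j ≤ M; omega) (by show j + 1 ≤ M; omega) (by show j + 2 ≤ M; omega)
    (by show j + 3 ≤ M; omega) (by show j + 4 ≤ M; omega)

private lemma three {M : ℕ} {u w : ℕ → V} {η ζ : V →ₗ[ℝ] ℝ} (hB : Blk M u w η ζ) (i l : ℕ)
    (hi : 1 ≤ i) (hil : i + 3 ≤ l) (hl : l + 2 ≤ M) :
    ∃ P Q : ℝ, u (l + 2) - u i = P • (u (l + 1) - u (i + 1)) + Q • (u l - u (i + 2)) := by
  obtain ⟨-, -, y1, y2, -, h1⟩ := pair_span hB i (l + 1) hi (by omega) (by omega)
  obtain ⟨x1, x2, -, -, h2, -⟩ := pair_span hB (i + 1) l (by omega) (by omega) (by omega)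
  have hy : y1 ≠ 0 := by
    rintro rfl
    have hI := hB.ind.get (true, l + 1) (true, i + 1) (false, l + 1) (false, i + 1) (false, i)
      (by simp; omega) (by show l + 1 ≤ M; omega) (by show i + 1 ≤ M; omega)
      (by show l + 1 ≤ M; omega) (by show i + 1 ≤ M; omega) (by show i ≤ M; omega)
    have := hI 1 (-1) (-y2) y2 0 (by
      simp only [pt_false, pt_true]
      linear_combination (norm := module) h1)
    exact one_ne_zero this.1
  refine ⟨y1⁻¹ * (x1 - y2), y1⁻¹ * x2, ?_⟩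
  have h3 : y1 • (u (l + 2) - u i) = (x1 - y2) • (u (l + 1) - u (i + 1)) + x2 • (u l - u (i + 2)) := by
    linear_combination (norm := module) h2 - h1
  calc u (l + 2) - u i = y1⁻¹ • (y1 • (u (l + 2) - u i)) := by
        rw [smul_smul, inv_mul_cancel₀ hy, one_smul]
    _ = _ := by rw [h3]; module

/-- NI-R -/
theorem recurrences {M : ℕ} {u w : ℕ → V} {η ζ : V →ₗ[ℝ] ℝ} (hB : Blk M u w η ζ) (hM : 12 ≤ M) :
    ∃ A B F G : ℝ,
      (∀ j, 1 ≤ j → j + 5 ≤ M →
        u (j + 5) = u j + A • (u (j + 3) - u (j + 2)) + B • (u (j + 4) - u (j + 1))) ∧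
      (∀ j, 1 ≤ j → j + 3 ≤ M →
        w (j + 2) - w (j + 1) = F • (u (j + 2) - u (j + 1)) + G • (u (j + 3) - u j)) ∧
      w 2 - w 1 = F • (u 2 - u 1) + G • (u 3 - (u 5 - A • (u 3 - u 2) - B • (u 4 - u 1))) := by
  -- step 1
  have s1 : ∀ j, 1 ≤ j → j + 5 ≤ M → ∃ A B : ℝ,
      u (j + 5) = u j + A • (u (j + 3) - u (j + 2)) + B • (u (j + 4) - u (j + 1)) := by
    intro j hj hjM
    obtain ⟨P, Q, h⟩ := three hB j (j + 3) hj le_rfl (by omega)
    refine ⟨Q, P, ?_⟩
    have h' : u (j + 5) - u j = P • (u (j + 4) - u (j + 1)) + Q • (u (j + 3) - u (j + 2)) := h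
    linear_combination (norm := module) h'
  -- step 2: constancy
  have s2 : ∀ j, 1 ≤ j → j + 6 ≤ M → ∀ A B A' B' : ℝ,
      u (j + 5) = u j + A • (u (j + 3) - u (j + 2)) + B • (u (j + 4) - u (j + 1)) →
      u (j + 6) = u (j + 1) + A' • (u (j + 4) - u (j + 3)) + B' • (u (j + 5) - u (j + 2)) →
      A' = A ∧ B' = B := by
    intro j hj hjM A B A' B' h1 h2
    obtain ⟨P, Q, h⟩ := three hB j (j + 4) hj (by omega) (by omega)
    have h' : u (j + 6) - u j = P • (u (j + 5) - u (j + 1)) + Q • (u (j + 4) - u (j + 2)) := h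
    have hI := ind_u hB (j + 1) (by omega)
    have hI' : I5 (u (j + 1)) (u (j + 2)) (u (j + 3)) (u (j + 4)) (u (j + 5)) := hI
    obtain ⟨c1, c2, c3, c4, c5⟩ := hI' (1 - B + P) (-A - B' + Q) (A - A') (A' + B - Q) (B' - 1 - P) (by
      linear_combination (norm := module) h' - h2 - h1)
    constructor <;> linarith
  obtain ⟨A, B, hAB1⟩ := s1 1 le_rfl (by omega)
  have hAB : ∀ j, 1 ≤ j → j + 5 ≤ M →
      u (j + 5) = u j + A • (u (j + 3) - u (j + 2)) + B • (u (j + 4) - u (j + 1)) := by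
    intro j hj
    induction j, hj using Nat.le_induction with
    | base => intro _; exact hAB1
    | succ j hj ih =>
      intro hjM
      have h1 := ih (by omega)
      obtain ⟨A', B', h2⟩ := s1 (j + 1) (by omega) (by omega)
      have h2' : u (j + 6) = u (j + 1) + A' • (u (j + 4) - u (j + 3)) + B' • (u (j + 5) - u (j + 2)) := h2
      obtain ⟨e1, e2⟩ := s2 j hj (by omega) A B A' B' h1 h2'
      subst e1 e2
      exact h2
  -- step 3
  have s3 : ∀ j, 1 ≤ j → j + 3 ≤ M → ∃ F G : ℝ,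
      w (j + 2) - w (j + 1) = F • (u (j + 2) - u (j + 1)) + G • (u (j + 3) - u j) := by
    intro j hj hjM
    obtain ⟨-, -, y1, y2, -, h⟩ := pair_span hB j (j + 2) hj le_rfl (by omega)
    refine ⟨y2, y1, ?_⟩
    have h' : w (j + 2) - w (j + 1) = y1 • (u (j + 3) - u j) + y2 • (u (j + 2) - u (j + 1)) := h
    linear_combination (norm := module) h'
  have s4 : ∀ j, 1 ≤ j → j + 4 ≤ M → ∀ F G F' G' : ℝ,
      w (j + 2) - w (j + 1) = F • (u (j + 2) - u (j + 1)) + G • (u (j + 3) - u j) →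
      w (j + 3) - w (j + 2) = F' • (u (j + 3) - u (j + 2)) + G' • (u (j + 4) - u (j + 1)) →
      F' = F ∧ G' = G := by
    intro j hj hjM F G F' G' h1 h2
    obtain ⟨-, -, P, Q, -, h⟩ := pair_span hB j (j + 3) hj (by omega) (by omega)
    have h' : w (j + 3) - w (j + 1) = P • (u (j + 4) - u j) + Q • (u (j + 3) - u (j + 1)) := h
    have hI := ind_u hB j (by omega)
    obtain ⟨c1, c2, c3, c4, c5⟩ := hI (G - P) (F + G' - Q) (F' - F) (Q - F' - G) (P - G') (by
      linear_combination (norm := module) h1 + h2 - h')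
    constructor <;> linarith
  obtain ⟨F, G, hFG1⟩ := s3 1 le_rfl (by omega)
  have hFG : ∀ j, 1 ≤ j → j + 3 ≤ M →
      w (j + 2) - w (j + 1) = F • (u (j + 2) - u (j + 1)) + G • (u (j + 3) - u j) := by
    intro j hj
    induction j, hj using Nat.le_induction with
    | base => intro _; exact hFG1
    | succ j hj ih =>
      intro hjM
      have h1 := ih (by omega)
      obtain ⟨F', G', h2⟩ := s3 (j + 1) (by omega) (by omega)
      have h2' : w (j + 3) - w (j + 2) = F' • (u (j + 3) - u (j + 2)) + G' • (u (j + 4) - u (j + 1)) := h2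
      obtain ⟨e1, e2⟩ := s4 j hj (by omega) F G F' G' h1 h2'
      subst e1 e2
      exact h2
  refine ⟨A, B, F, G, hAB, hFG, ?_⟩
  -- step 5
  obtain ⟨C, D, -, -, h14, -⟩ := pair_span hB 1 4 le_rfl (by omega) (by omega)
  obtain ⟨C', D', -, -, h13, -⟩ := pair_span hB 1 3 le_rfl (by omega) (by omega)
  have e14 : w 5 - w 1 = C • (u 5 - u 1) + D • (u 4 - u 2) := h14
  have e13 : w 4 - w 1 = C' • (u 4 - u 1) + D' • (u 3 - u 2) := h13
  have f1 : w 3 - w 2 = F • (u 3 - u 2) + G • (u 4 - u 1) := hFG 1 le_rfl (by omega)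
  have f2 : w 4 - w 3 = F • (u 4 - u 3) + G • (u 5 - u 2) := hFG 2 (by omega) (by omega)
  have f3 : w 5 - w 4 = F • (u 5 - u 4) + G • (u 6 - u 3) := hFG 3 (by omega) (by omega)
  have g1 : u 6 = u 1 + A • (u 4 - u 3) + B • (u 5 - u 2) := hAB 1 le_rfl (by omega)
  have hI := ind_u hB 1 (by omega)
  have hI' : I5 (u 1) (u 2) (u 3) (u 4) (u 5) := hI
  -- w5 - w1 = (w4 - w1) + (w5 - w4)
  obtain ⟨c1, c2, c3, c4, c5⟩ := hI' (C' - C - G) (D' + G * B - D) (G + G * A - D') (F + D - C' - G * A)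
    (C - F - G * B) (by
      rw [g1] at f3
      linear_combination (norm := module) e13 + f3 - e14)
  have hC : C' = F + G * B + G := by linarith
  have hD : D' = G + G * A := by linarith
  subst hC hD
  linear_combination (norm := module) e13 - f1 - f2

end NI
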