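import Mathlib
import Pool.Agent.NI.Defs
import Pool.Agent.NI.Basic

/-!
# NI-T: the shift is linear

PROOF. b := (u 1, ..., u 5, w 1) is a basis of V (I6_of_functional: u 1..u 5 are independent by hB.ind, killed by η, and
η (w 1) = 1 ≠ 0); so is b' := (u 2, ..., u 6, w 2). T := the linear equivalence with T (b i) = b' i (e.g. `Basis.equiv`,
bases from `basisOfLinearIndependentOfCardEqFinrank`).
* T (u j) = u (j+1) for j = 1..5 by definition; for j = n + 5, n ≥ 1, by strong induction from h1 n and h1 (n+1)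
  (n + 6 ≤ M): T (u (n+5)) = T (u n) + A (T (u (n+3)) - T (u (n+2))) + B (...) = u (n+6).
* T (w 1) = w 2. T (w 2): w 2 = w 1 + (right side of h3), T of the right side of h3 is
  F (u 3 - u 2) + G (u 4 - (u 6 - A (u 4 - u 3) - B (u 5 - u 2))) = F (u 3 - u 2) + G (u 4 - u 1) by h1 1, and
  h2 1 : w 3 - w 2 = F (u 3 - u 2) + G (u 4 - u 1). So T (w 2) = w 3.
* induction: T (w (j+2)) = T (w (j+1)) + F (..) + G (..) = w (j+3) by h2 j and h2 (j+1) (needs j + 4 ≤ M, i.e.
  (j+2) + 2 ≤ M).
* η ∘ T = η and ζ ∘ T = ζ: equality of linear maps checked on the basis b (hB.ηu, ηw, ζu, ζw).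
-/

open Set Matrix

namespace NI

open MPd0c340

/-- basis from six independent vectors -/
lemma nit_basis {a b c d e f : V} (h : I6 a b c d e f) :
    ∃ B : Module.Basis (Fin 6) ℝ V, B 0 = a ∧ B 1 = b ∧ B 2 = c ∧ B 3 = d ∧ B 4 = e ∧ B 5 = f := by
  have hli := h.linearIndependent
  have hcard : Fintype.card (Fin 6) = Module.finrank ℝ V := by simp
  refine ⟨basisOfLinearIndependentOfCardEqFinrank hli hcard, ?_, ?_, ?_, ?_, ?_, ?_⟩ <;>
    rw [coe_basisOfLinearIndependentOfCardEqFinrank] <;> rfl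

theorem exists_shift {M : ℕ} {u w : ℕ → V} {η ζ : V →ₗ[ℝ] ℝ} (hB : Blk M u w η ζ) (hM : 12 ≤ M)
    {A B F G : ℝ}
    (h1 : ∀ j, 1 ≤ j → j + 5 ≤ M →
        u (j + 5) = u j + A • (u (j + 3) - u (j + 2)) + B • (u (j + 4) - u (j + 1)))
    (h2 : ∀ j, 1 ≤ j → j + 3 ≤ M →
        w (j + 2) - w (j + 1) = F • (u (j + 2) - u (j + 1)) + G • (u (j + 3) - u j))
    (h3 : w 2 - w 1 = F • (u 2 - u 1) + G • (u 3 - (u 5 - A • (u 3 - u 2) - B • (u 4 - u 1)))) :
    ∃ T : V ≃ₗ[ℝ] V, (∀ j, 1 ≤ j → j + 1 ≤ M → T (u j) = u (j + 1)) ∧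
      (∀ j, 1 ≤ j → j + 2 ≤ M → T (w j) = w (j + 1)) ∧
      (∀ v, η (T v) = η v) ∧ (∀ v, ζ (T v) = ζ v) := by
  have hI1 : I6 (u 1) (u 2) (u 3) (u 4) (u 5) (w 1) := by
    have h := Ind5.get hB.ind (false, 1) (false, 2) (false, 3) (false, 4) (false, 5) (by decide)
      (by simp only; omega) (by simp only; omega) (by simp only; omega) (by simp only; omega)
      (by simp only; omega)
    refine I6_of_functional h η (hB.ηu 1 (by omega)) (hB.ηu 2 (by omega)) (hB.ηu 3 (by omega))
      (hB.ηu 4 (by omega)) (hB.ηu 5 (by omega)) ?_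
    rw [hB.ηw 1 (by omega)]
    exact one_ne_zero
  have hI2 : I6 (u 2) (u 3) (u 4) (u 5) (u 6) (w 2) := by
    have h := Ind5.get hB.ind (false, 2) (false, 3) (false, 4) (false, 5) (false, 6) (by decide)
      (by simp only; omega) (by simp only; omega) (by simp only; omega) (by simp only; omega)
      (by simp only; omega)
    refine I6_of_functional h η (hB.ηu 2 (by omega)) (hB.ηu 3 (by omega)) (hB.ηu 4 (by omega))
      (hB.ηu 5 (by omega)) (hB.ηu 6 (by omega)) ?_
    rw [hB.ηw 2 (by omega)]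
    exact one_ne_zero
  obtain ⟨b, b0, b1, b2, b3, b4, b5⟩ := nit_basis hI1
  obtain ⟨b', c0, c1, c2, c3, c4, c5⟩ := nit_basis hI2
  set T : V ≃ₗ[ℝ] V := b.equiv b' (Equiv.refl (Fin 6)) with hT
  have hTb : ∀ i, T (b i) = b' i := fun i => by
    rw [hT, Module.Basis.equiv_apply]
    rfl
  have t1 : T (u 1) = u 2 := by rw [← b0, hTb, c0]
  have t2 : T (u 2) = u 3 := by rw [← b1, hTb, c1]
  have t3 : T (u 3) = u 4 := by rw [← b2, hTb, c2]
  have t4 : T (u 4) = u 5 := by rw [← b3, hTb, c3]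
  have t5 : T (u 5) = u 6 := by rw [← b4, hTb, c4]
  have s1 : T (w 1) = w 2 := by rw [← b5, hTb, c5]
  have hu : ∀ j, 1 ≤ j → j + 1 ≤ M → T (u j) = u (j + 1) := by
    intro j
    induction j using Nat.strong_induction_on with
    | _ j ih =>
      intro hj1 hj2
      by_cases hj : j ≤ 5
      · interval_cases j
        · exact t1
        · exact t2
        · exact t3
        · exact t4
        · exact t5
      · obtain ⟨n, rfl⟩ : ∃ n, j = n + 5 := ⟨j - 5, by omega⟩
        have e1 := h1 n (by omega) (by omega)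
        have e2 := h1 (n + 1) (by omega) (by omega)
        rw [e1]
        simp only [map_add, map_sub, map_smul]
        rw [ih n (by omega) (by omega) (by omega), ih (n + 3) (by omega) (by omega) (by omega),
          ih (n + 2) (by omega) (by omega) (by omega), ih (n + 4) (by omega) (by omega) (by omega),
          ih (n + 1) (by omega) (by omega) (by omega)]
        rw [show n + 5 + 1 = n + 1 + 5 by ring, e2]
  have s2 : T (w 2) = w 3 := by
    have e0 : w 2 = w 1 + (F • (u 2 - u 1) + G • (u 3 - (u 5 - A • (u 3 - u 2) - B • (u 4 - u 1)))) := by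
      rw [← h3]
      abel
    have e1 := h1 1 (by omega) (by omega)
    have e2 := h2 1 (by omega) (by omega)
    norm_num only at e1 e2
    have e3 : w 3 = w 2 + (F • (u 3 - u 2) + G • (u 4 - u 1)) := by
      rw [← e2]
      abel
    have e4 : u 6 - A • (u 4 - u 3) - B • (u 5 - u 2) = u 1 := by
      rw [e1]
      abel
    calc T (w 2) = T (w 1 + (F • (u 2 - u 1) +
          G • (u 3 - (u 5 - A • (u 3 - u 2) - B • (u 4 - u 1))))) := by rw [← e0]
      _ = w 2 + (F • (u 3 - u 2) + G • (u 4 - (u 6 - A • (u 4 - u 3) - B • (u 5 - u 2)))) := by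
          simp only [map_add, map_sub, map_smul, t1, t2, t3, t4, t5, s1]
      _ = w 3 := by rw [e4, e3]
  have hw : ∀ j, 1 ≤ j → j + 2 ≤ M → T (w j) = w (j + 1) := by
    intro j
    induction j with
    | zero => intro h; omega
    | succ m ih =>
      intro _ hj2
      by_cases hm : m < 2
      · interval_cases m
        · exact s1
        · exact s2
      · obtain ⟨n, rfl⟩ : ∃ n, m = n + 1 := ⟨m - 1, by omega⟩
        have e1 := h2 n (by omega) (by omega)
        have e2 := h2 (n + 1) (by omega) (by omega)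
        have e3 : w (n + 2) = w (n + 1) + (F • (u (n + 2) - u (n + 1)) + G • (u (n + 3) - u n)) := by
          rw [← e1]
          abel
        have e4 : w (n + 3) = w (n + 2) + (F • (u (n + 3) - u (n + 2)) +
            G • (u (n + 4) - u (n + 1))) := by
          have e5 : w (n + 1 + 2) - w (n + 1 + 1) = w (n + 3) - w (n + 2) := rfl
          have e6 : F • (u (n + 1 + 2) - u (n + 1 + 1)) + G • (u (n + 1 + 3) - u (n + 1)) =
            F • (u (n + 3) - u (n + 2)) + G • (u (n + 4) - u (n + 1)) := rfl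
          rw [← e6, ← e2, e5]
          abel
        have e7 := ih (by omega) (by omega)
        have e7' : T (w (n + 1)) = w (n + 2) := e7
        have f1 : T (u (n + 2)) = u (n + 3) := hu (n + 2) (by omega) (by omega)
        have f2 : T (u (n + 1)) = u (n + 2) := hu (n + 1) (by omega) (by omega)
        have f3 : T (u (n + 3)) = u (n + 4) := hu (n + 3) (by omega) (by omega)
        have f4 : T (u n) = u (n + 1) := hu n (by omega) (by omega)
        show T (w (n + 2)) = w (n + 3)
        rw [e3]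
        simp only [map_add, map_sub, map_smul, e7', f1, f2, f3, f4]
        rw [e4]
  have hη : η ∘ₗ T.toLinearMap = η := by
    apply b.ext
    intro i
    rw [LinearMap.comp_apply, LinearEquiv.coe_coe, hTb]
    fin_cases i
    · change η (b' 0) = η (b 0)
      rw [c0, b0, hB.ηu 2 (by omega), hB.ηu 1 (by omega)]
    · change η (b' 1) = η (b 1)
      rw [c1, b1, hB.ηu 3 (by omega), hB.ηu 2 (by omega)]
    · change η (b' 2) = η (b 2)
      rw [c2, b2, hB.ηu 4 (by omega), hB.ηu 3 (by omega)]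
    · change η (b' 3) = η (b 3)
      rw [c3, b3, hB.ηu 5 (by omega), hB.ηu 4 (by omega)]
    · change η (b' 4) = η (b 4)
      rw [c4, b4, hB.ηu 6 (by omega), hB.ηu 5 (by omega)]
    · change η (b' 5) = η (b 5)
      rw [c5, b5, hB.ηw 2 (by omega), hB.ηw 1 (by omega)]
  have hζ : ζ ∘ₗ T.toLinearMap = ζ := by
    apply b.ext
    intro i
    rw [LinearMap.comp_apply, LinearEquiv.coe_coe, hTb]
    fin_cases i
    · change ζ (b' 0) = ζ (b 0)
      rw [c0, b0, hB.ζu 2 (by omega), hB.ζu 1 (by omega)]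
    · change ζ (b' 1) = ζ (b 1)
      rw [c1, b1, hB.ζu 3 (by omega), hB.ζu 2 (by omega)]
    · change ζ (b' 2) = ζ (b 2)
      rw [c2, b2, hB.ζu 4 (by omega), hB.ζu 3 (by omega)]
    · change ζ (b' 3) = ζ (b 3)
      rw [c3, b3, hB.ζu 5 (by omega), hB.ζu 4 (by omega)]
    · change ζ (b' 4) = ζ (b 4)
      rw [c4, b4, hB.ζu 6 (by omega), hB.ζu 5 (by omega)]
    · change ζ (b' 5) = ζ (b 5)
      rw [c5, b5, hB.ζw 2 (by omega), hB.ζw 1 (by omega)]
  exact ⟨T, hu, hw, fun v => LinearMap.congr_fun hη v, fun v => LinearMap.congr_fun hζ v⟩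

end NI
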