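import Mathlib
import Pool.Agent.NI.Defs
import Pool.Agent.NI.Basic

/-!
# NI-V (and NI-M): the virtual continuation to the index 0

`Blk.mono`: every field only mentions indices ≤ M: restrict (in fa, fb the clauses `∀ j ≤ K` follow from `∀ j ≤ M`).

`full_virtual`: put u' 0 = T⁻¹ (u 1), u' j = u j (j ≥ 1), w' likewise. Then T (u' j) = u (j+1) and T (w' j) = w (j+1)
for ALL j ≤ M - 2 (j = 0: T (T⁻¹ x) = x; j ≥ 1: hu, hw). Every field of `Full` for u', w' at (i, k) is the pull back by T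
of the corresponding field of hB at (i+1, k+1) [indices ≤ M - 2 become ≤ M - 1 ≤ M]:
* ηu etc.: η (u' j) = η (T (u' j)) = η (u (j+1)) = 0, ...
* ind: a relation x•p' a + ... = 0; apply T: relation between the labelled vectors with labels (a.1, a.2 + 1), which are
  distinct; hB.ind gives all coefficients 0.
* a, b: Dep6 of the images under T (injective) gives Dep6 of the vectors: the same coefficients, T (Σ) = 0 → Σ = 0.
  For b the hypothesis `1 ≤ i + 1` is automatic. That is the gain.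
* fa, fb: h := h_{i+1,k+1} ∘ T.
SUGGESTION: first prove the general lemma for functions U W with T (U j) = u (j+1), T (W j) = w (j+1) for all j ≤ M - 2.
-/

open Set Matrix

namespace NI

open MPd0c340

theorem Blk.mono {M K : ℕ} {u w : ℕ → V} {η ζ : V →ₗ[ℝ] ℝ} (hB : Blk M u w η ζ) (h : K ≤ M) :
    Blk K u w η ζ where
  ηu j hj := hB.ηu j (hj.trans h)
  ηw j hj := hB.ηw j (hj.trans h)
  ζu j hj := hB.ζu j (hj.trans h)
  ζw j hj := hB.ζw j (hj.trans h)
  ind a b c d e hn ha hb hc hd he := hB.ind a b c d e hn (ha.trans h) (hb.trans h) (hc.trans h)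
    (hd.trans h) (he.trans h)
  a i k h1 h2 h3 := hB.a i k h1 (h2.trans h) (h3.trans h)
  b i k h0 h1 h2 h3 := hB.b i k h0 h1 (h2.trans h) (h3.trans h)
  fa i k h1 h2 := by
    obtain ⟨g, g1, g2, g3, g4, g5, g6, g7, g8⟩ := hB.fa i k h1 (h2.trans h)
    exact ⟨g, g1, g2, g3, g4, g5, g6, fun j hj => g7 j (hj.trans h), fun j hj => g8 j (hj.trans h)⟩
  fb i k h0 h1 h2 := by
    obtain ⟨g, g1, g2, g3, g4, g5, g6, g7, g8⟩ := hB.fb i k h0 h1 (h2.trans h)
    exact ⟨g, g1, g2, g3, g4, g5, g6, fun j hj => g7 j (hj.trans h), fun j hj => g8 j (hj.trans h)⟩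
  f0 k h1 h2 := hB.f0 k h1 (h2.trans h)

lemma niv_dep (T : V ≃ₗ[ℝ] V) {a b c d e f : V} (h : Dep6 (T a) (T b) (T c) (T d) (T e) (T f)) :
    Dep6 a b c d e f := by
  obtain ⟨x, y, z, s, t, r, hne, h0⟩ := h
  refine ⟨x, y, z, s, t, r, hne, T.injective ?_⟩
  rw [map_zero, ← h0]
  simp only [map_add, map_smul]

lemma niv_pt {u w U W : ℕ → V} (T : V ≃ₗ[ℝ] V) {K : ℕ} (hU : ∀ j, j ≤ K → T (U j) = u (j + 1))
    (hW : ∀ j, j ≤ K → T (W j) = w (j + 1)) (a : Lab) (ha : a.2 ≤ K) :
    T (pt U W a) = pt u w (a.1, a.2 + 1) := by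
  obtain ⟨b, j⟩ := a
  cases b
  · exact hU j ha
  · exact hW j ha

theorem niv_full {M K : ℕ} {u w U W : ℕ → V} {η ζ : V →ₗ[ℝ] ℝ} (hB : Blk M u w η ζ)
    (hK : K + 1 ≤ M) (T : V ≃ₗ[ℝ] V) (hU : ∀ j, j ≤ K → T (U j) = u (j + 1))
    (hW : ∀ j, j ≤ K → T (W j) = w (j + 1)) (hη : ∀ v, η (T v) = η v)
    (hζ : ∀ v, ζ (T v) = ζ v) : Full K U W η ζ where
  ηu j hj := by rw [← hη, hU j hj]; exact hB.ηu _ (by omega)
  ηw j hj := by rw [← hη, hW j hj]; exact hB.ηw _ (by omega)
  ζu j hj := by rw [← hζ, hU j hj]; exact hB.ζu _ (by omega)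
  ζw j hj := by rw [← hζ, hW j hj]; exact hB.ζw _ (by omega)
  ind a b c d e hn ha hb hc hd he x y z s t h0 := by
    have h1 := congrArg T h0
    simp only [map_add, map_smul, map_zero] at h1
    rw [niv_pt T hU hW a ha, niv_pt T hU hW b hb, niv_pt T hU hW c hc, niv_pt T hU hW d hd,
      niv_pt T hU hW e he] at h1
    refine hB.ind (a.1, a.2 + 1) (b.1, b.2 + 1) (c.1, c.2 + 1) (d.1, d.2 + 1) (e.1, e.2 + 1) ?_
      (by simp only; omega) (by simp only; omega) (by simp only; omega) (by simp only; omega)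
      (by simp only; omega) x y z s t h1
    have hf : Function.Injective fun q : Lab => ((q.1, q.2 + 1) : Lab) := by
      rintro ⟨q1, q2⟩ ⟨r1, r2⟩ h
      simp only [Prod.mk.injEq, add_left_inj] at h
      exact Prod.ext h.1 h.2
    exact List.Nodup.map hf hn
  a i k h1 h2 h3 := by
    have h := hB.a (i + 1) (k + 1) (by omega) (by omega) (by omega)
    rw [← hU i (by omega), ← hU (i + 1) (by omega), ← hW (i + 1) (by omega), ← hU k (by omega),
      ← hU (k + 1) (by omega), ← hW k (by omega)] at h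
    exact niv_dep T h
  b i k h1 h2 h3 := by
    have h := hB.b (i + 1) (k + 1) (by omega) (by omega) (by omega) (by omega)
    rw [← hU i (by omega), ← hW i (by omega), ← hW (i + 1) (by omega), ← hW k (by omega),
      ← hW (k + 1) (by omega), ← hU (k + 1) (by omega)] at h
    exact niv_dep T h
  fa i k h1 h2 := by
    obtain ⟨g, g1, g2, g3, g4, g5, g6, g7, g8⟩ := hB.fa (i + 1) (k + 1) (by omega) (by omega)
    refine ⟨g ∘ₗ T.toLinearMap, ?_, ?_, ?_, ?_, ?_, ?_, fun j hj j1 j2 j3 j4 => ?_,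
      fun j hj j1 j2 => ?_⟩
    · simp only [LinearMap.comp_apply, LinearEquiv.coe_coe]
      rw [hU _ (by omega)]; exact g1
    · simp only [LinearMap.comp_apply, LinearEquiv.coe_coe]
      rw [hU _ (by omega)]; exact g2
    · simp only [LinearMap.comp_apply, LinearEquiv.coe_coe]
      rw [hW _ (by omega)]; exact g3
    · simp only [LinearMap.comp_apply, LinearEquiv.coe_coe]
      rw [hU _ (by omega)]; exact g4
    · simp only [LinearMap.comp_apply, LinearEquiv.coe_coe]
      rw [hU _ (by omega)]; exact g5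
    · simp only [LinearMap.comp_apply, LinearEquiv.coe_coe]
      rw [hW _ (by omega)]; exact g6
    · simp only [LinearMap.comp_apply, LinearEquiv.coe_coe]
      rw [hU _ (by omega)]
      exact g7 _ (by omega) (by omega) (by omega) (by omega) (by omega)
    · simp only [LinearMap.comp_apply, LinearEquiv.coe_coe]
      rw [hW _ (by omega)]
      exact g8 _ (by omega) (by omega) (by omega)
  fb i k h1 h2 := by
    obtain ⟨g, g1, g2, g3, g4, g5, g6, g7, g8⟩ := hB.fb (i + 1) (k + 1) (by omega) (by omega)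
      (by omega)
    refine ⟨g ∘ₗ T.toLinearMap, ?_, ?_, ?_, ?_, ?_, ?_, fun j hj j1 j2 => ?_,
      fun j hj j1 j2 j3 j4 => ?_⟩
    · simp only [LinearMap.comp_apply, LinearEquiv.coe_coe]
      rw [hU _ (by omega)]; exact g1
    · simp only [LinearMap.comp_apply, LinearEquiv.coe_coe]
      rw [hW _ (by omega)]; exact g2
    · simp only [LinearMap.comp_apply, LinearEquiv.coe_coe]
      rw [hW _ (by omega)]; exact g3
    · simp only [LinearMap.comp_apply, LinearEquiv.coe_coe]
      rw [hW _ (by omega)]; exact g4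
    · simp only [LinearMap.comp_apply, LinearEquiv.coe_coe]
      rw [hW _ (by omega)]; exact g5
    · simp only [LinearMap.comp_apply, LinearEquiv.coe_coe]
      rw [hU _ (by omega)]; exact g6
    · simp only [LinearMap.comp_apply, LinearEquiv.coe_coe]
      rw [hU _ (by omega)]
      exact g7 _ (by omega) (by omega) (by omega)
    · simp only [LinearMap.comp_apply, LinearEquiv.coe_coe]
      rw [hW _ (by omega)]
      exact g8 _ (by omega) (by omega) (by omega) (by omega) (by omega)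

theorem full_virtual {M : ℕ} {u w : ℕ → V} {η ζ : V →ₗ[ℝ] ℝ} (hB : Blk M u w η ζ) (hM : 12 ≤ M)
    (T : V ≃ₗ[ℝ] V) (hu : ∀ j, 1 ≤ j → j + 1 ≤ M → T (u j) = u (j + 1))
    (hw : ∀ j, 1 ≤ j → j + 2 ≤ M → T (w j) = w (j + 1))
    (hη : ∀ v, η (T v) = η v) (hζ : ∀ v, ζ (T v) = ζ v) :
    Full (M - 2) (fun j => if j = 0 then T.symm (u 1) else u j)
      (fun j => if j = 0 then T.symm (w 1) else w j) η ζ := by
  refine niv_full hB (by omega) T ?_ ?_ hη hζ
  · intro j hj
    by_cases h0 : j = 0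
    · subst h0
      simp
    · simp only [h0, if_false]
      exact hu j (by omega) (by omega)
  · intro j hj
    by_cases h0 : j = 0
    · subst h0
      simp
    · simp only [h0, if_false]
      exact hw j (by omega) (by omega)

end NI
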