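import Mathlib
import Pool.Agent.NI.Defs
import Pool.Agent.NI.Basic
import Pool.Agent.NI.Rec
import Pool.Agent.NI.Shift
import Pool.Agent.NI.Virt
import Pool.Agent.NI.ModU
import Pool.Agent.NI.ModW
import Pool.Agent.NI.ModC
import Pool.Agent.NI.Form

/-!
# assembly of the local theorem (done)
-/

open Set Matrix

namespace NI

open MPd0c340

theorem modified_point {M : ℕ} {u w : ℕ → V} {η ζ : V →ₗ[ℝ] ℝ} (hB : Blk M u w η ζ) (hM : 12 ≤ M)
    (T : V ≃ₗ[ℝ] V) (hu : ∀ j, 1 ≤ j → j + 1 ≤ M → T (u j) = u (j + 1))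
    (hw : ∀ j, 1 ≤ j → j + 2 ≤ M → T (w j) = w (j + 1))
    (hη : ∀ v, η (T v) = η v) (hζ : ∀ v, ζ (T v) = ζ v) :
    ∃ α β : ℝ, α ≠ 0 ∧ β ≠ 0 ∧ u 0 = α • T.symm (u 1) + β • u 1 := by
  have hF := full_virtual hB hM T hu hw hη hζ
  have hB' := hB.mono (K := M - 2) (by omega)
  set u' : ℕ → V := fun j => if j = 0 then T.symm (u 1) else u j with hu'
  set w' : ℕ → V := fun j => if j = 0 then T.symm (w 1) else w j with hw'
  have e1 : ∀ j, 1 ≤ j → u' j = u j := fun j hj => by simp [hu', show j ≠ 0 by omega]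
  have e2 : ∀ j, 1 ≤ j → w' j = w j := fun j hj => by simp [hw', show j ≠ 0 by omega]
  obtain ⟨α, β, hα, -, h1⟩ := modified_u (by omega) hB' hF e1 e2
  obtain ⟨b, c, hb, hbc, h2⟩ := modified_w (by omega) hB' hF e1 e2
  have hc : c = 0 := modified_c (by omega) hB' hF e1 e2 hα h1 hb h2
  have hb1 : b = 1 := by linarith
  have h3 : w 0 = w' 0 := by rw [h2, hc, hb1]; simp
  refine ⟨α, β, hα, modified_β (by omega) hB' hF e1 e2 h1 h3, ?_⟩
  rw [h1]
  simp [hu']

theorem block_false {M : ℕ} {u w : ℕ → V} {η ζ : V →ₗ[ℝ] ℝ} (hM : 36 ≤ M) (hB : Blk M u w η ζ)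
    (B : V →ₗ[ℝ] V →ₗ[ℝ] ℝ) (hsymm : ∀ x y, B x y = B y x)
    (h0 : ∀ j, j ≤ M → B (u j) (u j) = 0) (h1 : B (u 0) (u 1) ≠ 0) : False := by
  obtain ⟨A, B', F, G, r1, r2, r3⟩ := recurrences hB (by omega)
  obtain ⟨T, hu, hw, hη, hζ⟩ := exists_shift hB (by omega) r1 r2 r3
  obtain ⟨α, β, hα, hβ, h⟩ := modified_point hB (by omega) T hu hw hη hζ
  have hx := form_shift hM T u hu B (fun j _ hj => h0 j hj)
  have hu0 := h0 0 (by omega)
  have hu1 := h0 1 (by omega)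
  have hs := hsymm (u 1) (T.symm (u 1))
  rw [h] at hu0 h1
  simp only [map_add, map_smul, LinearMap.add_apply, LinearMap.smul_apply, smul_eq_mul, hx, hu1, hs]
    at hu0 h1
  have hz : B (T.symm (u 1)) (u 1) = 0 := by
    have : 2 * α * β * B (T.symm (u 1)) (u 1) = 0 := by linarith
    rcases mul_eq_zero.1 this with h' | h'
    · rcases mul_eq_zero.1 h' with h'' | h''
      · rcases mul_eq_zero.1 h'' with h3 | h3
        · norm_num at h3
        · exact absurd h3 hα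
      · exact absurd h'' hβ
    · exact h'
  rw [hz] at h1
  simp at h1

end NI
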