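import Mathlib
import Pool.Agent.NI.Defs

/-!
# NI-D: full dimension
-/

open Set Matrix

namespace NI

open MPd0c340

private theorem finite_labs (N : ℕ) : (labs N).Finite := by
  have h : labs N = (Set.univ : Set Bool) ×ˢ (Set.Iic N) := by
    ext a
    simp [labs]
  rw [h]
  exact Set.finite_univ.prod (Set.finite_Iic N)

private theorem linear_expand (f : E 5 →ₗ[ℝ] ℝ) :
    ∃ c : Fin 5 → ℝ, ∀ v : E 5, f v = ∑ i, c i * v i := by
  refine ⟨fun i => f (EuclideanSpace.single i 1), fun v => ?_⟩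
  have hv : v = ∑ i, v i • (EuclideanSpace.single i (1 : ℝ) : E 5) := by
    ext j
    simp [Finset.sum_apply, Pi.single_apply]
  conv_lhs => rw [hv]
  rw [map_sum]
  refine Finset.sum_congr rfl fun i _ => ?_
  rw [map_smul, smul_eq_mul, mul_comm]

private theorem f_ver {f : E 5 →ₗ[ℝ] ℝ} {c : Fin 5 → ℝ} (h : ∀ v : E 5, f v = ∑ i, c i * v i)
    (X Y : ℝ) : f (ver X Y) = c 0 * X + c 1 * Y + c 2 * X ^ 2 + c 3 * (X * Y) + c 4 * Y ^ 2 := by
  rw [h]
  simp [Fin.sum_univ_succ, ver]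
  ring

theorem isPolytope_vpt (N : ℕ) (hN : 10 ≤ N) (ε : ℝ) :
    IsPolytope (hull N (vpt ε)) := by
  refine ⟨⟨vpt ε '' labs N, (finite_labs N).image _, rfl⟩, ?_⟩
  unfold hull
  rw [interior_convexHull_nonempty_iff_affineSpan_eq_top]
  have hne : (vpt ε '' labs N).Nonempty := ⟨_, (true, 0), by simp [labs], rfl⟩
  rw [AffineSubspace.affineSpan_eq_top_iff_vectorSpan_eq_top_of_nonempty ℝ (E 5) (E 5) hne]
  by_contra hcon
  obtain ⟨f, hf, hf2⟩ := Submodule.exists_le_ker_of_lt_top _ (lt_top_iff_ne_top.2 hcon)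
  obtain ⟨c, hc⟩ := linear_expand f
  have key : ∀ a b : Lab, a.2 ≤ N → b.2 ≤ N → f (vpt ε a) = f (vpt ε b) := by
    intro a b ha hb
    have h1 : vpt ε a -ᵥ vpt ε b ∈ vectorSpan ℝ (vpt ε '' labs N) :=
      vsub_mem_vectorSpan ℝ ⟨a, ha, rfl⟩ ⟨b, hb, rfl⟩
    have h2 := hf2 h1
    rw [LinearMap.mem_ker, vsub_eq_sub, map_sub, sub_eq_zero] at h2
    exact h2
  have hz : ∀ j : ℕ, vpt ε (true, j) = zpt j := fun j => by simp [vpt]
  have hy : ∀ j : ℕ, ¬ 50 ∣ j → vpt ε (false, j) = ypt j := fun j hj => by simp [vpt, hj]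
  have e1 := key (false, 1) (true, 0) (by simp; omega) (by simp)
  have e2 := key (false, 2) (true, 0) (by simp; omega) (by simp)
  have e3 := key (false, 3) (true, 0) (by simp; omega) (by simp)
  have e4 := key (false, 4) (true, 0) (by simp; omega) (by simp)
  have e5 := key (false, 5) (true, 0) (by simp; omega) (by simp)
  have e6 := key (true, 1) (true, 0) (by simp; omega) (by simp)
  rw [hz, hy 1 (by norm_num)] at e1
  rw [hz, hy 2 (by norm_num)] at e2
  rw [hz, hy 3 (by norm_num)] at e3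
  rw [hz, hy 4 (by norm_num)] at e4
  rw [hz, hy 5 (by norm_num)] at e5
  rw [hz, hz] at e6
  simp only [ypt, zpt, f_ver hc] at e1 e2 e3 e4 e5 e6
  push_cast at e1 e2 e3 e4 e5 e6
  norm_num at e1 e2 e3 e4 e5 e6
  have c4 : c 4 = 0 := by linarith
  have c3 : c 3 = 0 := by linarith
  have c0 : c 0 = 0 := by linarith
  have c1 : c 1 = 0 := by linarith
  have c2 : c 2 = 0 := by linarith
  apply hf
  ext v
  rw [hc]
  simp [Fin.sum_univ_succ, c0, c1, c2, c3, c4]

end NI
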