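import Mathlib
import Pool.Agent.NI.Defs

/-!
# NI-E: a small push keeps all pairs edges

PROOF. (1) UNPERTURBED: x0 a := if a.1 then zpt a.2 else ypt a.2 (= vpt 0 a). For distinct labels a, b the two planar points
 P_a = (X_a, Y_a), P_b are distinct, and NO THREE of the planar points (t, t²), (t, t² + 1/2), t ∈ ℕ, are collinear:
 the square of the equation of the line through P_a, P_b, f0 = (A X + B Y + C)², A = Y_b - Y_a, B = X_a - X_b,
 C = -(A X_a + B Y_a), is a quadratic polynomial, i.e. of the form b ⬝ᵥ hom (ver X Y); f0 = 0 at a, b and > 0 at every other label.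
 Non-collinearity: on a line with slope: if X_a = X_b the line is vertical and contains only these two points (index = X).
 Otherwise for y-points s ≠ t: the line is Y = (s+t) X - s t, at X = r: r² - ((s+t) r - s t) = (r-s)(r-t) ∈ ℤ, so (r, r²) is on it iff
 r ∈ {s,t}; (r, r² + 1/2): (r-s)(r-t) + 1/2 ≠ 0. Similarly for two z-points. For a y-point s and a z-point t (s ≠ t):
 slope (t² + 1/2 - s²)/(t - s); a third point collinear would give, with the pairs just treated, a collinear triple with two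
 points on the same curve: any three points contain two on the same curve, so the two cases above suffice.
(2) PERTURBATION LEMMA. Let p_ε, q_ε, r_ε^j ∈ V (j in a finite set) depend continuously on ε at 0 (here: affine in ε), p_0, q_0
 linearly independent, f0 a functional with f0 p_0 = f0 q_0 = 0, f0 r_0^j > 0. Then for all small ε there is a functional f with
 f p_ε = f q_ε = 0, f r_ε^j > 0. Proof: choose functionals g, h with g p_0 = 1, g q_0 = 0, h p_0 = 0, h q_0 = 1. Δ(ε) = g p_ε h q_ε - g q_ε h p_ε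
 → 1; s = (f0 p_ε h q_ε - f0 q_ε h p_ε)/Δ, t = (g p_ε f0 q_ε - g q_ε f0 p_ε)/Δ → 0; f := f0 - s g - t h. f p_ε = f q_ε = 0 (Cramer), and
 f r_ε^j → f0 r_0^j > 0.
(3) Apply to hom (vpt ε a), for each of the finitely many pairs (a,b) and labels c ∉ {a,b} with index ≤ N (hom (x0 a), hom (x0 b) are
 independent since their 0-th coordinate is 1 and the points are distinct). `Filter.eventually_all` over finite types (e.g. index type
 Bool × Fin (N+1)), together with ∀ᶠ ε in 𝓝[>] 0, 0 < ε ∧ ε < 1; take one such ε (`Filter.Eventually.exists`, 𝓝[>] 0 is NeBot).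
-/

open Set Matrix

namespace NI

open MPd0c340

private theorem nie_cont_vpt (c : Lab) : Continuous fun ε => vpt ε c := by
  unfold vpt
  split_ifs <;> fun_prop

private theorem nie_cont (c : Lab) (b : V) : Continuous fun ε => b ⬝ᵥ hom (vpt ε c) := by
  unfold dotProduct
  apply continuous_finsetSum
  intro i _
  apply Continuous.mul continuous_const
  refine Fin.cases ?_ (fun j => ?_) i
  · exact continuous_const
  · have h := nie_cont_vpt c
    have h2 : Continuous fun ε => (vpt ε c) j := by fun_prop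
    exact h2

private theorem nie_e0 (x : E 5) : (Pi.single 0 1 : V) ⬝ᵥ hom x = 1 := by
  rw [single_dotProduct]
  simp [hom]

/-- the perturbation lemma -/
private theorem nie_pert (N : ℕ) (a b : Lab) (f0 l : V) (ha : f0 ⬝ᵥ hom (vpt 0 a) = 0)
    (hb : f0 ⬝ᵥ hom (vpt 0 b) = 0) (hl : l ⬝ᵥ hom (vpt 0 a) ≠ l ⬝ᵥ hom (vpt 0 b))
    (hpos : ∀ c : Lab, c ≠ a → c ≠ b → 0 < f0 ⬝ᵥ hom (vpt 0 c)) :
    ∀ᶠ ε in nhds (0 : ℝ), IsFace N (vpt ε) {a, b} := by
  have hfin : {c : Lab | c.2 ≤ N}.Finite := by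
    have : {c : Lab | c.2 ≤ N} ⊆ (Set.univ : Set Bool) ×ˢ (Set.Iic N) := by
      intro c hc
      exact ⟨mem_univ _, hc⟩
    exact (Set.finite_univ.prod (Set.finite_Iic N)).subset this
  set t : ℝ → ℝ := fun ε => (f0 ⬝ᵥ hom (vpt ε a) - f0 ⬝ᵥ hom (vpt ε b)) /
    (l ⬝ᵥ hom (vpt ε a) - l ⬝ᵥ hom (vpt ε b)) with ht
  set s : ℝ → ℝ := fun ε => f0 ⬝ᵥ hom (vpt ε a) - t ε * (l ⬝ᵥ hom (vpt ε a)) with hs
  have hden : l ⬝ᵥ hom (vpt 0 a) - l ⬝ᵥ hom (vpt 0 b) ≠ 0 := sub_ne_zero.2 hl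
  have htc : ContinuousAt t 0 := by
    apply ContinuousAt.div
    · exact ((nie_cont a f0).sub (nie_cont b f0)).continuousAt
    · exact ((nie_cont a l).sub (nie_cont b l)).continuousAt
    · exact hden
  have hsc : ContinuousAt s 0 := (nie_cont a f0).continuousAt.sub (htc.mul (nie_cont a l).continuousAt)
  have ht0 : t 0 = 0 := by
    simp only [ht, ha, hb, sub_self, zero_div]
  have hs0 : s 0 = 0 := by
    simp only [hs, ht0, ha, zero_mul, sub_self]
  have h1 : ∀ᶠ ε in nhds (0 : ℝ), l ⬝ᵥ hom (vpt ε a) - l ⬝ᵥ hom (vpt ε b) ≠ 0 :=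
    ((nie_cont a l).sub (nie_cont b l)).continuousAt.eventually_ne hden
  have h2 : ∀ᶠ ε in nhds (0 : ℝ), ∀ c ∈ {c : Lab | c.2 ≤ N}, c ≠ a → c ≠ b →
      0 < f0 ⬝ᵥ hom (vpt ε c) - s ε - t ε * (l ⬝ᵥ hom (vpt ε c)) := by
    rw [Filter.eventually_all_finite hfin]
    intro c _
    by_cases hca : c = a
    · exact Filter.Eventually.of_forall fun ε h => absurd hca h
    by_cases hcb : c = b
    · exact Filter.Eventually.of_forall fun ε _ h => absurd hcb h
    have hc : ContinuousAt (fun ε => f0 ⬝ᵥ hom (vpt ε c) - s ε - t ε * (l ⬝ᵥ hom (vpt ε c))) 0 :=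
      ((nie_cont c f0).continuousAt.sub hsc).sub (htc.mul (nie_cont c l).continuousAt)
    have h3 : 0 < f0 ⬝ᵥ hom (vpt 0 c) - s 0 - t 0 * (l ⬝ᵥ hom (vpt 0 c)) := by
      rw [hs0, ht0]
      simpa using hpos c hca hcb
    filter_upwards [hc.eventually (lt_mem_nhds h3)] with ε hε _ _
    exact hε
  filter_upwards [h1, h2] with ε e1 e2
  refine ⟨f0 - s ε • (Pi.single 0 1 : V) - t ε • l, ?_, ?_⟩
  · intro c _ hcm
    rw [sub_dotProduct, sub_dotProduct, smul_dotProduct, smul_dotProduct, nie_e0, smul_eq_mul, smul_eq_mul]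
    rcases hcm with rfl | hcm
    · simp only [hs]
      ring
    · rw [Set.mem_singleton_iff] at hcm
      subst hcm
      simp only [hs, ht]
      field_simp
      ring
  · intro c hc hcm
    rw [sub_dotProduct, sub_dotProduct, smul_dotProduct, smul_dotProduct, nie_e0, smul_eq_mul, smul_eq_mul]
    have h3 := e2 c hc (fun h => hcm (Or.inl h)) (fun h => hcm (Or.inr h))
    linarith

/-- the height of a label -/
private def nieδ (a : Lab) : ℤ := if a.1 then 1 else 0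

private theorem nie_vpt0 (a : Lab) : vpt 0 a = ver a.2 ((a.2 : ℝ) ^ 2 + (nieδ a : ℝ) / 2) := by
  unfold vpt nieδ
  by_cases h : a.1
  · rw [if_pos h, if_pos h, zpt]
    norm_num
  · rw [if_neg h, if_neg h]
    split_ifs
    · rw [sub_zero, one_smul, zero_smul, add_zero, ypt]
      norm_num
    · rw [ypt]
      norm_num

private theorem nie_det (s t r d1 d2 d3 : ℤ) (h1 : d1 = 0 ∨ d1 = 1) (h2 : d2 = 0 ∨ d2 = 1)
    (h3 : d3 = 0 ∨ d3 = 1) (n12 : ¬ (s = t ∧ d1 = d2)) (n13 : ¬ (s = r ∧ d1 = d3))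
    (n23 : ¬ (t = r ∧ d2 = d3)) :
    2 * ((t - s) * (r - s) * (t - r)) + (d2 - d1) * (r - s) - (d3 - d1) * (t - s) ≠ 0 := by
  intro h
  have key1 : ∀ m : ℤ, 2 * m - 1 ≠ 0 := by intro m; omega
  have key2 : ∀ m : ℤ, 2 * m + 1 ≠ 0 := by intro m; omega
  rcases h1 with rfl | rfl <;> rcases h2 with rfl | rfl <;> rcases h3 with rfl | rfl
  · have h4 : (t - s) * (r - s) * (t - r) = 0 := by linarith
    rcases mul_eq_zero.1 h4 with h4 | h4
    · rcases mul_eq_zero.1 h4 with h4 | h4 <;> omega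
    · omega
  · have h4 : (t - s) * (2 * ((r - s) * (t - r)) - 1) = 0 := by linear_combination h
    rcases mul_eq_zero.1 h4 with h4 | h4
    · omega
    · exact key1 _ h4
  · have h4 : (r - s) * (2 * ((t - s) * (t - r)) + 1) = 0 := by linear_combination h
    rcases mul_eq_zero.1 h4 with h4 | h4
    · omega
    · exact key2 _ h4
  · have h4 : (t - r) * (2 * ((t - s) * (r - s)) - 1) = 0 := by linear_combination h
    rcases mul_eq_zero.1 h4 with h4 | h4
    · omega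
    · exact key1 _ h4
  · have h4 : (t - r) * (2 * ((t - s) * (r - s)) + 1) = 0 := by linear_combination h
    rcases mul_eq_zero.1 h4 with h4 | h4
    · omega
    · exact key2 _ h4
  · have h4 : (r - s) * (2 * ((t - s) * (t - r)) - 1) = 0 := by linear_combination h
    rcases mul_eq_zero.1 h4 with h4 | h4
    · omega
    · exact key1 _ h4
  · have h4 : (t - s) * (2 * ((r - s) * (t - r)) + 1) = 0 := by linear_combination h
    rcases mul_eq_zero.1 h4 with h4 | h4
    · omega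
    · exact key2 _ h4
  · have h4 : (t - s) * (r - s) * (t - r) = 0 := by linarith
    rcases mul_eq_zero.1 h4 with h4 | h4
    · rcases mul_eq_zero.1 h4 with h4 | h4 <;> omega
    · omega

private theorem nieδ_cases (a : Lab) : nieδ a = 0 ∨ nieδ a = 1 := by
  unfold nieδ
  split_ifs
  · exact Or.inr rfl
  · exact Or.inl rfl

private theorem nie_inj {a b : Lab} (h : a ≠ b) : ¬ (((a.2 : ℤ) = b.2) ∧ nieδ a = nieδ b) := by
  rintro ⟨h1, h2⟩
  apply h
  obtain ⟨a1, a2⟩ := a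
  obtain ⟨b1, b2⟩ := b
  have h3 : a2 = b2 := by exact_mod_cast h1
  subst h3
  unfold nieδ at h2
  cases a1 <;> cases b1 <;> simp_all

private theorem nie_ver (b : V) (x y : ℝ) : b ⬝ᵥ hom (ver x y) =
    b 0 + b 1 * x + b 2 * y + b 3 * x ^ 2 + b 4 * (x * y) + b 5 * y ^ 2 := by
  unfold dotProduct hom ver
  simp only [Fin.sum_univ_succ, Fin.cons_zero, Fin.cons_succ, Fin.sum_univ_zero]
  simp
  ring_nf

private theorem nie_pair (N : ℕ) {a b : Lab} (hab : a ≠ b) :
    ∀ᶠ ε in nhds (0 : ℝ), IsFace N (vpt ε) {a, b} := by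
  set Ya : ℝ := (a.2 : ℝ) ^ 2 + (nieδ a : ℝ) / 2 with hYa
  set Yb : ℝ := (b.2 : ℝ) ^ 2 + (nieδ b : ℝ) / 2 with hYb
  set A : ℝ := Yb - Ya with hA
  set B : ℝ := (a.2 : ℝ) - (b.2 : ℝ) with hB
  set C : ℝ := -(A * (a.2 : ℝ) + B * Ya) with hC
  have hf : ∀ c : Lab, (![C ^ 2, 2 * A * C, 2 * B * C, A ^ 2, 2 * A * B, B ^ 2] : V) ⬝ᵥ hom (vpt 0 c) =
      (A * c.2 + B * ((c.2 : ℝ) ^ 2 + (nieδ c : ℝ) / 2) + C) ^ 2 := by
    intro c
    rw [nie_vpt0, nie_ver]
    simp
    ring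
  have hne : (a.2 : ℝ) ≠ (b.2 : ℝ) ∨ Ya ≠ Yb := by
    by_contra hcon
    push Not at hcon
    obtain ⟨h1, h2⟩ := hcon
    have h3 : a.2 = b.2 := by exact_mod_cast h1
    apply nie_inj hab
    refine ⟨by exact_mod_cast h1, ?_⟩
    rw [hYa, hYb, h3] at h2
    have h4 : (nieδ a : ℝ) = nieδ b := by linarith
    exact_mod_cast h4
  have hpos : ∀ c : Lab, c ≠ a → c ≠ b →
      0 < (![C ^ 2, 2 * A * C, 2 * B * C, A ^ 2, 2 * A * B, B ^ 2] : V) ⬝ᵥ hom (vpt 0 c) := by
    intro c hca hcb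
    rw [hf]
    refine sq_pos_of_ne_zero ?_
    intro h
    have h1 := nie_det a.2 b.2 c.2 (nieδ a) (nieδ b) (nieδ c) (nieδ_cases a) (nieδ_cases b) (nieδ_cases c)
      (nie_inj hab) (nie_inj (Ne.symm hca)) (nie_inj (Ne.symm hcb))
    apply h1
    have h2 : (((2 * ((((b.2 : ℤ) - a.2)) * ((c.2 : ℤ) - a.2) * ((b.2 : ℤ) - c.2)) + (nieδ b - nieδ a) * ((c.2 : ℤ) - a.2) -
      (nieδ c - nieδ a) * ((b.2 : ℤ) - a.2) : ℤ)) : ℝ) = 0 := by
      push_cast
      have h3 : 2 * (A * c.2 + B * ((c.2 : ℝ) ^ 2 + (nieδ c : ℝ) / 2) + C) = 0 := by rw [h, mul_zero]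
      rw [hC, hA, hB, hYa, hYb] at h3
      linear_combination h3
    exact_mod_cast h2
  have ha0 : (![C ^ 2, 2 * A * C, 2 * B * C, A ^ 2, 2 * A * B, B ^ 2] : V) ⬝ᵥ hom (vpt 0 a) = 0 := by
    rw [hf, hC, hYa]
    ring
  have hb0 : (![C ^ 2, 2 * A * C, 2 * B * C, A ^ 2, 2 * A * B, B ^ 2] : V) ⬝ᵥ hom (vpt 0 b) = 0 := by
    have h1 : A * b.2 + B * ((b.2 : ℝ) ^ 2 + (nieδ b : ℝ) / 2) + C = 0 := by
      rw [hC, hA, hB, hYa, hYb]
      ring
    rw [hf, h1]
    ring
  rcases hne with h | h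
  · refine nie_pert N a b _ (![0, 1, 0, 0, 0, 0] : V) ha0 hb0 ?_ hpos
    rw [nie_vpt0, nie_vpt0, nie_ver, nie_ver]
    simpa using h
  · refine nie_pert N a b _ (![0, 0, 1, 0, 0, 0] : V) ha0 hb0 ?_ hpos
    rw [nie_vpt0, nie_vpt0, nie_ver, nie_ver]
    simpa using h

theorem exists_eps (N : ℕ) : ∃ ε : ℝ, 0 < ε ∧ ε < 1 ∧
    ∀ a b : Lab, a.2 ≤ N → b.2 ≤ N → a ≠ b → IsFace N (vpt ε) {a, b} := by
  have hfin : {c : Lab | c.2 ≤ N}.Finite := by
    have : {c : Lab | c.2 ≤ N} ⊆ (Set.univ : Set Bool) ×ˢ (Set.Iic N) := by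
      intro c hc
      exact ⟨mem_univ _, hc⟩
    exact (Set.finite_univ.prod (Set.finite_Iic N)).subset this
  have h1 : ∀ᶠ ε in nhds (0 : ℝ), ∀ a ∈ {c : Lab | c.2 ≤ N}, ∀ b ∈ {c : Lab | c.2 ≤ N}, a ≠ b →
      IsFace N (vpt ε) {a, b} := by
    rw [Filter.eventually_all_finite hfin]
    intro a _
    rw [Filter.eventually_all_finite hfin]
    intro b _
    by_cases hab : a = b
    · exact Filter.Eventually.of_forall fun ε h => absurd hab h
    · filter_upwards [nie_pair N hab] with ε hε _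
      exact hε
  have h2 : ∀ᶠ ε in nhdsWithin (0 : ℝ) (Ioi 0), 0 < ε := self_mem_nhdsWithin
  have h3 : ∀ᶠ ε in nhds (0 : ℝ), ε < 1 := gt_mem_nhds one_pos
  obtain ⟨ε, ⟨e1, e2⟩, e3⟩ := (((h1.and h3).filter_mono nhdsWithin_le_nhds).and h2).exists
  exact ⟨ε, e3, e2, fun a b ha hb hab => e1 a ha b hb hab⟩

end NI
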