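import Mathlib
import Pool.Agent.NI.Defs

/-!
# NI-FA: the facets (a_ik)

Let m = k - i ≥ 2, l_i(X,Y) = Y - (2i+1) X + i(i+1) (the line through ypt i, ypt (i+1)), c = 1/2. Functional (a quadratic polynomial in X, Y)
   Φ = l_i * l_k - (1/2 + m (m-1)) * (Y - X²).
 b ⬝ᵥ hom (ver X Y) = b0 + b1 X + b2 Y + b3 X² + b4 X Y + b5 Y²: read off b (l_i l_k has Y² coefficient 1, XY: -(2i+1)-(2k+1), ...).
Values, for an integer (natural number) t:
 on ypt t: Φ = g(t) := (t-i)(t-i-1)(t-k)(t-k-1) ≥ 0, zero iff t ∈ {i, i+1, k, k+1} (product of two products of consecutive integers,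
   each ≥ 0 on integers; do it over ℤ).
 on zpt t: with M = (i+k+1)/2, X2 = (t-M)², A = ((m+1)/2)², B = ((m-1)/2)²:  Φ = (X2 - B)(X2 - A + 1), i.e. (multiply out)
   Φ = (t-i-1)(t-k) * ((t-i)(t-k-1) + 1). [check by ring: (X2 - B) = (t-i-1)(t-k), (X2 - A) = (t-i)(t-k-1)].
   zero iff t ∈ {i+1, k}; otherwise positive: if t ≤ i or t ≥ k+1: both factors > 0; if i+1 < t < k (so m ≥ 3): (t-i-1)(t-k) < 0 and
   (t-i)(t-k-1) + 1 < 0 (since t - i ≥ 2, k+1-t ≥ 2: product ≤ -4).
 Pushed points (50 ∣ t): Φ(vpt) = (1-ε) Φ(ypt t) + ε Φ(ypt (t+1)) ≥ 0, zero iff both t, t+1 ∈ {i,i+1,k,k+1}, i.e. t = i or t = k or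
   (t = i+1 and k = i+2); the last is impossible since ¬ 50 ∣ i+1. So for 50 ∣ t: zero iff t ∈ {i, k} (note t = k+1 is impossible:
   ¬ 50 ∣ k+1, and t = i + 1 too). So the zero set is exactly setA i k.
-/

open Set Matrix

namespace NI

open MPd0c340

private theorem nifa_dot (b : V) (X Y : ℝ) :
    b ⬝ᵥ hom (ver X Y) = b 0 + b 1 * X + b 2 * Y + b 3 * X ^ 2 + b 4 * (X * Y) + b 5 * Y ^ 2 := by
  unfold hom ver
  simp only [dotProduct, Fin.sum_univ_succ, Fin.sum_univ_zero, Fin.cons_zero, Fin.cons_succ]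
  simp [Matrix.cons_val_zero]
  ring_nf

private theorem nifa_combo (b : V) (s : ℝ) (p q : E 5) :
    b ⬝ᵥ hom ((1 - s) • p + s • q) = (1 - s) * (b ⬝ᵥ hom p) + s * (b ⬝ᵥ hom q) := by
  have h : hom ((1 - s) • p + s • q) = (1 - s) • hom p + s • hom q := by
    funext i
    refine Fin.cases ?_ (fun j => ?_) i
    · simp [hom]
    · simp [hom]
  rw [h, dotProduct_add, dotProduct_smul, dotProduct_smul, smul_eq_mul, smul_eq_mul]

private theorem nifa_consec (n : ℤ) : 0 ≤ n * (n - 1) ∧ (n ≠ 0 → n ≠ 1 → 0 < n * (n - 1)) := by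
  constructor
  · rcases le_or_gt n 0 with h | h
    · exact mul_nonneg_of_nonpos_of_nonpos h (by omega)
    · exact mul_nonneg h.le (by omega)
  · intro h0 h1
    rcases lt_or_gt_of_ne h0 with h | h
    · exact mul_pos_of_neg_of_neg h (by omega)
    · exact mul_pos h (by omega)

/-- the value on the first curve -/
private theorem nifa_g (i k t : ℤ) :
    0 ≤ (t - i) * (t - i - 1) * ((t - k) * (t - k - 1)) ∧
      (t ≠ i → t ≠ i + 1 → t ≠ k → t ≠ k + 1 →
        0 < (t - i) * (t - i - 1) * ((t - k) * (t - k - 1))) := by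
  have h1 := nifa_consec (t - i)
  have h2 := nifa_consec (t - k)
  refine ⟨mul_nonneg h1.1 h2.1, ?_⟩
  intro a b c d
  exact mul_pos (h1.2 (by omega) (by omega)) (h2.2 (by omega) (by omega))

/-- the value on the second curve -/
private theorem nifa_h (i k t : ℤ) (hik : i + 2 ≤ k) (h1 : t ≠ i + 1) (h2 : t ≠ k) :
    0 < (t - i - 1) * (t - k) * ((t - i) * (t - k - 1) + 1) := by
  rcases lt_or_ge t (i + 1) with h | h
  · have a1 : t - i - 1 < 0 := by omega
    have a2 : t - k < 0 := by omega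
    have a3 : 0 < (t - i - 1) * (t - k) := mul_pos_of_neg_of_neg a1 a2
    have a4 : 0 ≤ (t - i) * (t - k - 1) := mul_nonneg_of_nonpos_of_nonpos (by omega) (by omega)
    exact mul_pos a3 (by omega)
  · rcases lt_or_ge t k with h' | h'
    · have a1 : 0 < t - i - 1 := by omega
      have a2 : t - k < 0 := by omega
      have a3 : (t - i - 1) * (t - k) < 0 := mul_neg_of_pos_of_neg a1 a2
      have a4 : (t - i) * (t - k - 1) + 1 < 0 := by
        have b1 : 2 ≤ t - i := by omega
        have b2 : 2 ≤ k + 1 - t := by omega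
        nlinarith
      exact mul_pos_of_neg_of_neg a3 a4
    · have a1 : 0 < t - i - 1 := by omega
      have a2 : 0 < t - k := by omega
      have a3 : 0 < (t - i - 1) * (t - k) := mul_pos a1 a2
      have a4 : 0 ≤ (t - i) * (t - k - 1) := mul_nonneg (by omega) (by omega)
      exact mul_pos a3 (by omega)

theorem face_a (N : ℕ) (ε : ℝ) (h0 : 0 < ε) (h1 : ε < 1) (i k : ℕ) (hik : i + 2 ≤ k)
    (hi : ¬ 50 ∣ i + 1) (hk : ¬ 50 ∣ k + 1) : IsFace N (vpt ε) (setA i k) := by
  set I : ℝ := (i : ℝ) with hI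
  set K : ℝ := (k : ℝ) with hK
  set c : ℝ := 1 / 2 + (K - I) * (K - I - 1) with hc
  set b : V := ![I * (I + 1) * (K * (K + 1)),
    -((2 * I + 1) * (K * (K + 1)) + (2 * K + 1) * (I * (I + 1))),
    I * (I + 1) + K * (K + 1) - c, (2 * I + 1) * (2 * K + 1) + c,
    -((2 * I + 1) + (2 * K + 1)), 1] with hb
  have hb0 : b 0 = I * (I + 1) * (K * (K + 1)) := rfl
  have hb1 : b 1 = -((2 * I + 1) * (K * (K + 1)) + (2 * K + 1) * (I * (I + 1))) := rfl
  have hb2 : b 2 = I * (I + 1) + K * (K + 1) - c := rfl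
  have hb3 : b 3 = (2 * I + 1) * (2 * K + 1) + c := rfl
  have hb4 : b 4 = -((2 * I + 1) + (2 * K + 1)) := rfl
  have hb5 : b 5 = 1 := rfl
  have hy : ∀ t : ℕ, b ⬝ᵥ hom (ypt t) =
      (((((t : ℤ) - i) * ((t : ℤ) - i - 1) * (((t : ℤ) - k) * ((t : ℤ) - k - 1)) : ℤ)) : ℝ) := by
    intro t
    rw [ypt, nifa_dot, hb0, hb1, hb2, hb3, hb4, hb5]
    push_cast
    rw [← hI, ← hK]
    ring
  have hz : ∀ t : ℕ, b ⬝ᵥ hom (zpt t) =
      ((((t : ℤ) - i - 1) * ((t : ℤ) - k) * (((t : ℤ) - i) * ((t : ℤ) - k - 1) + 1) : ℤ) : ℝ) := by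
    intro t
    rw [zpt, nifa_dot, hb0, hb1, hb2, hb3, hb4, hb5, hc]
    push_cast
    rw [← hI, ← hK]
    ring
  have hy0 : ∀ t : ℕ, 0 ≤ b ⬝ᵥ hom (ypt t) := by
    intro t
    rw [hy]
    exact_mod_cast (nifa_g i k t).1
  have hypos : ∀ t : ℕ, t ≠ i → t ≠ i + 1 → t ≠ k → t ≠ k + 1 → 0 < b ⬝ᵥ hom (ypt t) := by
    intro t a1 a2 a3 a4
    rw [hy]
    exact_mod_cast (nifa_g i k t).2 (by omega) (by omega) (by omega) (by omega)
  have hyz : ∀ t : ℕ, (t = i ∨ t = i + 1 ∨ t = k ∨ t = k + 1) → b ⬝ᵥ hom (ypt t) = 0 := by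
    intro t ht
    rw [hy]
    rcases ht with rfl | rfl | rfl | rfl <;> push_cast <;> ring
  refine ⟨b, ?_, ?_⟩
  · rintro ⟨a, t⟩ _ ha
    simp only [setA, Set.mem_insert_iff, Set.mem_singleton_iff, Prod.mk.injEq] at ha
    cases a
    · simp only [Bool.false_eq_true, false_and, true_and, false_or, or_false] at ha
      unfold vpt
      simp only [Bool.false_eq_true, if_false]
      split_ifs with hdvd
      · have ht : t = i ∨ t = k := by
          rcases ha with rfl | rfl | rfl | rfl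
          · exact Or.inl rfl
          · exact absurd hdvd hi
          · exact Or.inr rfl
          · exact absurd hdvd hk
        rw [nifa_combo]
        rcases ht with rfl | rfl
        · rw [hyz _ (Or.inl rfl), hyz _ (Or.inr (Or.inl rfl)), mul_zero, mul_zero, add_zero]
        · rw [hyz _ (Or.inr (Or.inr (Or.inl rfl))), hyz _ (Or.inr (Or.inr (Or.inr rfl))),
            mul_zero, mul_zero, add_zero]
      · exact hyz t ha
    · simp only [Bool.true_eq_false, false_and, true_and, false_or, or_false] at ha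
      unfold vpt
      simp only [if_true]
      rw [hz]
      rcases ha with rfl | rfl <;> push_cast <;> ring
  · rintro ⟨a, t⟩ _ ha
    simp only [setA, Set.mem_insert_iff, Set.mem_singleton_iff, Prod.mk.injEq, not_or] at ha
    cases a
    · simp only [Bool.false_eq_true, false_and, true_and, not_false_eq_true] at ha
      unfold vpt
      simp only [Bool.false_eq_true, if_false]
      have hpos := hypos t (by tauto) (by tauto) (by tauto) (by tauto)
      split_ifs with hdvd
      · rw [nifa_combo]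
        have h2 := hy0 (t + 1)
        have h3 : 0 < (1 - ε) * (b ⬝ᵥ hom (ypt t)) := mul_pos (by linarith) hpos
        have h4 : 0 ≤ ε * (b ⬝ᵥ hom (ypt (t + 1))) := mul_nonneg h0.le h2
        linarith
      · exact hpos
    · simp only [Bool.true_eq_false, false_and, true_and, not_false_eq_true] at ha
      unfold vpt
      simp only [if_true]
      rw [hz]
      have h1 : t ≠ i + 1 := by tauto
      have h2 : t ≠ k := by tauto
      exact_mod_cast nifa_h i k t (by omega) (by omega) (by omega)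

end NI
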