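import Mathlib
import Pool.Agent.NI.Defs

/-!
# NI-FB: the facets (b_ik) and the simplices (0_ik)

Let m = k - i ≥ 2, l_i(X,Y) = Y - (2i+1) X + i(i+1) - 1/2 (the line through zpt i, zpt (i+1)). Functional
   Ψ = l_i * l_k + (m (m+1) - 1/2) * (X² + 1/2 - Y).
 b ⬝ᵥ hom (ver X Y) = b0 + b1 X + b2 Y + b3 X² + b4 X Y + b5 Y²: read off b.
Values for a natural number t:
 on zpt t: Ψ = (t-i)(t-i-1)(t-k)(t-k-1) ≥ 0, zero iff t ∈ {i, i+1, k, k+1}.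
 on ypt t: Ψ = (t-i)(t-k-1) * ((t-i-1)(t-k) - 1) [ring: ((t-i)(t-i-1) - 1/2)((t-k)(t-k-1) - 1/2) + (m(m+1) - 1/2)/2];
   zero iff t ∈ {i, k+1}; otherwise > 0: i < t < k+1: (t-i)(t-k-1) < 0 and (t-i-1)(t-k) - 1 ≤ -1 < 0; t < i or t > k+1:
   (t-i)(t-k-1) > 0 and (t-i-1)(t-k) ≥ 2·(m+1)... ≥ 2 > 1.
 Pushed points (50 ∣ t): (1-ε) Ψ(ypt t) + ε Ψ(ypt (t+1)): zero iff t, t+1 ∈ {i, k+1}, impossible (k+1 ≥ i+3), so > 0.
face_b: ¬ 50 ∣ i, ¬ 50 ∣ k+1, so (false,i), (false,k+1) are genuine points ypt: zero set = setB i k.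
face_0: 50 ∣ i: (false, i) is pushed, value > 0; zero set = set0 i k.
(Prove one common lemma: the value of the functional at all labels.)
-/

open Set Matrix

namespace NI

open MPd0c340

lemma nifb_ver (b0 b1 b2 b3 b4 b5 X Y : ℝ) :
    (![b0, b1, b2, b3, b4, b5] : V) ⬝ᵥ hom (ver X Y) =
      b0 + b1 * X + b2 * Y + b3 * X ^ 2 + b4 * (X * Y) + b5 * Y ^ 2 := by
  simp only [dotProduct, Fin.sum_univ_succ, Fin.sum_univ_zero, hom, Fin.cons_zero, Fin.cons_succ,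
    Matrix.cons_val_zero, Matrix.cons_val_succ, ver]
  ring

lemma nifb_combo (b : V) (x y : E 5) (ε : ℝ) :
    b ⬝ᵥ hom ((1 - ε) • x + ε • y) = (1 - ε) * (b ⬝ᵥ hom x) + ε * (b ⬝ᵥ hom y) := by
  simp only [dotProduct, Fin.sum_univ_succ, Fin.sum_univ_zero, hom, Fin.cons_zero, Fin.cons_succ,
    PiLp.add_apply, PiLp.smul_apply, smul_eq_mul]
  ring

/-- the functional -/
noncomputable def nifbF (i k : ℕ) : V :=
  ![((i : ℝ) * (i + 1) - 1 / 2) * ((k : ℝ) * (k + 1) - 1 / 2) +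
      (((k : ℝ) - i) * (k - i + 1) - 1 / 2) / 2,
    -((2 * (i : ℝ) + 1) * ((k : ℝ) * (k + 1) - 1 / 2) +
      (2 * (k : ℝ) + 1) * ((i : ℝ) * (i + 1) - 1 / 2)),
    ((i : ℝ) * (i + 1) - 1 / 2) + ((k : ℝ) * (k + 1) - 1 / 2) -
      (((k : ℝ) - i) * (k - i + 1) - 1 / 2),
    (2 * (i : ℝ) + 1) * (2 * (k : ℝ) + 1) + (((k : ℝ) - i) * (k - i + 1) - 1 / 2),
    -((2 * (i : ℝ) + 1) + (2 * (k : ℝ) + 1)), 1]

/-- the values on the first curve -/
noncomputable def nifbY (i k t : ℕ) : ℝ :=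
  (((t : ℝ) - i) * (t - k - 1)) * (((t : ℝ) - i - 1) * (t - k) - 1)

lemma nifb_zval (i k t : ℕ) : nifbF i k ⬝ᵥ hom (zpt t) =
    (((t : ℝ) - i) * (t - i - 1)) * (((t : ℝ) - k) * (t - k - 1)) := by
  unfold nifbF zpt
  rw [nifb_ver]
  ring

lemma nifb_yval (i k t : ℕ) : nifbF i k ⬝ᵥ hom (ypt t) = nifbY i k t := by
  unfold nifbF ypt nifbY
  rw [nifb_ver]
  ring

lemma nifb_pos1 {t i : ℕ} (h1 : t ≠ i) (h2 : t ≠ i + 1) :
    0 < ((t : ℝ) - i) * (t - i - 1) := by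
  rcases lt_or_gt_of_ne h1 with h | h
  · have h3 : (t : ℝ) + 1 ≤ i := by exact_mod_cast h
    apply mul_pos_of_neg_of_neg <;> linarith
  · have h4 : i + 2 ≤ t := by omega
    have h3 : (i : ℝ) + 2 ≤ t := by exact_mod_cast h4
    apply mul_pos <;> linarith

lemma nifb_ypos {i k t : ℕ} (hik : i + 2 ≤ k) (h1 : t ≠ i) (h2 : t ≠ k + 1) :
    0 < nifbY i k t := by
  unfold nifbY
  have hik' : (i : ℝ) + 2 ≤ k := by exact_mod_cast hik
  rcases lt_or_gt_of_ne h1 with h | h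
  · have h3 : (t : ℝ) + 1 ≤ i := by exact_mod_cast h
    apply mul_pos
    · apply mul_pos_of_neg_of_neg <;> linarith
    · nlinarith
  · have h3 : (i : ℝ) + 1 ≤ t := by exact_mod_cast h
    rcases lt_or_gt_of_ne h2 with h' | h'
    · have h4 : (t : ℝ) + 1 ≤ k + 1 := by exact_mod_cast h'
      apply mul_pos_of_neg_of_neg
      · apply mul_neg_of_pos_of_neg <;> linarith
      · have h5 : ((t : ℝ) - i - 1) * (t - k) ≤ 0 :=
          mul_nonpos_of_nonneg_of_nonpos (by linarith) (by linarith)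
        linarith
    · have h4 : (k : ℝ) + 1 + 1 ≤ t := by exact_mod_cast h'
      apply mul_pos
      · apply mul_pos <;> linarith
      · nlinarith

lemma nifb_ynonneg {i k : ℕ} (hik : i + 2 ≤ k) (t : ℕ) : 0 ≤ nifbY i k t := by
  by_cases h1 : t = i
  · subst h1
    simp [nifbY]
  · by_cases h2 : t = k + 1
    · subst h2
      simp [nifbY]
    · exact (nifb_ypos hik h1 h2).le

lemma nifb_vtrue (ε : ℝ) (t : ℕ) : vpt ε (true, t) = zpt t := rfl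

lemma nifb_vfalse {ε : ℝ} {t : ℕ} (h : ¬ 50 ∣ t) : vpt ε (false, t) = ypt t := by
  simp [vpt, h]

lemma nifb_vpush {ε : ℝ} {t : ℕ} (h : 50 ∣ t) :
    vpt ε (false, t) = (1 - ε) • ypt t + ε • ypt (t + 1) := by
  simp [vpt, h]

/-- the value at all labels -/
lemma nifb_true {i k t : ℕ} (ε : ℝ) (h : ¬ (t = i ∨ t = i + 1 ∨ t = k ∨ t = k + 1)) :
    0 < nifbF i k ⬝ᵥ hom (vpt ε (true, t)) := by
  push Not at h
  obtain ⟨h1, h2, h3, h4⟩ := h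
  rw [nifb_vtrue, nifb_zval]
  exact mul_pos (nifb_pos1 h1 h2) (nifb_pos1 h3 h4)

lemma nifb_true0 {i k t : ℕ} (ε : ℝ) (h : t = i ∨ t = i + 1 ∨ t = k ∨ t = k + 1) :
    nifbF i k ⬝ᵥ hom (vpt ε (true, t)) = 0 := by
  rw [nifb_vtrue, nifb_zval]
  rcases h with h | h | h | h
  · rw [h]; ring
  · rw [h]; push_cast; ring
  · rw [h]; ring
  · rw [h]; push_cast; ring

lemma nifb_push {i k t : ℕ} {ε : ℝ} (h0 : 0 < ε) (h1 : ε < 1) (hik : i + 2 ≤ k) (ht : 50 ∣ t)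
    (hk : ¬ 50 ∣ k + 1) : 0 < nifbF i k ⬝ᵥ hom (vpt ε (false, t)) := by
  rw [nifb_vpush ht, nifb_combo, nifb_yval, nifb_yval]
  have h2 := nifb_ynonneg hik t
  have h3 := nifb_ynonneg hik (t + 1)
  have htk : t ≠ k + 1 := fun h => hk (h ▸ ht)
  by_cases hti : t = i
  · have h4 : 0 < nifbY i k (t + 1) := nifb_ypos hik (by omega) (by omega)
    have h5 : 0 ≤ (1 - ε) * nifbY i k t := mul_nonneg (by linarith) h2
    have h6 : 0 < ε * nifbY i k (t + 1) := mul_pos h0 h4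
    linarith
  · have h4 : 0 < nifbY i k t := nifb_ypos hik hti htk
    have h5 : 0 < (1 - ε) * nifbY i k t := mul_pos (by linarith) h4
    have h6 : 0 ≤ ε * nifbY i k (t + 1) := mul_nonneg h0.le h3
    linarith

lemma nifb_false {i k t : ℕ} {ε : ℝ} (h0 : 0 < ε) (h1 : ε < 1) (hik : i + 2 ≤ k)
    (hk : ¬ 50 ∣ k + 1) (ht : ¬ (t = k + 1 ∨ (t = i ∧ ¬ 50 ∣ i))) :
    0 < nifbF i k ⬝ᵥ hom (vpt ε (false, t)) := by
  push Not at ht
  by_cases h50 : 50 ∣ t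
  · exact nifb_push h0 h1 hik h50 hk
  · rw [nifb_vfalse h50, nifb_yval]
    refine nifb_ypos hik ?_ ht.1
    rintro rfl
    exact h50 (ht.2 rfl)

lemma nifb_false0 {i k t : ℕ} {ε : ℝ} (hk : ¬ 50 ∣ k + 1) (ht : t = k + 1 ∨ (t = i ∧ ¬ 50 ∣ i)) :
    nifbF i k ⬝ᵥ hom (vpt ε (false, t)) = 0 := by
  rcases ht with rfl | ⟨rfl, h⟩
  · rw [nifb_vfalse hk, nifb_yval]
    simp [nifbY]
  · rw [nifb_vfalse h, nifb_yval]
    simp [nifbY]


theorem face_b (N : ℕ) (ε : ℝ) (h0 : 0 < ε) (h1 : ε < 1) (i k : ℕ) (hik : i + 2 ≤ k)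
    (hi : ¬ 50 ∣ i) (hk : ¬ 50 ∣ k + 1) : IsFace N (vpt ε) (setB i k) := by
  refine ⟨nifbF i k, ?_, ?_⟩
  · rintro ⟨c, t⟩ _ ha
    simp only [setB, Set.mem_insert_iff, Set.mem_singleton_iff, Prod.mk.injEq] at ha
    cases c
    · exact nifb_false0 hk (by simp at ha; tauto)
    · exact nifb_true0 ε (by simp at ha; tauto)
  · rintro ⟨c, t⟩ _ ha
    simp only [setB, Set.mem_insert_iff, Set.mem_singleton_iff, Prod.mk.injEq] at ha
    cases c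
    · exact nifb_false h0 h1 hik hk (by simp at ha; tauto)
    · exact nifb_true ε (by simp at ha; tauto)

theorem face_0 (N : ℕ) (ε : ℝ) (h0 : 0 < ε) (h1 : ε < 1) (i k : ℕ) (hik : i + 2 ≤ k)
    (hi : 50 ∣ i) (hk : ¬ 50 ∣ k + 1) : IsFace N (vpt ε) (set0 i k) := by
  refine ⟨nifbF i k, ?_, ?_⟩
  · rintro ⟨c, t⟩ _ ha
    simp only [set0, Set.mem_insert_iff, Set.mem_singleton_iff, Prod.mk.injEq] at ha
    cases c
    · exact nifb_false0 hk (by simp at ha; tauto)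
    · exact nifb_true0 ε (by simp at ha; tauto)
  · rintro ⟨c, t⟩ _ ha
    simp only [set0, Set.mem_insert_iff, Set.mem_singleton_iff, Prod.mk.injEq] at ha
    cases c
    · exact nifb_false h0 h1 hik hk (by simp at ha; tauto)
    · exact nifb_true ε (by simp at ha; tauto)

end NI
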