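import Mathlib
import Pool.Agent.NI.Defs

/-!
# NI-Y: the two big facets

b ⬝ᵥ hom (ver X Y) = b0 + b1 X + b2 Y + b3 X² + b4 X Y + b5 Y². hom of a convex combination = combination (hom_combo).
face_Y: functional Y - X² (b = ![0,0,1,-1,0,0]): 0 on every ypt, hence on the pushed points; = 1/2 on every zpt.
face_Z: functional X² + 1/2 - Y (b = ![1/2,0,-1,1,0,0]): 0 on every zpt; = 1/2 on every ypt, hence = 1/2 on the pushed points.
-/

open Set Matrix

namespace NI

open MPd0c340

theorem niy_dot (b : V) (X Y : ℝ) :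
    b ⬝ᵥ hom (ver X Y) = b 0 + b 1 * X + b 2 * Y + b 3 * X ^ 2 + b 4 * (X * Y) + b 5 * Y ^ 2 := by
  unfold hom ver
  simp only [dotProduct, Fin.sum_univ_succ, Fin.sum_univ_zero, Fin.cons_zero, Fin.cons_succ]
  simp [Matrix.cons_val_zero]
  ring_nf

theorem niy_combo (b : V) (s : ℝ) (p q : E 5) :
    b ⬝ᵥ hom ((1 - s) • p + s • q) = (1 - s) * (b ⬝ᵥ hom p) + s * (b ⬝ᵥ hom q) := by
  have h : hom ((1 - s) • p + s • q) = (1 - s) • hom p + s • hom q := by
    funext i
    refine Fin.cases ?_ (fun j => ?_) i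
    · simp [hom]
    · simp [hom]
  rw [h, dotProduct_add, dotProduct_smul, dotProduct_smul, smul_eq_mul, smul_eq_mul]

theorem face_Y (N : ℕ) (ε : ℝ) (h0 : 0 < ε) (h1 : ε < 1) : IsFace N (vpt ε) {a | a.1 = false} := by
  set b : V := ![0, 0, 1, -1, 0, 0] with hb
  have hy : ∀ t : ℕ, b ⬝ᵥ hom (ypt t) = 0 := by
    intro t
    rw [ypt, niy_dot]
    simp [hb]
  have hz : ∀ t : ℕ, b ⬝ᵥ hom (zpt t) = 1 / 2 := by
    intro t
    rw [zpt, niy_dot]
    simp [hb]
  refine ⟨b, ?_, ?_⟩
  · rintro ⟨a, t⟩ _ ha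
    change a = false at ha
    subst ha
    unfold vpt
    simp only [Bool.false_eq_true, if_false]
    split_ifs
    · rw [niy_combo, hy, hy, mul_zero, mul_zero, add_zero]
    · exact hy t
  · rintro ⟨a, t⟩ _ ha
    have ha' : a = true := by
      cases a
      · exact absurd rfl ha
      · rfl
    subst ha'
    unfold vpt
    simp only [if_true]
    rw [hz]
    norm_num

theorem face_Z (N : ℕ) (ε : ℝ) (h0 : 0 < ε) (h1 : ε < 1) : IsFace N (vpt ε) {a | a.1 = true} := by
  set b : V := ![1 / 2, 0, -1, 1, 0, 0] with hb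
  have hy : ∀ t : ℕ, b ⬝ᵥ hom (ypt t) = 1 / 2 := by
    intro t
    rw [ypt, niy_dot]
    simp [hb]
  have hz : ∀ t : ℕ, b ⬝ᵥ hom (zpt t) = 0 := by
    intro t
    rw [zpt, niy_dot]
    simp [hb]
  refine ⟨b, ?_, ?_⟩
  · rintro ⟨a, t⟩ _ ha
    change a = true at ha
    subst ha
    unfold vpt
    simp only [if_true]
    exact hz t
  · rintro ⟨a, t⟩ _ ha
    have ha' : a = false := by
      cases a
      · rfl
      · exact absurd rfl ha
    subst ha'
    unfold vpt
    simp only [Bool.false_eq_true, if_false]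
    split_ifs
    · rw [niy_combo, hy, hy]
      linarith
    · rw [hy t]
      norm_num

end NI
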