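import Mathlib
import Pool.Agent.NI.Defs
import Pool.Agent.NI.Basic

/-!
# NI-G: pigeonhole / unique continuation in the space of trilinear forms

PROOF. Let X := Fin 6 → Fin 6 → Fin 6 → ℝ (finrank 216), T3 x y z := fun a b c => x a * y b * z c.
(0) For fixed p q r : V there is a linear functional L_{p,q,r} : X → ℝ with
    L (T3 x y z) = det ![x, y, z, p, q, r] for all x y z: L t := Σ_{a,b,c} t a b c * det ![e_a, e_b, e_c, p, q, r]
    (multilinearity of det in the first three rows). [Any other implementation is fine, e.g. X := the dual of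
    MultilinearMap ℝ (fun _ : Fin 3 => V) ℝ, or work with decreasing subspaces of trilinear forms.]
(1) By dep6_iff_det all hypotheses / conclusions are det = 0. ha, hb hold for ALL i ≤ k (k + 1 ≤ N) with the divisibility
    conditions: for k = i and k = i + 1 two rows are equal (a: u i = u k resp. u (i+1) = u k; b: w i = w k resp. w (i+1) = w k).
(2) α_i := T3 (u i) (u (i+1)) (w (i+1)), A_k := span {α_i | i ≤ k, ¬ 50 ∣ i+1};
    γ_i := T3 (u i) (w i) (w (i+1)),     G_k := span {γ_i | i ≤ k, ¬ 50 ∣ i}. Both increasing in k, dimension ≤ 216.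
    Consider the blocks [50 j, 50 j + 50), j = 0..439 (50·440 = 22000 ≤ N). If for every j < 433 the pair (A, G) changes between
    50 j and 50 j + 48, then finrank A_{50 j} + finrank G_{50 j} ≥ j for all j ≤ 433, but it is ≤ 432. So there is j with
    A_{m+48} = A_m, G_{m+48} = G_m, m = 50 j, m + 50 ≤ N.
(3) Let 0 ≤ k ≤ 48. L_k := L_{u(m+k), u(m+k+1), w(m+k)} kills α_i for i ≤ m + k, ¬ 50 ∣ i+1 (as ¬ 50 ∣ m+k+1), so it kills
    A_{m+k} = A_{m+48} (squeezed between A_m and A_{m+48}), which contains α_{m+i} for all 0 ≤ i ≤ 48 (¬ 50 ∣ m+i+1).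
    First conclusion. Second: the functional with (w (m+k), w (m+k+1), u (m+k+1)) kills γ_i, i ≤ m+k, so G_{m+k} = G_{m+48}
    ∋ γ_{m+i} for 1 ≤ i ≤ 48.
-/

open Set Matrix

namespace NI

open MPd0c340


/-- the space of `6 × 6 × 6` arrays -/
private abbrev X3 := Fin 6 × Fin 6 × Fin 6 → ℝ

private def T3 (x y z : V) : X3 := fun t => x t.1 * y t.2.1 * z t.2.2

private lemma nig_lin (f : V →ₗ[ℝ] ℝ) (x : V) :
    f x = ∑ a : Fin 6, x a * f (Pi.single a 1) := by
  rw [LinearMap.pi_apply_eq_sum_univ f x]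
  refine Finset.sum_congr rfl fun a _ => ?_
  rw [smul_eq_mul]
  congr 2
  funext j
  simp [Pi.single_apply, eq_comm]

private lemma nig_foo (M : Fin 6 → Fin 6 → ℝ) :
    (Matrix.detRowAlternating (R := ℝ) (n := Fin 6)).toMultilinearMap M =
      Matrix.det (M : Matrix (Fin 6) (Fin 6) ℝ) := rfl

private lemma nig_det0 (x y z p q r : V) :
    Matrix.det (![x, y, z, p, q, r] : Matrix (Fin 6) (Fin 6) ℝ) =
      ∑ a : Fin 6, x a * Matrix.det (![Pi.single a 1, y, z, p, q, r] : Matrix (Fin 6) (Fin 6) ℝ) := by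
  have h := nig_lin ((Matrix.detRowAlternating (R := ℝ) (n := Fin 6)).toMultilinearMap.toLinearMap
    ![0, y, z, p, q, r] 0) x
  have e : ∀ v : V, ((Matrix.detRowAlternating (R := ℝ) (n := Fin 6)).toMultilinearMap.toLinearMap
    ![0, y, z, p, q, r] 0) v = Matrix.det (![v, y, z, p, q, r] : Matrix (Fin 6) (Fin 6) ℝ) := by
    intro v
    have : Function.update (![0, y, z, p, q, r] : Fin 6 → V) 0 v = ![v, y, z, p, q, r] := by
      funext j; fin_cases j <;> rfl
    rw [MultilinearMap.toLinearMap_apply, this]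
    exact nig_foo _
  rw [e] at h
  rw [h]
  exact Finset.sum_congr rfl fun a _ => by rw [e]

private lemma nig_det1 (x y z p q r : V) :
    Matrix.det (![x, y, z, p, q, r] : Matrix (Fin 6) (Fin 6) ℝ) =
      ∑ a : Fin 6, y a * Matrix.det (![x, Pi.single a 1, z, p, q, r] : Matrix (Fin 6) (Fin 6) ℝ) := by
  have h := nig_lin ((Matrix.detRowAlternating (R := ℝ) (n := Fin 6)).toMultilinearMap.toLinearMap
    ![x, 0, z, p, q, r] 1) y
  have e : ∀ v : V, ((Matrix.detRowAlternating (R := ℝ) (n := Fin 6)).toMultilinearMap.toLinearMap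
    ![x, 0, z, p, q, r] 1) v = Matrix.det (![x, v, z, p, q, r] : Matrix (Fin 6) (Fin 6) ℝ) := by
    intro v
    have : Function.update (![x, 0, z, p, q, r] : Fin 6 → V) 1 v = ![x, v, z, p, q, r] := by
      funext j; fin_cases j <;> rfl
    rw [MultilinearMap.toLinearMap_apply, this]
    exact nig_foo _
  rw [e] at h
  rw [h]
  exact Finset.sum_congr rfl fun a _ => by rw [e]

private lemma nig_det2 (x y z p q r : V) :
    Matrix.det (![x, y, z, p, q, r] : Matrix (Fin 6) (Fin 6) ℝ) =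
      ∑ a : Fin 6, z a * Matrix.det (![x, y, Pi.single a 1, p, q, r] : Matrix (Fin 6) (Fin 6) ℝ) := by
  have h := nig_lin ((Matrix.detRowAlternating (R := ℝ) (n := Fin 6)).toMultilinearMap.toLinearMap
    ![x, y, 0, p, q, r] 2) z
  have e : ∀ v : V, ((Matrix.detRowAlternating (R := ℝ) (n := Fin 6)).toMultilinearMap.toLinearMap
    ![x, y, 0, p, q, r] 2) v = Matrix.det (![x, y, v, p, q, r] : Matrix (Fin 6) (Fin 6) ℝ) := by
    intro v
    have : Function.update (![x, y, 0, p, q, r] : Fin 6 → V) 2 v = ![x, y, v, p, q, r] := by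
      funext j; fin_cases j <;> rfl
    rw [MultilinearMap.toLinearMap_apply, this]
    exact nig_foo _
  rw [e] at h
  rw [h]
  exact Finset.sum_congr rfl fun a _ => by rw [e]

private noncomputable def L3 (p q r : V) : X3 →ₗ[ℝ] ℝ where
  toFun t := ∑ a : Fin 6, ∑ b : Fin 6, ∑ c : Fin 6, t (a, b, c) *
    Matrix.det (![Pi.single a 1, Pi.single b 1, Pi.single c 1, p, q, r] :
      Matrix (Fin 6) (Fin 6) ℝ)
  map_add' s t := by
    simp only [Pi.add_apply, add_mul, Finset.sum_add_distrib]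
  map_smul' c t := by
    simp only [Pi.smul_apply, smul_eq_mul, RingHom.id_apply, Finset.mul_sum, mul_assoc]

private lemma nig_L3 (x y z p q r : V) :
    L3 p q r (T3 x y z) = Matrix.det (![x, y, z, p, q, r] : Matrix (Fin 6) (Fin 6) ℝ) := by
  rw [nig_det0]
  change (∑ a : Fin 6, ∑ b : Fin 6, ∑ c : Fin 6, (x a * y b * z c) *
    Matrix.det (![Pi.single a 1, Pi.single b 1, Pi.single c 1, p, q, r] :
      Matrix (Fin 6) (Fin 6) ℝ)) = _
  refine Finset.sum_congr rfl fun a _ => ?_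
  rw [nig_det1, Finset.mul_sum]
  refine Finset.sum_congr rfl fun b _ => ?_
  rw [nig_det2, Finset.mul_sum, Finset.mul_sum]
  refine Finset.sum_congr rfl fun c _ => ?_
  ring

private lemma nig_dep (x y z p q r : V) (h : L3 p q r (T3 x y z) = 0) : Dep6 x y z p q r := by
  rw [dep6_iff_det, ← nig_L3]; exact h

private lemma nig_L3_03 (y z p q r : V) : L3 p q r (T3 p y z) = 0 := by
  rw [nig_L3]
  exact Matrix.det_zero_of_row_eq (i := 0) (j := 3) (by decide) rfl

private lemma nig_L3_13 (x z p q r : V) : L3 p q r (T3 x p z) = 0 := by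
  rw [nig_L3]
  exact Matrix.det_zero_of_row_eq (i := 1) (j := 3) (by decide) rfl

private lemma nig_L3_23 (x y p q r : V) : L3 p q r (T3 x y p) = 0 := by
  rw [nig_L3]
  exact Matrix.det_zero_of_row_eq (i := 2) (j := 3) (by decide) rfl

private lemma nig_L3_dep {x y z p q r : V} (h : Dep6 x y z p q r) : L3 p q r (T3 x y z) = 0 := by
  rw [nig_L3]; exact dep6_iff_det.1 h

private def Sp (α : ℕ → X3) (P : ℕ → Prop) (k : ℕ) : Submodule ℝ X3 :=
  Submodule.span ℝ {x | ∃ i, i ≤ k ∧ P i ∧ x = α i}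

private lemma Sp_mono (α : ℕ → X3) (P : ℕ → Prop) : Monotone (Sp α P) := by
  intro k l h
  apply Submodule.span_mono
  rintro x ⟨i, hi, hP, rfl⟩
  exact ⟨i, hi.trans h, hP, rfl⟩

private lemma Sp_mem (α : ℕ → X3) (P : ℕ → Prop) {i k : ℕ} (h : i ≤ k) (hP : P i) :
    α i ∈ Sp α P k := Submodule.subset_span ⟨i, h, hP, rfl⟩

private lemma nig_pigeon (α γ : ℕ → X3) (P Q : ℕ → Prop) :
    ∃ j, j < 433 ∧ Sp α P (50 * j) = Sp α P (50 * j + 48) ∧
      Sp γ Q (50 * j) = Sp γ Q (50 * j + 48) := by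
  by_contra hcon
  push Not at hcon
  have hle : ∀ (β : ℕ → X3) (R : ℕ → Prop) (k : ℕ), Module.finrank ℝ (Sp β R k) ≤ 216 := by
    intro β R k
    have := Submodule.finrank_le (Sp β R k)
    have h2 : Module.finrank ℝ X3 = 216 := by
      rw [Module.finrank_fintype_fun_eq_card]
      simp
    omega
  have hmono : ∀ (β : ℕ → X3) (R : ℕ → Prop) {k l : ℕ}, k ≤ l →
      Module.finrank ℝ (Sp β R k) ≤ Module.finrank ℝ (Sp β R l) := by
    intro β R k l h
    exact Submodule.finrank_mono (Sp_mono β R h)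
  have key : ∀ j, j ≤ 433 → j ≤ Module.finrank ℝ (Sp α P (50 * j)) +
      Module.finrank ℝ (Sp γ Q (50 * j)) := by
    intro j
    induction j with
    | zero => intro _; omega
    | succ j ih =>
      intro hj
      have h0 := ih (by omega)
      have h1 := hmono α P (show 50 * j ≤ 50 * j + 48 by omega)
      have h2 := hmono γ Q (show 50 * j ≤ 50 * j + 48 by omega)
      have h3 := hmono α P (show 50 * j + 48 ≤ 50 * (j + 1) by omega)
      have h4 := hmono γ Q (show 50 * j + 48 ≤ 50 * (j + 1) by omega)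
      by_cases hA : Module.finrank ℝ (Sp α P (50 * j)) = Module.finrank ℝ (Sp α P (50 * j + 48))
      · by_cases hG : Module.finrank ℝ (Sp γ Q (50 * j)) = Module.finrank ℝ (Sp γ Q (50 * j + 48))
        · exfalso
          exact hcon j (by omega)
            (Submodule.eq_of_le_of_finrank_eq (Sp_mono α P (by omega)) hA)
            (Submodule.eq_of_le_of_finrank_eq (Sp_mono γ Q (by omega)) hG)
        · omega
      · omega
  have h1 := key 433 le_rfl
  have h2 := hle α P (50 * 433)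
  have h3 := hle γ Q (50 * 433)
  omega

theorem good_block (u w : ℕ → V) (N : ℕ) (hN : 22000 ≤ N)
    (ha : ∀ i k, i + 2 ≤ k → k + 1 ≤ N → ¬ 50 ∣ i + 1 → ¬ 50 ∣ k + 1 →
      Dep6 (u i) (u (i + 1)) (w (i + 1)) (u k) (u (k + 1)) (w k))
    (hb : ∀ i k, i + 2 ≤ k → k + 1 ≤ N → ¬ 50 ∣ i → ¬ 50 ∣ k + 1 →
      Dep6 (u i) (w i) (w (i + 1)) (w k) (w (k + 1)) (u (k + 1))) :
    ∃ m, 50 ∣ m ∧ m + 50 ≤ N ∧
      (∀ i k, i + 1 ≤ 49 → k + 1 ≤ 49 →
        Dep6 (u (m + i)) (u (m + i + 1)) (w (m + i + 1)) (u (m + k)) (u (m + k + 1)) (w (m + k))) ∧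
      (∀ i k, 1 ≤ i → i + 1 ≤ 49 → k + 1 ≤ 49 →
        Dep6 (u (m + i)) (w (m + i)) (w (m + i + 1)) (w (m + k)) (w (m + k + 1))
          (u (m + k + 1))) := by
  classical
  obtain ⟨j, hj, hA, hG⟩ := nig_pigeon (fun i => T3 (u i) (u (i + 1)) (w (i + 1)))
    (fun i => T3 (u i) (w i) (w (i + 1))) (fun i => ¬ 50 ∣ i + 1) (fun i => ¬ 50 ∣ i)
  refine ⟨50 * j, ⟨j, rfl⟩, by omega, ?_, ?_⟩
  · intro i k hi hk
    apply nig_dep
    have hker : Sp (fun i => T3 (u i) (u (i + 1)) (w (i + 1))) (fun i => ¬ 50 ∣ i + 1)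
        (50 * j + k) ≤ LinearMap.ker (L3 (u (50 * j + k)) (u (50 * j + k + 1)) (w (50 * j + k))) := by
      apply Submodule.span_le.2
      rintro x ⟨i', hi', hP, rfl⟩
      change L3 _ _ _ _ = 0
      have h3 : i' + 2 ≤ 50 * j + k ∨ i' + 1 = 50 * j + k ∨ i' = 50 * j + k := by omega
      rcases h3 with h3 | h3 | h3
      · exact nig_L3_dep (ha i' (50 * j + k) h3 (by omega) hP (by omega))
      · simp only [h3]
        exact nig_L3_13 _ _ _ _ _
      · simp only [h3]
        exact nig_L3_03 _ _ _ _ _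
    have hmem : T3 (u (50 * j + i)) (u (50 * j + i + 1)) (w (50 * j + i + 1)) ∈
        Sp (fun i => T3 (u i) (u (i + 1)) (w (i + 1))) (fun i => ¬ 50 ∣ i + 1) (50 * j + 48) :=
      Sp_mem (fun i => T3 (u i) (u (i + 1)) (w (i + 1))) (fun i => ¬ 50 ∣ i + 1)
        (show 50 * j + i ≤ 50 * j + 48 by omega) (show ¬ 50 ∣ 50 * j + i + 1 by omega)
    rw [← hA] at hmem
    exact hker (Sp_mono _ _ (by omega) hmem)
  · intro i k hi0 hi hk
    apply nig_dep
    have hker : Sp (fun i => T3 (u i) (w i) (w (i + 1))) (fun i => ¬ 50 ∣ i)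
        (50 * j + k) ≤ LinearMap.ker
          (L3 (w (50 * j + k)) (w (50 * j + k + 1)) (u (50 * j + k + 1))) := by
      apply Submodule.span_le.2
      rintro x ⟨i', hi', hP, rfl⟩
      change L3 _ _ _ _ = 0
      have h3 : i' + 2 ≤ 50 * j + k ∨ i' + 1 = 50 * j + k ∨ i' = 50 * j + k := by omega
      rcases h3 with h3 | h3 | h3
      · exact nig_L3_dep (hb i' (50 * j + k) h3 (by omega) hP (by omega))
      · simp only [h3]
        exact nig_L3_23 _ _ _ _ _
      · simp only [h3]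
        exact nig_L3_13 _ _ _ _ _
    have hmem : T3 (u (50 * j + i)) (w (50 * j + i)) (w (50 * j + i + 1)) ∈
        Sp (fun i => T3 (u i) (w i) (w (i + 1))) (fun i => ¬ 50 ∣ i) (50 * j + 48) :=
      Sp_mem (fun i => T3 (u i) (w i) (w (i + 1))) (fun i => ¬ 50 ∣ i)
        (show 50 * j + i ≤ 50 * j + 48 by omega) (show ¬ 50 ∣ 50 * j + i by omega)
    rw [← hG] at hmem
    exact hker (Sp_mono _ _ (by omega) hmem)

end NI
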