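import Mathlib
import Pool.Agent.NI.Defs
import Pool.Agent.NI.Basic
import Pool.Agent.MP_d0c340_co.ChartA

/-!
# NI-I: five vertices are independent

PROOF. Labels a b c d e distinct, x hom(a) + y hom(b) + ... = 0 with not all coefficients 0. The 0-th coordinate of `hom` is 1, so
the sum of the coefficients is 0; hence there are positive and negative coefficients, and (5 < 6) after changing the sign of
the relation at most TWO labels have a positive coefficient, at least one. Let S be this set (1 or 2 labels). Choose two distinct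
labels s, t (index ≤ N) with S ⊆ {s, t} and such that not all labels with negative coefficient are in {s, t}: if S has two
elements take S (the negative ones are outside S); if S = {s} take for t one of the labels (b, j), j ≤ 2, that is none of the
five labels (there are six labels with index ≤ 2 ≤ N). Let b be the functional of hp s t: b ≥ 0 on all labels, 0 exactly on
s, t. Apply b to the relation: the positive terms vanish, the negative terms are ≤ 0 and one is < 0: contradiction.
SUGGESTION: work with `f : Lab →₀ ℝ` or a function on the Finset {a,b,c,d,e}; ChartA.lean `neg_card` (Pool/Agent/MP_d0c340_co/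
ChartA.lean, namespace MPd0c340) is the same lemma for a Fintype index: with ι := {a : Lab // a.2 ≤ N} (Fintype, card = 2(N+1) ≥ 6),
v a := hom (x a), k = 2: every nonzero dependency has at least 3 negative entries; applied to y and -y it has at least 6 nonzero
entries, contradiction with 5. (hw0: w0 = Pi.single 0 1.) You may import Pool.Agent.MP_d0c340_co.ChartA.
-/

open Set Matrix

namespace NI

open MPd0c340

theorem nii_hom0 (x : E 5) : (Pi.single 0 1 : V) ⬝ᵥ hom x = 1 := by
  rw [single_one_dotProduct]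
  rfl

theorem nii_face {N : ℕ} (x : Lab → E 5)
    (hp : ∀ a b : Lab, a.2 ≤ N → b.2 ≤ N → a ≠ b → IsFace N x {a, b})
    (K : Finset (Bool × Fin (N + 1))) (hK : K.card = 2) :
    ∃ b : V, (∀ i ∈ K, b ⬝ᵥ hom (x (i.1, (i.2 : ℕ))) = 0) ∧
      ∀ i ∉ K, 0 < b ⬝ᵥ hom (x (i.1, (i.2 : ℕ))) := by
  obtain ⟨s, t, hst, rfl⟩ := Finset.card_eq_two.1 hK
  have hne : ((s.1, (s.2 : ℕ)) : Lab) ≠ (t.1, (t.2 : ℕ)) := by
    intro h
    apply hst
    obtain ⟨h1, h2⟩ := Prod.mk.inj h
    exact Prod.ext h1 (Fin.ext h2)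
  obtain ⟨b, h1, h2⟩ := hp (s.1, (s.2 : ℕ)) (t.1, (t.2 : ℕ))
    (Nat.lt_succ_iff.1 s.2.2) (Nat.lt_succ_iff.1 t.2.2) hne
  refine ⟨b, fun i hi => ?_, fun i hi => ?_⟩
  · refine h1 _ (Nat.lt_succ_iff.1 i.2.2) ?_
    rw [Finset.mem_insert, Finset.mem_singleton] at hi
    rcases hi with rfl | rfl
    · exact Set.mem_insert _ _
    · exact Set.mem_insert_of_mem _ rfl
  · refine h2 _ (Nat.lt_succ_iff.1 i.2.2) ?_
    intro hmem
    apply hi
    rw [Finset.mem_insert, Finset.mem_singleton]
    rcases hmem with h | h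
    · left
      obtain ⟨h3, h4⟩ := Prod.mk.inj h
      exact Prod.ext h3 (Fin.ext h4)
    · right
      obtain ⟨h3, h4⟩ := Prod.mk.inj (Set.mem_singleton_iff.1 h)
      exact Prod.ext h3 (Fin.ext h4)

theorem nii_neg {N : ℕ} (hN : 2 ≤ N) (x : Lab → E 5)
    (hp : ∀ a b : Lab, a.2 ≤ N → b.2 ≤ N → a ≠ b → IsFace N x {a, b})
    (y : Bool × Fin (N + 1) → ℝ)
    (hy : Dep (fun i : Bool × Fin (N + 1) => hom (x (i.1, (i.2 : ℕ)))) y) (hy0 : y ≠ 0) :
    3 ≤ (negSet y).card := by
  classical
  refine neg_card (fun i : Bool × Fin (N + 1) => hom (x (i.1, (i.2 : ℕ)))) (Pi.single 0 1)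
    (fun i => by rw [nii_hom0]; exact one_pos) 2 ?_ (nii_face x hp) y hy hy0
  rw [Fintype.card_prod, Fintype.card_bool, Fintype.card_fin]
  omega

theorem nii_ne {N : ℕ} {a b : Lab} (h : a ≠ b) (ha : a.2 ≤ N) (hb : b.2 ≤ N) :
    ((a.1, ⟨a.2, Nat.lt_succ_of_le ha⟩) : Bool × Fin (N + 1)) ≠ (b.1, ⟨b.2, Nat.lt_succ_of_le hb⟩) := by
  intro h'
  apply h
  obtain ⟨h1, h2⟩ := Prod.mk.inj h'
  exact Prod.ext h1 (Fin.mk.inj h2)

/-- five different indices, a dependency supported on them -/
theorem nii_five {ι : Type} [Fintype ι] [DecidableEq ι] (v : ι → V)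
    (hneg : ∀ y : ι → ℝ, Dep v y → y ≠ 0 → 3 ≤ (negSet y).card) (a b c d e : ι)
    (hab : a ≠ b) (hac : a ≠ c) (had : a ≠ d) (hae : a ≠ e) (hbc : b ≠ c) (hbd : b ≠ d)
    (hbe : b ≠ e) (hcd : c ≠ d) (hce : c ≠ e) (hde : d ≠ e) (x y z s t : ℝ)
    (h : x • v a + y • v b + z • v c + s • v d + t • v e = 0) :
    x = 0 ∧ y = 0 ∧ z = 0 ∧ s = 0 ∧ t = 0 := by
  set f : ι → ℝ := fun i => (if i = a then x else 0) + (if i = b then y else 0) +
    (if i = c then z else 0) + (if i = d then s else 0) + (if i = e then t else 0) with hf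
  have hD : Dep v f := by
    unfold Dep
    rw [← h]
    simp only [hf, add_smul, Finset.sum_add_distrib, ite_smul, zero_smul, Finset.sum_ite_eq',
      Finset.mem_univ, if_true]
  by_cases hf0 : f = 0
  · have e1 := congrFun hf0 a
    have e2 := congrFun hf0 b
    have e3 := congrFun hf0 c
    have e4 := congrFun hf0 d
    have e5 := congrFun hf0 e
    simp only [hf, hab, hac, had, hae, hbc, hbd, hbe, hcd, hce, hde, hab.symm, hac.symm, had.symm,
      hae.symm, hbc.symm, hbd.symm, hbe.symm, hcd.symm, hce.symm, hde.symm, if_true, if_false,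
      add_zero, zero_add, Pi.zero_apply] at e1 e2 e3 e4 e5
    exact ⟨e1, e2, e3, e4, e5⟩
  · exfalso
    have h1 := hneg f hD hf0
    have h2 := hneg (-f) (by
      unfold Dep at hD ⊢
      simp only [Pi.neg_apply, neg_smul, Finset.sum_neg_distrib, hD, neg_zero])
      (by simpa using hf0)
    have hsupp : ∀ i, f i ≠ 0 → i ∈ ({a, b, c, d, e} : Finset ι) := by
      intro i hi
      by_contra hn
      simp only [Finset.mem_insert, Finset.mem_singleton, not_or] at hn
      apply hi
      simp only [hf, hn, if_false, add_zero]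
    have hsub : negSet f ∪ negSet (-f) ⊆ ({a, b, c, d, e} : Finset ι) := by
      intro i hi
      rw [Finset.mem_union, mem_negSet, mem_negSet] at hi
      apply hsupp
      rcases hi with h3 | h3
      · exact h3.ne
      · rw [Pi.neg_apply] at h3
        intro h4
        rw [h4] at h3
        simp at h3
    have hdis : Disjoint (negSet f) (negSet (-f)) := by
      rw [Finset.disjoint_left]
      intro i h3 h4
      rw [mem_negSet] at h3 h4
      rw [Pi.neg_apply] at h4
      linarith
    have h5 := Finset.card_le_card hsub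
    rw [Finset.card_union_of_disjoint hdis] at h5
    have h6 : ({a, b, c, d, e} : Finset ι).card ≤ 5 := Finset.card_le_five
    omega

theorem ind5_of_pairs {N : ℕ} (hN : 2 ≤ N) (x : Lab → E 5)
    (hp : ∀ a b : Lab, a.2 ≤ N → b.2 ≤ N → a ≠ b → IsFace N x {a, b}) :
    Ind5 N (fun a => hom (x a)) := by
  intro a b c d e hnd ha hb hc hd he x1 x2 x3 x4 x5 hrel
  simp only [List.nodup_cons, List.mem_cons, List.not_mem_nil, or_false, not_or,
    List.nodup_nil, and_true, not_false_eq_true] at hnd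
  obtain ⟨⟨n1, n2, n3, n4⟩, ⟨n5, n6, n7⟩, ⟨n8, n9⟩, n10⟩ := hnd
  exact nii_five (fun i : Bool × Fin (N + 1) => hom (x (i.1, (i.2 : ℕ)))) (nii_neg hN x hp)
    (a.1, ⟨a.2, Nat.lt_succ_of_le ha⟩) (b.1, ⟨b.2, Nat.lt_succ_of_le hb⟩)
    (c.1, ⟨c.2, Nat.lt_succ_of_le hc⟩) (d.1, ⟨d.2, Nat.lt_succ_of_le hd⟩)
    (e.1, ⟨e.2, Nat.lt_succ_of_le he⟩) (nii_ne n1 ha hb) (nii_ne n2 ha hc) (nii_ne n3 ha hd)
    (nii_ne n4 ha he) (nii_ne n5 hb hc) (nii_ne n6 hb hd) (nii_ne n7 hb he) (nii_ne n8 hc hd)
    (nii_ne n9 hc he) (nii_ne n10 hd he) x1 x2 x3 x4 x5 hrel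

end NI
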