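import Mathlib
import Pool.Agent.NI.Defs

/-!
# NI-N: neighborliness

Neighborly P for d = 5: KNeighborly (5/2 = 2): every S ⊆ vertices P with S.ncard = 2 is `vertices F` for an exposed face F.
PROOF. P := hull N x. vertices P ⊆ x '' labs N (extremePoints_convexHull_subset). S = {p, q}, p ≠ q (Set.ncard_eq_two), p = x a,
q = x b with a ≠ b, a.2, b.2 ≤ N. Let f be the functional of hp a b. F := {y ∈ P | f ⬝ᵥ hom y = 0}. f ⬝ᵥ hom ≥ 0 on P (it is
affine and ≥ 0 on the generating points; PolyData.hom_combo), so F is exposed (linear functional y ↦ -Σ_i f (i+1) y i; F is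
nonempty, p ∈ F). vertices F = F ∩ vertices P (F is exposed, hence extreme: IsExtreme.extremePoints_eq or
IsExposed.isExtreme ...). F ∩ vertices P = {p, q}: ⊇ clear (p, q ∈ S ⊆ vertices P); ⊆: a vertex y of P with f ⬝ᵥ hom y = 0 is
y = x c, c.2 ≤ N; if c ∉ {a, b} then f ⬝ᵥ hom (x c) > 0, contradiction; so y ∈ {p, q}.
-/

open Set Matrix

namespace NI

open MPd0c340

lemma nin_hom (f : V) (y : E 5) : f ⬝ᵥ hom y = f 0 + ∑ i : Fin 5, f i.succ * y i := by
  rw [dotProduct, Fin.sum_univ_succ]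
  simp [hom]

lemma nin_combo (f : V) (y z : E 5) {a b : ℝ} (hab : a + b = 1) :
    f ⬝ᵥ hom (a • y + b • z) = a * (f ⬝ᵥ hom y) + b * (f ⬝ᵥ hom z) := by
  rw [nin_hom, nin_hom, nin_hom, mul_add, mul_add, Finset.mul_sum, Finset.mul_sum]
  have h1 : ∑ i : Fin 5, f i.succ * (a • y + b • z) i =
      ∑ i : Fin 5, a * (f i.succ * y i) + ∑ i : Fin 5, b * (f i.succ * z i) := by
    rw [← Finset.sum_add_distrib]
    refine Finset.sum_congr rfl fun i _ => ?_
    simp only [PiLp.add_apply, PiLp.smul_apply, smul_eq_mul]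
    ring
  rw [h1]
  linear_combination -(f 0) * hab

lemma nin_exists (f : V) : ∃ l : StrongDual ℝ (E 5), ∀ y : E 5, l y = f 0 - f ⬝ᵥ hom y := by
  let L : E 5 →ₗ[ℝ] ℝ :=
    { toFun := fun y => -∑ i : Fin 5, f i.succ * y i
      map_add' := fun y z => by
        rw [← neg_add, ← Finset.sum_add_distrib]
        congr 1
        refine Finset.sum_congr rfl fun i _ => ?_
        simp only [PiLp.add_apply]
        ring
      map_smul' := fun c y => by
        simp only [RingHom.id_apply, smul_eq_mul, mul_neg, Finset.mul_sum]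
        congr 1
        refine Finset.sum_congr rfl fun i _ => ?_
        simp only [PiLp.smul_apply, smul_eq_mul]
        ring }
  refine ⟨LinearMap.toContinuousLinearMap L, fun y => ?_⟩
  rw [LinearMap.coe_toContinuousLinearMap', nin_hom]
  change -∑ i : Fin 5, f i.succ * y i = _
  ring


theorem neighborly_of_pairs (N : ℕ) (x : Lab → E 5)
    (hp : ∀ a b : Lab, a.2 ≤ N → b.2 ≤ N → a ≠ b → IsFace N x {a, b}) :
    Neighborly (hull N x) := by
  intro S hS hcard
  obtain ⟨p, q, hpq, rfl⟩ := Set.ncard_eq_two.1 hcard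
  have hsub : vertices (hull N x) ⊆ x '' labs N := extremePoints_convexHull_subset
  have hpv := hS (Set.mem_insert p {q})
  have hqv := hS (Set.mem_insert_of_mem p (Set.mem_singleton q))
  obtain ⟨a, ha, rfl⟩ := hsub hpv
  obtain ⟨b, hb, rfl⟩ := hsub hqv
  have hab : a ≠ b := fun h => hpq (by rw [h])
  obtain ⟨f, hf0, hf1⟩ := hp a b ha hb hab
  have hfa : f ⬝ᵥ hom (x a) = 0 := hf0 a ha (Set.mem_insert a {b})
  have hfb : f ⬝ᵥ hom (x b) = 0 := hf0 b hb (Set.mem_insert_of_mem a (Set.mem_singleton b))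
  have hnonneg : ∀ y ∈ hull N x, 0 ≤ f ⬝ᵥ hom y := by
    have h1 : hull N x ⊆ {y | 0 ≤ f ⬝ᵥ hom y} := by
      refine convexHull_min ?_ ?_
      · rintro _ ⟨c, hc, rfl⟩
        by_cases h2 : c ∈ ({a, b} : Set Lab)
        · exact (hf0 c hc h2).ge
        · exact (hf1 c hc h2).le
      · intro y hy z hz s t hs ht hst
        change 0 ≤ f ⬝ᵥ hom (s • y + t • z)
        rw [nin_combo f y z hst]
        exact add_nonneg (mul_nonneg hs hy) (mul_nonneg ht hz)
    exact fun y hy => h1 hy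
  have haP : x a ∈ hull N x := subset_convexHull ℝ _ ⟨a, ha, rfl⟩
  have hbP : x b ∈ hull N x := subset_convexHull ℝ _ ⟨b, hb, rfl⟩
  let F : Set (E 5) := {y | y ∈ hull N x ∧ f ⬝ᵥ hom y = 0}
  have hF : IsExposed ℝ (hull N x) F := by
    intro _
    obtain ⟨l, hl⟩ := nin_exists f
    refine ⟨l, Set.ext fun y => ?_⟩
    constructor
    · rintro ⟨h1, h2⟩
      refine ⟨h1, fun z hz => ?_⟩
      rw [hl, hl, h2]
      have := hnonneg z hz
      linarith
    · rintro ⟨h1, h2⟩
      refine ⟨h1, le_antisymm ?_ (hnonneg y h1)⟩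
      have h3 := h2 (x a) haP
      rw [hl, hl, hfa] at h3
      linarith
  refine ⟨F, hF, ?_⟩
  have hext : vertices F = F ∩ vertices (hull N x) := hF.isExtreme.extremePoints_eq
  rw [hext]
  ext y
  constructor
  · rintro ⟨⟨_, h1⟩, h2⟩
    obtain ⟨c, hc, rfl⟩ := hsub h2
    by_cases h3 : c ∈ ({a, b} : Set Lab)
    · rcases h3 with rfl | h3
      · exact Set.mem_insert _ _
      · rw [Set.mem_singleton_iff.1 h3]
        exact Set.mem_insert_of_mem _ (Set.mem_singleton _)
    · exact absurd h1 (hf1 c hc h3).ne'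
  · rintro (rfl | h1)
    · exact ⟨⟨haP, hfa⟩, hpv⟩
    · rw [Set.mem_singleton_iff.1 h1]
      exact ⟨⟨hbP, hfb⟩, hqv⟩

end NI
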