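import Mathlib
import Pool.Agent.NI.Defs
import Pool.Agent.NI.Basic
import Pool.Agent.NI.Good
import Pool.Agent.NI.Ind
import Pool.Agent.NI.Block

/-!
# No realization of the type has its vertices on a sphere
-/

open Set Matrix

namespace NI

open MPd0c340

/-- the linear functional `b ⬝ᵥ ·` -/
def dpl (b : V) : V →ₗ[ℝ] ℝ where
  toFun v := b ⬝ᵥ v
  map_add' x y := by simp [dotProduct_add]
  map_smul' r x := by simp [dotProduct_smul]

@[simp] lemma dpl_apply (b v : V) : dpl b v = b ⬝ᵥ v := rfl

/-- the bilinear form of the sphere with centre `c` and radius `r` -/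
noncomputable def sph (c : E 5) (r : ℝ) : V →ₗ[ℝ] V →ₗ[ℝ] ℝ :=
  LinearMap.mk₂ ℝ (fun v v' => ∑ i : Fin 5, (v i.succ - c i * v 0) * (v' i.succ - c i * v' 0)
      - r ^ 2 * v 0 * v' 0)
    (by intro a b v; simp only [Pi.add_apply]; rw [← sub_eq_zero]
        have : ∀ i : Fin 5, ((a i.succ + b i.succ - c i * (a 0 + b 0)) * (v i.succ - c i * v 0)) =
          (a i.succ - c i * a 0) * (v i.succ - c i * v 0) +
          (b i.succ - c i * b 0) * (v i.succ - c i * v 0) := fun i => by ring
        simp only [this, Finset.sum_add_distrib]; ring)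
    (by intro t a v; simp only [Pi.smul_apply, smul_eq_mul]
        rw [mul_sub, Finset.mul_sum]
        congr 1
        · exact Finset.sum_congr rfl fun i _ => by ring
        · ring)
    (by intro v a b; simp only [Pi.add_apply]; rw [← sub_eq_zero]
        have : ∀ i : Fin 5, ((v i.succ - c i * v 0) * (a i.succ + b i.succ - c i * (a 0 + b 0))) =
          (v i.succ - c i * v 0) * (a i.succ - c i * a 0) +
          (v i.succ - c i * v 0) * (b i.succ - c i * b 0) := fun i => by ring
        simp only [this, Finset.sum_add_distrib]; ring)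
    (by intro t v a; simp only [Pi.smul_apply, smul_eq_mul]
        rw [mul_sub, Finset.mul_sum]
        congr 1
        · exact Finset.sum_congr rfl fun i _ => by ring
        · ring)

lemma sph_symm (c : E 5) (r : ℝ) (x y : V) : sph c r x y = sph c r y x := by
  simp only [sph, LinearMap.mk₂_apply]
  congr 1
  · exact Finset.sum_congr rfl fun i _ => by ring
  · ring

lemma sph_hom (c : E 5) (r : ℝ) (x y : E 5) (hx : dist x c = r) (hy : dist y c = r) :
    sph c r (hom x) (hom y) = - dist x y ^ 2 / 2 := by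
  have e1 : dist x c ^ 2 = ∑ i : Fin 5, (x i - c i) ^ 2 := by
    rw [EuclideanSpace.dist_sq_eq]
    exact Finset.sum_congr rfl fun i _ => by rw [Real.dist_eq, sq_abs]
  have e2 : dist y c ^ 2 = ∑ i : Fin 5, (y i - c i) ^ 2 := by
    rw [EuclideanSpace.dist_sq_eq]
    exact Finset.sum_congr rfl fun i _ => by rw [Real.dist_eq, sq_abs]
  have e3 : dist x y ^ 2 = ∑ i : Fin 5, (x i - y i) ^ 2 := by
    rw [EuclideanSpace.dist_sq_eq]
    exact Finset.sum_congr rfl fun i _ => by rw [Real.dist_eq, sq_abs]
  have h0 : ∀ z : E 5, hom z 0 = 1 := fun z => rfl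
  have hs : ∀ (z : E 5) (i : Fin 5), hom z i.succ = z i := fun z i => rfl
  simp only [sph, LinearMap.mk₂_apply, h0, hs, mul_one]
  rw [hx] at e1
  rw [hy] at e2
  have e4 : ∑ i : Fin 5, (x i - y i) ^ 2 = ∑ i : Fin 5, (x i - c i) ^ 2 + ∑ i : Fin 5, (y i - c i) ^ 2
      - 2 * ∑ i : Fin 5, (x i - c i) * (y i - c i) := by
    rw [Finset.mul_sum, ← Finset.sum_add_distrib, ← Finset.sum_sub_distrib]
    exact Finset.sum_congr rfl fun i _ => by ring
  rw [e3, e4]
  linarith

/-- the functional of a face gives a dependency -/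
lemma dep_of_face {N : ℕ} {x : Lab → E 5} {L : Set Lab} (h : IsFace N x L) (z : Lab) (hz : z.2 ≤ N)
    (hzL : z ∉ L) (a b c d e f : Lab) (ha : a ∈ L) (hb : b ∈ L) (hc : c ∈ L) (hd : d ∈ L)
    (he : e ∈ L) (hf : f ∈ L) (ha' : a.2 ≤ N) (hb' : b.2 ≤ N) (hc' : c.2 ≤ N) (hd' : d.2 ≤ N)
    (he' : e.2 ≤ N) (hf' : f.2 ≤ N) (s : Lab → ℝ) :
    Dep6 (s a • hom (x a)) (s b • hom (x b)) (s c • hom (x c)) (s d • hom (x d)) (s e • hom (x e))
      (s f • hom (x f)) := by
  obtain ⟨g, h1, h2⟩ := h
  refine dep6_of_functional (dpl g) ?_ ?_ ?_ ?_ ?_ ?_ ?_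
  · intro h0
    have h3 := h2 z hz hzL
    have h4 : dpl g (hom (x z)) = 0 := by rw [h0]; rfl
    rw [dpl_apply] at h4
    linarith
  all_goals
    rw [map_smul, dpl_apply, h1 _ ‹_› ‹_›, smul_zero]

/-- NI-S -/
theorem no_sphere (x : Lab → E 5) (hx : Typ NN x) (c : E 5) (r : ℝ)
    (hr : ∀ a : Lab, a.2 ≤ NN → dist (x a) c = r) : False := by
  obtain ⟨bY, hY1, hY2⟩ := hx.fY
  obtain ⟨bZ, hZ1, hZ2⟩ := hx.fZ
  -- scalars
  set sc : Lab → ℝ := fun a => if a.1 then (bY ⬝ᵥ hom (x a))⁻¹ else (bZ ⬝ᵥ hom (x a))⁻¹ with hsc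
  have hYt : ∀ j ≤ NN, 0 < bY ⬝ᵥ hom (x (true, j)) := fun j hj => hY2 (true, j) hj (by simp)
  have hZf : ∀ j ≤ NN, 0 < bZ ⬝ᵥ hom (x (false, j)) := fun j hj => hZ2 (false, j) hj (by simp)
  have hYf : ∀ j ≤ NN, bY ⬝ᵥ hom (x (false, j)) = 0 := fun j hj => hY1 (false, j) hj rfl
  have hZt : ∀ j ≤ NN, bZ ⬝ᵥ hom (x (true, j)) = 0 := fun j hj => hZ1 (true, j) hj rfl
  have hscpos : ∀ a : Lab, a.2 ≤ NN → 0 < sc a := by
    rintro ⟨b, j⟩ hj
    cases b
    · exact inv_pos.2 (hZf j hj)
    · exact inv_pos.2 (hYt j hj)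
  set P : Lab → V := fun a => sc a • hom (x a) with hP
  obtain ⟨m, hm, hmN, hma, hmb⟩ := good_block (fun j => P (false, j)) (fun j => P (true, j)) NN
    (by norm_num [NN])
    (by
      intro i k hik hk h1 h2
      refine dep_of_face (hx.fa i k hik hk h1 h2) (true, i) (by show i ≤ NN; omega) ?_
        (false, i) (false, i + 1) (true, i + 1) (false, k) (false, k + 1) (true, k)
        ?_ ?_ ?_ ?_ ?_ ?_ ?_ ?_ ?_ ?_ ?_ ?_ sc
      · simp [setA]; omega
      all_goals first | (simp [setA]; done) | (show _ ≤ NN; simp only []; omega))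
    (by
      intro i k hik hk h1 h2
      refine dep_of_face (hx.fb i k hik hk h1 h2) (false, i + 1) (by show i + 1 ≤ NN; omega) ?_
        (false, i) (true, i) (true, i + 1) (true, k) (true, k + 1) (false, k + 1)
        ?_ ?_ ?_ ?_ ?_ ?_ ?_ ?_ ?_ ?_ ?_ ?_ sc
      · simp [setB]; omega
      all_goals first | (simp [setB]; done) | (show _ ≤ NN; simp only []; omega))
  have hind := ind5_of_pairs (N := NN) (by norm_num [NN]) x hx.pair
  have h50 : ∀ j, 1 ≤ j → j ≤ 49 → ¬ 50 ∣ m + j := by
    intro j h1 h2 h3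
    omega
  -- the block
  have hB : Blk 49 (fun j => P (false, m + j)) (fun j => P (true, m + j)) (dpl bY) (dpl bZ) := by
    refine ⟨?_, ?_, ?_, ?_, ?_, ?_, ?_, ?_, ?_, ?_⟩
    · intro j hj
      simp only [hP, map_smul, dpl_apply]
      rw [hYf _ (by omega), smul_zero]
    · intro j hj
      simp only [hP, map_smul, dpl_apply, hsc, if_true, smul_eq_mul]
      exact inv_mul_cancel₀ (hYt _ (by omega)).ne'
    · intro j hj
      simp only [hP, map_smul, dpl_apply, hsc, smul_eq_mul]
      exact inv_mul_cancel₀ (hZf _ (by omega)).ne'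
    · intro j hj
      simp only [hP, map_smul, dpl_apply]
      rw [hZt _ (by omega), smul_zero]
    · intro a b c' d e hn ha hb hc hd he x1 x2 x3 x4 x5 h0
      have hpt : ∀ q : Lab, pt (fun j => P (false, m + j)) (fun j => P (true, m + j)) q =
          sc (q.1, m + q.2) • hom (x (q.1, m + q.2)) := by
        rintro ⟨q1, q2⟩
        cases q1 <;> rfl
      rw [hpt, hpt, hpt, hpt, hpt] at h0
      simp only [smul_smul] at h0
      have hn' : [(a.1, m + a.2), (b.1, m + b.2), (c'.1, m + c'.2), (d.1, m + d.2),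
          (e.1, m + e.2)].Nodup := by
        have : Function.Injective (fun q : Lab => (q.1, m + q.2)) := by
          rintro ⟨q1, q2⟩ ⟨q3, q4⟩ hq
          simp only [Prod.mk.injEq, add_right_inj] at hq
          simp [hq.1, hq.2]
        exact List.Nodup.map this hn
      have := hind (a.1, m + a.2) (b.1, m + b.2) (c'.1, m + c'.2) (d.1, m + d.2) (e.1, m + e.2) hn'
        (by show m + a.2 ≤ NN; omega) (by show m + b.2 ≤ NN; omega) (by show m + c'.2 ≤ NN; omega)
        (by show m + d.2 ≤ NN; omega) (by show m + e.2 ≤ NN; omega) _ _ _ _ _ h0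
      obtain ⟨t1, t2, t3, t4, t5⟩ := this
      have hne : ∀ q : Lab, q.2 ≤ 49 → sc (q.1, m + q.2) ≠ 0 := fun q hq =>
        (hscpos (q.1, m + q.2) (by show m + q.2 ≤ NN; omega)).ne'
      refine ⟨?_, ?_, ?_, ?_, ?_⟩
      · exact (mul_eq_zero.1 t1).resolve_right (hne a ha)
      · exact (mul_eq_zero.1 t2).resolve_right (hne b hb)
      · exact (mul_eq_zero.1 t3).resolve_right (hne c' hc)
      · exact (mul_eq_zero.1 t4).resolve_right (hne d hd)
      · exact (mul_eq_zero.1 t5).resolve_right (hne e he)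
    · intro i k _ hi hk
      exact hma i k hi hk
    · intro i k h1 _ hi hk
      exact hmb i k h1 hi hk
    · intro i k hik hk
      obtain ⟨g, g1, g2⟩ := hx.fa (m + i) (m + k) (by omega) (by omega)
        (h50 (i + 1) (by omega) (by omega)) (h50 (k + 1) (by omega) (by omega))
      refine ⟨dpl g, ?_, ?_, ?_, ?_, ?_, ?_, ?_, ?_⟩
      · simp only [hP, map_smul, dpl_apply]
        rw [g1 (false, m + i) (by show m + i ≤ NN; omega) (by simp [setA]), smul_zero]
      · simp only [hP, map_smul, dpl_apply]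
        rw [g1 (false, m + (i + 1)) (by show m + (i + 1) ≤ NN; omega) (by simp [setA]; omega), smul_zero]
      · simp only [hP, map_smul, dpl_apply]
        rw [g1 (true, m + (i + 1)) (by show m + (i + 1) ≤ NN; omega) (by simp [setA]; omega), smul_zero]
      · simp only [hP, map_smul, dpl_apply]
        rw [g1 (false, m + k) (by show m + k ≤ NN; omega) (by simp [setA]), smul_zero]
      · simp only [hP, map_smul, dpl_apply]
        rw [g1 (false, m + (k + 1)) (by show m + (k + 1) ≤ NN; omega) (by simp [setA]; omega), smul_zero]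
      · simp only [hP, map_smul, dpl_apply]
        rw [g1 (true, m + k) (by show m + k ≤ NN; omega) (by simp [setA]), smul_zero]
      · intro j hj h1 h2 h3 h4
        simp only [hP, map_smul, dpl_apply, smul_eq_mul]
        have := g2 (false, m + j) (by show m + j ≤ NN; omega) (by simp [setA]; omega)
        exact (mul_pos (hscpos (false, m + j) (by show m + j ≤ NN; omega)) this).ne'
      · intro j hj h1 h2
        simp only [hP, map_smul, dpl_apply, smul_eq_mul]
        have := g2 (true, m + j) (by show m + j ≤ NN; omega) (by simp [setA]; omega)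
        exact (mul_pos (hscpos (true, m + j) (by show m + j ≤ NN; omega)) this).ne'
    · intro i k hi hik hk
      obtain ⟨g, g1, g2⟩ := hx.fb (m + i) (m + k) (by omega) (by omega)
        (h50 i (by omega) (by omega)) (h50 (k + 1) (by omega) (by omega))
      refine ⟨dpl g, ?_, ?_, ?_, ?_, ?_, ?_, ?_, ?_⟩
      · simp only [hP, map_smul, dpl_apply]
        rw [g1 (false, m + i) (by show m + i ≤ NN; omega) (by simp [setB]), smul_zero]
      · simp only [hP, map_smul, dpl_apply]
        rw [g1 (true, m + i) (by show m + i ≤ NN; omega) (by simp [setB]), smul_zero]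
      · simp only [hP, map_smul, dpl_apply]
        rw [g1 (true, m + (i + 1)) (by show m + (i + 1) ≤ NN; omega) (by simp [setB]; omega), smul_zero]
      · simp only [hP, map_smul, dpl_apply]
        rw [g1 (true, m + k) (by show m + k ≤ NN; omega) (by simp [setB]), smul_zero]
      · simp only [hP, map_smul, dpl_apply]
        rw [g1 (true, m + (k + 1)) (by show m + (k + 1) ≤ NN; omega) (by simp [setB]; omega), smul_zero]
      · simp only [hP, map_smul, dpl_apply]
        rw [g1 (false, m + (k + 1)) (by show m + (k + 1) ≤ NN; omega) (by simp [setB]; omega), smul_zero]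
      · intro j hj h1 h2
        simp only [hP, map_smul, dpl_apply, smul_eq_mul]
        have := g2 (false, m + j) (by show m + j ≤ NN; omega) (by simp [setB]; omega)
        exact (mul_pos (hscpos (false, m + j) (by show m + j ≤ NN; omega)) this).ne'
      · intro j hj h1 h2 h3 h4
        simp only [hP, map_smul, dpl_apply, smul_eq_mul]
        have := g2 (true, m + j) (by show m + j ≤ NN; omega) (by simp [setB]; omega)
        exact (mul_pos (hscpos (true, m + j) (by show m + j ≤ NN; omega)) this).ne'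
    · intro k hk2 hk
      obtain ⟨g, g1, g2⟩ := hx.f0 m (m + k) (by omega) (by omega) hm
        (h50 (k + 1) (by omega) (by omega))
      refine ⟨dpl g, ?_, ?_, ?_, ?_, ?_, ?_⟩
      · simp only [hP, map_smul, dpl_apply]
        rw [g1 (true, m + 0) (by show m + 0 ≤ NN; omega) (by simp [set0]), smul_zero]
      · simp only [hP, map_smul, dpl_apply]
        rw [g1 (true, m + 1) (by show m + 1 ≤ NN; omega) (by simp [set0]), smul_zero]
      · simp only [hP, map_smul, dpl_apply]
        rw [g1 (true, m + k) (by show m + k ≤ NN; omega) (by simp [set0]), smul_zero]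
      · simp only [hP, map_smul, dpl_apply]
        rw [g1 (true, m + (k + 1)) (by show m + (k + 1) ≤ NN; omega) (by simp [set0]; omega), smul_zero]
      · simp only [hP, map_smul, dpl_apply]
        rw [g1 (false, m + (k + 1)) (by show m + (k + 1) ≤ NN; omega) (by simp [set0]; omega), smul_zero]
      · simp only [hP, map_smul, dpl_apply, smul_eq_mul]
        have := g2 (false, m + 0) (by show m + 0 ≤ NN; omega) (by simp [set0]; omega)
        exact (mul_pos (hscpos (false, m + 0) (by show m + 0 ≤ NN; omega)) this).ne'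
  -- distinct points
  have hdist : x (false, m) ≠ x (false, m + 1) := by
    intro h
    obtain ⟨g, g1, g2⟩ := hx.pair (false, m) (true, m) (by show m ≤ NN; omega)
      (by show m ≤ NN; omega) (by simp)
    have e1 := g1 (false, m) (by show m ≤ NN; omega) (by simp)
    have e2 := g2 (false, m + 1) (by show m + 1 ≤ NN; omega) (by simp)
    rw [h] at e1
    linarith
  refine block_false (by norm_num) hB (sph c r) (sph_symm c r) ?_ ?_
  · intro j hj
    simp only [hP, map_smul, LinearMap.smul_apply]
    rw [sph_hom c r _ _ (hr _ (by show m + j ≤ NN; omega)) (hr _ (by show m + j ≤ NN; omega))]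
    simp
  · simp only [hP, map_smul, LinearMap.smul_apply, smul_eq_mul, add_zero]
    rw [sph_hom c r _ _ (hr _ (by show m ≤ NN; omega)) (hr _ (by show m + 1 ≤ NN; omega))]
    have h1 := hscpos (false, m) (by show m ≤ NN; omega)
    have h2 := hscpos (false, m + 1) (by show m + 1 ≤ NN; omega)
    have h3 : 0 < dist (x (false, m)) (x (false, m + 1)) := dist_pos.2 hdist
    have h4 : 0 < dist (x (false, m)) (x (false, m + 1)) ^ 2 := by positivity
    have h5 : -dist (x (false, m)) (x (false, m + 1)) ^ 2 / 2 ≠ 0 := by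
      have : -dist (x (false, m)) (x (false, m + 1)) ^ 2 / 2 < 0 := by linarith
      exact this.ne
    exact mul_ne_zero h2.ne' (mul_ne_zero h1.ne' h5)

end NI
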