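import Mathlib
import Pool.Agent.NI.Defs
import Pool.Agent.MP_d0c340_co.PolyData

/-!
# NI-X: transfer to a combinatorially equivalent polytope

Definitions (Pool/Agent/MP_d0c340_co/Defs.lean): Faces P = all exposed faces (incl. ∅ and P), ordered by inclusion;
vertices = extreme points. Useful: Pool/Agent/MP_d0c340_co/PolyData.lean (vertices_finite, convexHull_vertices, hom_combo, and
the proof of face_functional: from an exposed face F of P (nonempty) with point x0 the functional α with
α ⬝ᵥ hom y = l x0 - l y).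

PROOF. Let P := hull N x, S := x '' labs N (finite).
(0) For a polytope R (IsPolytope): (i) R is compact convex; (ii) vertices R is finite and R = convexHull (vertices R);
   (iii) every vertex v is an exposed point: IsExposed ℝ R {v} (v ∉ convexHull (vertices R \ {v}) since v is extreme
   [if it were, then v would be a convex combination of other points of R]; this hull is compact convex; geometric_hahn_banach
   gives l with l v > l y for all y ∈ vertices R \ {v}, hence l v > l y for all y ∈ R, y ≠ v); (iv) every nonempty exposed face F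
   contains a vertex of R (F compact convex nonempty has an extreme point; F is extreme in R), and F is the convex hull of
   F ∩ vertices R; so F is determined by F ∩ vertices R, and F ⊆ G iff F ∩ vertices R ⊆ G ∩ vertices R.
(1) Let φ : Faces P ≃o Faces Q. ⊥ = ∅ ↦ ∅. The atoms of Faces R are exactly the {v}, v ∈ vertices R (by (iii), (iv)). So φ
   induces a bijection σ : vertices P → vertices Q, φ {v} = {σ v}; for an exposed face F of P: v ∈ F ↔ {v} ≤ F ↔ {σ v} ≤ φ F ↔
   σ v ∈ φ F. Hence (φ F) ∩ vertices Q = σ '' (F ∩ vertices P).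
(2) vertices P = x '' labs N, x injective on labs N: ⊆ since extreme points of a hull are in the generating set
   (extremePoints_convexHull_subset). ⊇ and injectivity from hp: for a label a choose two other labels b ≠ c (N may be 0? then
   labs 0 = {(false,0),(true,0)}: use the functional of hp a b only: its zero set on P is the segment [x a, x b]; the point
   x a is extreme in P: general argument below): the functional f_ab of hp a b is ≥ 0 on P with zero set exactly
   convexHull {x a, x b} =: segment, an exposed face; x a ≠ x b [if x a = x b, take c another label: f_ac kills x a and is > 0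
   on x b; if N = 0 there is no other label, but then P would be a point or a segment, contradicting IsPolytope (interior
   nonempty in ℝ^5); in fact IsPolytope gives at least 6 vertices, so 2(N+1) ≥ 6]. So x a is an end point of an exposed segment,
   hence an extreme point of P.
(3) x' a := σ (x a). vertices Q = σ '' vertices P = x' '' labs N. For a label set L with some a ∈ L ∩ labs N and IsFace N x L with
   functional b: F := {y ∈ P | b ⬝ᵥ hom y = 0} is exposed (b ⬝ᵥ hom ≥ 0 on P; use the continuous linear functional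
   y ↦ -(Σ b_{i+1} y_i)), contains x a, and F ∩ vertices P = x '' (L ∩ labs N). So φ F ∩ vertices Q = x' '' (L ∩ labs N); φ F is
   exposed and nonempty; take its functional α (as in face_functional): α ⬝ᵥ hom y = l y0 - l y, y0 ∈ φ F, zero exactly on φ F,
   positive on Q \ φ F. For a ∈ labs N: a ∈ L → x' a ∈ φ F → 0; a ∉ L → x a ∉ F (b ⬝ᵥ hom (x a) > 0) → σ (x a) ∉ φ F → positive.
-/

open Set Matrix

namespace NI

open MPd0c340

/-- an exposed face as an element of the face lattice -/
private def nixMk {d : ℕ} {R : Set (E d)} (F : Set (E d)) (hF : IsExposed ℝ R F) : Faces R :=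
  ⟨F, hF⟩

private def nixS {d : ℕ} {R : Set (E d)} (F : Faces R) : Set (E d) := F.1

private theorem nixS_mk {d : ℕ} {R : Set (E d)} (F : Set (E d)) (hF : IsExposed ℝ R F) :
    nixS (nixMk F hF) = F := rfl

private theorem nix_exp {d : ℕ} {R : Set (E d)} (F : Faces R) : IsExposed ℝ R (nixS F) := F.2

private theorem nix_le {d : ℕ} {R : Set (E d)} {F G : Faces R} : F ≤ G ↔ nixS F ⊆ nixS G :=
  Iff.rfl

private theorem nix_ext {d : ℕ} {R : Set (E d)} {F G : Faces R} (h : nixS F = nixS G) : F = G :=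
  Subtype.ext h

private theorem nix_compact {d : ℕ} {R : Set (E d)} (hR : IsPolytope R) : IsCompact R := by
  obtain ⟨⟨S, hSf, rfl⟩, -⟩ := hR
  exact hSf.isCompact_convexHull ℝ

private theorem nix_convex {d : ℕ} {R : Set (E d)} (hR : IsPolytope R) : Convex ℝ R := by
  obtain ⟨⟨S, hSf, rfl⟩, -⟩ := hR
  exact convex_convexHull ℝ S

private theorem nix_face_eq {d : ℕ} {R F : Set (E d)} (hR : IsPolytope R)
    (hF : IsExposed ℝ R F) : convexHull ℝ (F ∩ vertices R) = F := by
  have h1 : F.extremePoints ℝ = F ∩ R.extremePoints ℝ := hF.isExtreme.extremePoints_eq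
  have h2 := closure_convexHull_extremePoints (hF.isCompact (nix_compact hR))
    (hF.convex (nix_convex hR))
  rw [h1] at h2
  have h3 : (F ∩ vertices R).Finite := (vertices_finite R hR).subset inter_subset_right
  have h4 : IsClosed (convexHull ℝ (F ∩ vertices R)) := h3.isClosed_convexHull ℝ
  exact h4.closure_eq.symm.trans h2

private theorem nix_face_vertex {d : ℕ} {R F : Set (E d)} (hR : IsPolytope R)
    (hF : IsExposed ℝ R F) (hne : F.Nonempty) : (F ∩ vertices R).Nonempty := by
  rw [← nix_face_eq hR hF] at hne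
  exact convexHull_nonempty_iff.mp hne

/-- vertices are exposed -/
private theorem nix_exposed {d : ℕ} {R : Set (E d)} (hR : IsPolytope R) {v : E d}
    (hv : v ∈ vertices R) : IsExposed ℝ R {v} := by
  set C := convexHull ℝ (vertices R \ {v}) with hC
  have hVR : vertices R ⊆ R := extremePoints_subset
  have hCR : C ⊆ R := convexHull_min (sdiff_subset.trans hVR) (nix_convex hR)
  have hvC : v ∉ C := by
    intro h
    have h1 : v ∈ C.extremePoints ℝ :=
      inter_extremePoints_subset_extremePoints_of_subset hCR ⟨h, hv⟩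
    have h2 := extremePoints_convexHull_subset h1
    exact h2.2 rfl
  have hCc : IsClosed C := ((vertices_finite R hR).subset sdiff_subset).isClosed_convexHull ℝ
  obtain ⟨l, r, hl1, hl2⟩ := geometric_hahn_banach_closed_point (convex_convexHull ℝ _) hCc hvC
  have hmax : ∀ y ∈ R, l y ≤ l v := by
    intro y hy
    rw [← convexHull_vertices R hR] at hy
    refine convexHull_min (t := {y | l y ≤ l v}) ?_ ?_ hy
    · intro w hw
      by_cases hwv : w = v
      · rw [hwv]; exact le_refl (l v)
      · exact (hl1 w (subset_convexHull ℝ _ ⟨hw, hwv⟩)).le.trans hl2.le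
    · exact convex_halfSpace_le l.isLinear (l v)
  have hG : IsExposed ℝ R {x | x ∈ R ∧ ∀ y ∈ R, l y ≤ l x} := fun _ => ⟨l, rfl⟩
  have hGv : {x | x ∈ R ∧ ∀ y ∈ R, l y ≤ l x} ∩ vertices R = {v} := by
    ext w
    constructor
    · rintro ⟨⟨hw1, hw2⟩, hw3⟩
      by_contra hwv
      have h1 := hl1 w (subset_convexHull ℝ _ ⟨hw3, hwv⟩)
      have h2 := hw2 v (hVR hv)
      linarith
    · rintro rfl
      exact ⟨⟨hVR hv, hmax⟩, hv⟩
  have h1 := nix_face_eq hR hG
  rw [hGv, convexHull_singleton] at h1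
  rw [h1]
  exact hG

private theorem nix_vert_map {d : ℕ} {R R' : Set (E d)} (hR : IsPolytope R) (hR' : IsPolytope R')
    (φ : Faces R ≃o Faces R') {v : E d} (hv : v ∈ vertices R) :
    ∃ w ∈ vertices R', nixS (φ (nixMk {v} (nix_exposed hR hv))) = {w} := by
  set G := φ (nixMk {v} (nix_exposed hR hv)) with hG
  have hemp : IsExposed ℝ R (∅ : Set (E d)) := fun h => absurd h (by simp)
  have hemp' : IsExposed ℝ R' (∅ : Set (E d)) := fun h => absurd h (by simp)
  have hne : (nixS G).Nonempty := by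
    by_contra hcon
    rw [not_nonempty_iff_eq_empty] at hcon
    have h1 : G ≤ φ (nixMk ∅ hemp) := by
      rw [nix_le, hcon]
      exact empty_subset _
    rw [hG, φ.le_iff_le, nix_le, nixS_mk, nixS_mk] at h1
    exact h1 rfl
  obtain ⟨w, hwG, hwV⟩ := nix_face_vertex hR' (nix_exp G) hne
  refine ⟨w, hwV, ?_⟩
  set W : Faces R' := nixMk {w} (nix_exposed hR' hwV) with hW
  have h1 : W ≤ G := by
    rw [nix_le, hW, nixS_mk]
    exact singleton_subset_iff.mpr hwG
  have h2 : φ.symm W ≤ nixMk {v} (nix_exposed hR hv) := by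
    have h3 := φ.symm.monotone h1
    rw [hG, φ.symm_apply_apply] at h3
    exact h3
  rw [nix_le, nixS_mk] at h2
  rcases subset_singleton_iff_eq.mp h2 with h4 | h4
  · exfalso
    have h5 : φ.symm W ≤ φ.symm (nixMk ∅ hemp') := by
      rw [nix_le, h4]
      exact empty_subset _
    rw [φ.symm.le_iff_le, nix_le, hW, nixS_mk, nixS_mk] at h5
    exact h5 rfl
  · have h5 : φ.symm W = nixMk {v} (nix_exposed hR hv) := nix_ext h4
    have h6 : W = G := by
      rw [hG, ← h5, φ.apply_symm_apply]
    rw [← h6, hW, nixS_mk]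

private theorem nix_dot {d : ℕ} (b : Fin (d + 1) → ℝ) :
    ∃ l : E d →L[ℝ] ℝ, ∀ y : E d, b ⬝ᵥ hom y = b 0 - l y := by
  refine ⟨∑ i : Fin d, (-(b i.succ)) • (EuclideanSpace.proj i : E d →L[ℝ] ℝ), fun y => ?_⟩
  rw [dotProduct, Fin.sum_univ_succ]
  simp only [PolyData.hom_zero, PolyData.hom_succ, mul_one]
  rw [_root_.sum_apply]
  simp only [_root_.smul_apply, smul_eq_mul, neg_mul, Finset.sum_neg_distrib,
    sub_neg_eq_add]
  rfl

/-- the zero set of a nonnegative affine function is an exposed face -/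
private theorem nix_zero_exposed {d : ℕ} {R : Set (E d)} (b : Fin (d + 1) → ℝ)
    (hb : ∀ y ∈ R, 0 ≤ b ⬝ᵥ hom y) : IsExposed ℝ R {y | y ∈ R ∧ b ⬝ᵥ hom y = 0} := by
  rintro ⟨y₀, hy₀, hy₀0⟩
  obtain ⟨l, hl⟩ := nix_dot b
  refine ⟨l, ?_⟩
  ext y
  constructor
  · rintro ⟨hy, hy0⟩
    refine ⟨hy, fun z hz => ?_⟩
    have h1 := hb z hz
    rw [hl] at h1 hy0
    linarith
  · rintro ⟨hy, hmax⟩
    refine ⟨hy, ?_⟩
    have h1 := hmax y₀ hy₀
    have h2 := hb y hy
    rw [hl] at h2 hy₀0 ⊢
    linarith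

/-- functional of an exposed face -/
private theorem nix_functional {d : ℕ} {R G : Set (E d)} (hG : IsExposed ℝ R G)
    (hne : G.Nonempty) : ∃ α : Fin (d + 1) → ℝ, (∀ x ∈ G, α ⬝ᵥ hom x = 0) ∧
      ∀ x ∈ R, x ∉ G → 0 < α ⬝ᵥ hom x := by
  obtain ⟨l, hl⟩ := hG hne
  obtain ⟨x0, hx0⟩ := hne
  have hx0' : x0 ∈ R ∧ ∀ y ∈ R, l y ≤ l x0 := by
    rw [hl] at hx0
    exact hx0
  obtain ⟨α, hα⟩ : ∃ α : Fin (d + 1) → ℝ, ∀ x : E d, α ⬝ᵥ hom x = l x0 - l x := by
    refine ⟨Fin.cons (l x0) (fun i => - l (EuclideanSpace.single i 1)), fun x => ?_⟩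
    rw [dotProduct, Fin.sum_univ_succ]
    simp only [PolyData.hom_zero, PolyData.hom_succ, Fin.cons_zero, Fin.cons_succ, mul_one]
    have hx : l x = ∑ i, l (EuclideanSpace.single i (1 : ℝ)) * x i := by
      conv_lhs => rw [← (EuclideanSpace.basisFun (Fin d) ℝ).sum_repr x]
      rw [map_sum]
      refine Finset.sum_congr rfl fun i _ => ?_
      rw [map_smul, smul_eq_mul, mul_comm]
      simp [EuclideanSpace.basisFun_apply]
    rw [hx, sub_eq_add_neg, ← Finset.sum_neg_distrib]
    simp
  refine ⟨α, fun x hx => ?_, fun x hx hxG => ?_⟩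
  · rw [hα]
    have hx' := hx
    rw [hl] at hx'
    have h1 := hx'.2 x0 hx0'.1
    have h2 := hx0'.2 x hx'.1
    linarith
  · rw [hα]
    have h2 := hx0'.2 x hx
    rcases h2.lt_or_eq with h3 | h3
    · linarith
    · exfalso
      apply hxG
      rw [hl]
      exact ⟨hx, fun y hy => by rw [h3]; exact hx0'.2 y hy⟩

private theorem nix_nonneg {N : ℕ} {x : Lab → E 5} {L : Set Lab} {b : V}
    (h1 : ∀ a : Lab, a.2 ≤ N → a ∈ L → b ⬝ᵥ hom (x a) = 0)
    (h2 : ∀ a : Lab, a.2 ≤ N → a ∉ L → 0 < b ⬝ᵥ hom (x a)) :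
    ∀ y ∈ hull N x, 0 ≤ b ⬝ᵥ hom y := by
  intro y hy
  obtain ⟨l, hl⟩ := nix_dot b
  have h3 : hull N x ⊆ {y | l y ≤ b 0} := by
    refine convexHull_min ?_ (convex_halfSpace_le l.isLinear (b 0))
    rintro _ ⟨a, ha, rfl⟩
    show l (x a) ≤ b 0
    by_cases haL : a ∈ L
    · have := h1 a ha haL
      rw [hl] at this
      linarith
    · have := h2 a ha haL
      rw [hl] at this
      linarith
  have h4 : l y ≤ b 0 := h3 hy
  rw [hl]
  linarith

private theorem nix_vertex {N : ℕ} {x : Lab → E 5}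
    (hp : ∀ a b : Lab, a.2 ≤ N → b.2 ≤ N → a ≠ b → IsFace N x {a, b})
    (hP : IsPolytope (hull N x)) {a : Lab} (ha : a.2 ≤ N) : x a ∈ vertices (hull N x) := by
  by_contra hcon
  set b : Lab := (!a.1, a.2) with hb
  have hab : a ≠ b := by
    intro h
    have h1 := congrArg Prod.fst h
    simp [hb] at h1
  obtain ⟨f, hf1, hf2⟩ := hp a b ha ha hab
  have hnn := nix_nonneg hf1 hf2
  have hF := nix_zero_exposed f hnn
  set F := {y | y ∈ hull N x ∧ f ⬝ᵥ hom y = 0} with hFdef
  have hxa : x a ∈ F := by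
    refine ⟨subset_convexHull ℝ _ ⟨a, ha, rfl⟩, hf1 a ha (by simp)⟩
  have hsub : F ∩ vertices (hull N x) ⊆ {x b} := by
    rintro y ⟨⟨hy1, hy2⟩, hy3⟩
    obtain ⟨c, hc, rfl⟩ := extremePoints_convexHull_subset hy3
    by_cases hcab : c ∈ ({a, b} : Set Lab)
    · rcases hcab with h | h
      · rw [h] at hy3
        exact absurd hy3 hcon
      · rw [mem_singleton_iff] at h
        rw [h]
        exact rfl
    · have := hf2 c hc hcab
      linarith
  have h1 : x a ∈ convexHull ℝ (F ∩ vertices (hull N x)) := by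
    rw [nix_face_eq hP hF]
    exact hxa
  have h2 : (F ∩ vertices (hull N x)).Nonempty := nix_face_vertex hP hF ⟨x a, hxa⟩
  have h3 : x a = x b := by
    have := convexHull_mono hsub h1
    rw [convexHull_singleton] at this
    exact this
  obtain ⟨y, hy⟩ := h2
  have h4 : y = x b := hsub hy
  apply hcon
  rw [h3, ← h4]
  exact hy.2

theorem transfer (N : ℕ) (x : Lab → E 5)
    (hp : ∀ a b : Lab, a.2 ≤ N → b.2 ≤ N → a ≠ b → IsFace N x {a, b})
    (hP : IsPolytope (hull N x)) (Q : Set (E 5)) (hQ : IsPolytope Q) (h : CombEquiv (hull N x) Q) :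
    ∃ x' : Lab → E 5, vertices Q = x' '' labs N ∧
      ∀ L : Set Lab, (∃ a ∈ L, a.2 ≤ N) → IsFace N x L → IsFace N x' L := by
  obtain ⟨φ⟩ := h
  have hvx : ∀ a : Lab, a.2 ≤ N → x a ∈ vertices (hull N x) := fun a ha => nix_vertex hp hP ha
  have hmap : ∀ a : Lab, ∃ w : E 5, ∀ ha : a.2 ≤ N, w ∈ vertices Q ∧
      nixS (φ (nixMk {x a} (nix_exposed hP (hvx a ha)))) = {w} := by
    intro a
    by_cases ha : a.2 ≤ N
    · obtain ⟨w, hw1, hw2⟩ := nix_vert_map hP hQ φ (hvx a ha)
      exact ⟨w, fun _ => ⟨hw1, hw2⟩⟩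
    · exact ⟨0, fun h => absurd h ha⟩
  choose x' hx' using hmap
  refine ⟨x', ?_, ?_⟩
  · ext w
    constructor
    · intro hw
      obtain ⟨v, hv, hv2⟩ := nix_vert_map hQ hP φ.symm hw
      obtain ⟨a, ha, rfl⟩ := extremePoints_convexHull_subset hv
      refine ⟨a, ha, ?_⟩
      have h1 : φ.symm (nixMk {w} (nix_exposed hQ hw)) =
          nixMk {x a} (nix_exposed hP (hvx a ha)) := nix_ext hv2
      have h2 := (hx' a ha).2
      rw [← h1, φ.apply_symm_apply, nixS_mk] at h2
      have h3 : w ∈ ({x' a} : Set (E 5)) := by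
        rw [← h2]
        exact rfl
      exact h3.symm
    · rintro ⟨a, ha, rfl⟩
      exact (hx' a ha).1
  · rintro L ⟨a₀, ha₀L, ha₀⟩ ⟨b, hb1, hb2⟩
    have hnn := nix_nonneg hb1 hb2
    have hF := nix_zero_exposed b hnn
    set F : Faces (hull N x) := nixMk {y | y ∈ hull N x ∧ b ⬝ᵥ hom y = 0} hF with hFdef
    have hmem : ∀ a : Lab, a.2 ≤ N → (x' a ∈ nixS (φ F) ↔ a ∈ L) := by
      intro a ha
      have h2 : φ (nixMk {x a} (nix_exposed hP (hvx a ha))) ≤ φ F ↔
          (nixMk {x a} (nix_exposed hP (hvx a ha)) : Faces (hull N x)) ≤ F := φ.le_iff_le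
      rw [nix_le, nix_le, (hx' a ha).2, singleton_subset_iff, nixS_mk, singleton_subset_iff] at h2
      rw [h2, hFdef, nixS_mk]
      constructor
      · rintro ⟨_, h2⟩
        by_contra haL
        have := hb2 a ha haL
        linarith
      · intro haL
        exact ⟨subset_convexHull ℝ _ ⟨a, ha, rfl⟩, hb1 a ha haL⟩
    obtain ⟨α, hα1, hα2⟩ := nix_functional (nix_exp (φ F)) ⟨x' a₀, (hmem a₀ ha₀).mpr ha₀L⟩
    refine ⟨α, fun a ha haL => hα1 _ ((hmem a ha).mpr haL), fun a ha haL => ?_⟩
    refine hα2 _ (extremePoints_subset (hx' a ha).1) ?_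
    intro h1
    exact haL ((hmem a ha).mp h1)

end NI
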