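import Mathlib
import Pool.Agent.NI.Defs
import Pool.Agent.NI.Sphere
import Pool.Agent.NI.Transfer
import Pool.Agent.NI.Neigh
import Pool.Agent.NI.Dim
import Pool.Agent.NI.FaceYZ
import Pool.Agent.NI.FaceA
import Pool.Agent.NI.FaceB
import Pool.Agent.NI.Eps

/-!
# assembly (done)
-/

open Set Matrix

namespace NI

open MPd0c340

theorem main : ∃ P : Set (E 5), IsPolytope P ∧ Neighborly P ∧ ¬ Inscribable P := by
  obtain ⟨ε, h0, h1, hp⟩ := exists_eps NN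
  refine ⟨hull NN (vpt ε), isPolytope_vpt NN (by norm_num [NN]) ε, neighborly_of_pairs NN _ hp, ?_⟩
  rintro ⟨Q, hQ, hPQ, c, r, -, hr⟩
  obtain ⟨x', hx', hL⟩ := transfer NN (vpt ε) hp (isPolytope_vpt NN (by norm_num [NN]) ε) Q hQ hPQ
  refine no_sphere x' ?_ c r (fun a ha => hr _ (by rw [hx']; exact ⟨a, ha, rfl⟩))
  refine ⟨hL _ ⟨(false, 0), rfl, Nat.zero_le _⟩ (face_Y _ _ h0 h1),
    hL _ ⟨(true, 0), rfl, Nat.zero_le _⟩ (face_Z _ _ h0 h1), ?_, ?_, ?_, ?_⟩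
  · intro i k hik hk hi' hk'
    exact hL _ ⟨(false, i), by simp [setA], by show i ≤ NN; omega⟩ (face_a _ _ h0 h1 i k hik hi' hk')
  · intro i k hik hk hi' hk'
    exact hL _ ⟨(false, i), by simp [setB], by show i ≤ NN; omega⟩ (face_b _ _ h0 h1 i k hik hi' hk')
  · intro i k hik hk hi' hk'
    exact hL _ ⟨(true, i), by simp [set0], by show i ≤ NN; omega⟩ (face_0 _ _ h0 h1 i k hik hi' hk')
  · intro a b ha hb hab
    exact hL _ ⟨a, by simp, ha⟩ (hp a b ha hb hab)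

end NI
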